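import Mathlib
import Pool.Agent.helper19.EL.Slice
import Pool.Agent.helper69.EM.Prim

/-!
# FE: existence for the free elastic flow (MP_278900_an, phase 2), definitions

Plan.  In the constant speed gauge and with the time `τ`, `dτ = dt / L⁴`, the function
`W = L k` of `x ∈ ℝ/ℤ` solves the autonomous equation in divergence form

  `W_τ = - W_xxxx + ∂_x ( - (5/2) W² W_x + W P )`,  `P_x = W_x² - W⁴/2 - m`,  `∫ P = 0`,
  `m = ∫ (W_x² - W⁴/2) dx`,  `L_τ = - m L`.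

Local solutions are constructed on the level of the Fourier coefficients `w n τ`
(structure `CSol`), they give smooth functions on `ℝ × [0, S)` (structure `FSol`).
-/

set_option autoImplicit false

open scoped Real ComplexConjugate ContDiff
open Set
open Pool.Agent.helper19.EL (Sm pu pt)

namespace Pool.Agent.helper22.FE

/-! ## Sequences -/

/-- the weight `1 + |n|` -/
noncomputable def wt (n : ℤ) : ℝ := 1 + |(n : ℝ)|

/-- convolution of sequences -/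
noncomputable def cv {E : Type} [NormedRing E] (f g : ℤ → E) (n : ℤ) : E :=
  ∑' m : ℤ, f m * g (n - m)

/-- the multiplier of `d/dx` -/
noncomputable def mul (n : ℤ) : ℂ := 2 * π * n * Complex.I

/-- `d/dx` on the level of coefficients -/
noncomputable def dx {E : Type} [AddCommGroup E] [Module ℂ E] (f : ℤ → E) (n : ℤ) : E :=
  mul n • f n

/-- the primitive with mean zero (of a function minus its mean), coefficients -/
noncomputable def ix {E : Type} [AddCommGroup E] [Module ℂ E] (f : ℤ → E) (n : ℤ) : E :=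
  (mul n)⁻¹ • f n

/-- the multiplier of `d⁴/dx⁴` -/
noncomputable def lam (n : ℤ) : ℝ := (2 * π * n) ^ 4

section
variable {E : Type} [NormedCommRing E] [NormedAlgebra ℂ E]

/-- coefficients of `W_x² - W⁴/2` -/
noncomputable def Qn (w : ℤ → E) (n : ℤ) : E :=
  cv (dx w) (dx w) n - (1 / 2 : ℂ) • cv (cv w w) (cv w w) n

/-- coefficients of `P` -/
noncomputable def Pn (w : ℤ → E) : ℤ → E := ix (Qn w)

/-- coefficients of `- (5/2) W² W_x + W P` -/
noncomputable def Fl (w : ℤ → E) (n : ℤ) : E :=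
  (-(5 / 2) : ℂ) • cv (cv w w) (dx w) n + cv w (Pn w) n

end

/-- the right-hand side of the equation for the coefficients -/
noncomputable def rhs (a : ℤ → ℂ) (n : ℤ) : ℂ := -(lam n : ℂ) * a n + dx (Fl a) n

/-- rapidly decreasing sequences -/
def Rap (a : ℤ → ℂ) : Prop := ∀ r : ℕ, Summable fun n => wt n ^ r * ‖a n‖

/-- the norm `∑ (1 + |n|) |a n|` -/
noncomputable def nrm1 (a : ℤ → ℂ) : ℝ := ∑' n, wt n * ‖a n‖

/-- the coefficients at time `t` -/
def sq (w : ℤ → ℝ → ℂ) (t : ℝ) : ℤ → ℂ := fun n => w n t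

/-- a family of continuous functions on `[0, S]`, rapidly decreasing uniformly in time -/
def RapOn (S : ℝ) (f : ℤ → ℝ → ℂ) : Prop :=
  (∀ n, ContinuousOn (f n) (Icc 0 S)) ∧ ∃ b : ℤ → ℝ,
    (∀ r : ℕ, Summable fun n => wt n ^ r * b n) ∧ ∀ n, ∀ t ∈ Icc 0 S, ‖f n t‖ ≤ b n

/-- a solution on the closed interval `[0, S]`, on the level of the Fourier coefficients -/
structure CSol (S : ℝ) (w : ℤ → ℝ → ℂ) : Prop where
  rap : RapOn S w
  real : ∀ n, ∀ t ∈ Icc 0 S, w (-n) t = conj (w n t)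
  ode : ∀ n, ∀ t ∈ Icc 0 S, HasDerivWithinAt (w n) (rhs (sq w t) n) (Icc 0 S) t

/-! ## Functions -/

/-- the function with the coefficients `f n t` -/
noncomputable def syn (f : ℤ → ℝ → ℂ) (x t : ℝ) : ℂ :=
  ∑' n : ℤ, f n t * Complex.exp (mul n * x)

/-- `m = ∫ (W_x² - W⁴/2) dx` -/
noncomputable def mm (W : ℝ → ℝ → ℝ) (t : ℝ) : ℝ :=
  ∫ x in (0 : ℝ)..1, (pu W x t ^ 2 - W x t ^ 4 / 2)

/-- the flux `- W_xxx - (5/2) W² W_x + W P` -/
noncomputable def flux (W P : ℝ → ℝ → ℝ) (x t : ℝ) : ℝ :=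
  -(pu (pu (pu W)) x t) - 5 / 2 * W x t ^ 2 * pu W x t + W x t * P x t

/-- a smooth solution on `ℝ × [0, S)` -/
structure FSol (S : ℝ) (W P : ℝ → ℝ → ℝ) : Prop where
  smW : Sm S W
  smP : Sm S P
  perW : ∀ t ∈ Ico 0 S, ∀ x, W (x + 1) t = W x t
  perP : ∀ t ∈ Ico 0 S, ∀ x, P (x + 1) t = P x t
  meanP : ∀ t ∈ Ico 0 S, ∫ x in (0 : ℝ)..1, P x t = 0
  P_x : ∀ t ∈ Ico 0 S, ∀ x, pu P x t = pu W x t ^ 2 - W x t ^ 4 / 2 - mm W t
  W_t : ∀ t ∈ Ioo 0 S, ∀ x, pt W x t = pu (flux W P) x t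

/-- the function `W` of a family of coefficients -/
noncomputable def Wf (w : ℤ → ℝ → ℂ) (x t : ℝ) : ℝ := (syn w x t).re

/-- the function `P` of a family of coefficients -/
noncomputable def Pf (w : ℤ → ℝ → ℂ) (x t : ℝ) : ℝ := (syn (fun n t => Pn (sq w t) n) x t).re

/-- `G = ∫ W²` -/
noncomputable def GG (W : ℝ → ℝ → ℝ) (t : ℝ) : ℝ := ∫ x in (0 : ℝ)..1, W x t ^ 2

/-- `H = ∫ W_xx²` -/
noncomputable def HH (W : ℝ → ℝ → ℝ) (t : ℝ) : ℝ := ∫ x in (0 : ℝ)..1, pu (pu W) x t ^ 2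

/-- the length -/
noncomputable def Len (L0 : ℝ) (W : ℝ → ℝ → ℝ) (t : ℝ) : ℝ :=
  L0 * Real.exp (-∫ s in (0 : ℝ)..t, mm W s)

/-- the time of the flow -/
noncomputable def tt (L0 : ℝ) (W : ℝ → ℝ → ℝ) (t : ℝ) : ℝ := ∫ s in (0 : ℝ)..t, Len L0 W s ^ 4

/-- `∫₀¹ exp (i ∫₀ˣ W) dx`, zero for closed curves -/
noncomputable def clo (W : ℝ → ℝ) : ℂ :=
  ∫ x in (0 : ℝ)..1, Complex.exp (((∫ y in (0 : ℝ)..x, W y : ℝ) : ℂ) * Complex.I)

/-- the closing condition: `∫ W ∈ 2πℤ` and `∫ exp (i ∫ W) = 0` -/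
def Closed (W : ℝ → ℝ) : Prop :=
  (∃ k : ℤ, ∫ x in (0 : ℝ)..1, W x = 2 * π * k) ∧ clo W = 0

end Pool.Agent.helper22.FE
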