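import Pool.Agent.helper19.EL.Curve
import Pool.Agent.helper69.EM.Repar
import Pool.Agent.helper22.FE.Defs

/-!
# FE: the geometry of a curve given by its angle

If `c' = L e^{iθ}`, `θ' = w`, `L > 0` constant, then `speed c = L`, `tang c = e^{iθ}`,
`curv c = w / L`, `elF c = (w'' + w³/2) / L³`; and the same after a reparametrisation `φ`,
`φ' > 0` (helper69's `curv_comp`, `elF_comp`, `nor_comp` in EM/Repar).
-/

set_option autoImplicit false

open scoped Real ContDiff InnerProductSpace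
open Set
open Pool.Agent.helper19.EL

namespace Pool.Agent.helper22.FE

section
variable {c : ℝ → ℂ} {θ w w1 w2 : ℝ → ℝ} {L : ℝ}

theorem norm_expI (r : ℝ) : ‖Complex.exp ((r : ℂ) * Complex.I)‖ = 1 :=
  Complex.norm_exp_ofReal_mul_I r

theorem geo_speed (hL : 0 < L)
    (hc : ∀ x, HasDerivAt c ((L : ℂ) * Complex.exp ((θ x : ℂ) * Complex.I)) x) (x : ℝ) :
    speed c x = L := by
  unfold speed
  rw [(hc x).deriv, norm_mul, norm_expI, Complex.norm_real, Real.norm_of_nonneg hL.le, mul_one]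

theorem geo_tang (hL : 0 < L)
    (hc : ∀ x, HasDerivAt c ((L : ℂ) * Complex.exp ((θ x : ℂ) * Complex.I)) x) (x : ℝ) :
    tang c x = Complex.exp ((θ x : ℂ) * Complex.I) := by
  have h0 : (L : ℂ) ≠ 0 := by exact_mod_cast hL.ne'
  unfold tang dsC
  rw [geo_speed hL hc, (hc x).deriv, mul_div_cancel_left₀ _ h0]

theorem hasDerivAt_expI {x : ℝ} {v : ℝ} (hθ : HasDerivAt θ v x) :
    HasDerivAt (fun x => Complex.exp ((θ x : ℂ) * Complex.I))
      ((v : ℂ) * (Complex.I * Complex.exp ((θ x : ℂ) * Complex.I))) x := by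
  have h1 : HasDerivAt (fun x => (θ x : ℂ) * Complex.I) ((v : ℂ) * Complex.I) x :=
    hθ.ofReal_comp.mul_const Complex.I
  refine h1.cexp.congr_deriv ?_
  ring

theorem geo_curv (hL : 0 < L)
    (hc : ∀ x, HasDerivAt c ((L : ℂ) * Complex.exp ((θ x : ℂ) * Complex.I)) x)
    (hθ : ∀ x, HasDerivAt θ (w x) x) (x : ℝ) : curv c x = w x / L := by
  have h1 : tang c = fun x => Complex.exp ((θ x : ℂ) * Complex.I) := funext (geo_tang hL hc)
  rw [curv_eq, geo_speed hL hc, h1, (hasDerivAt_expI (hθ x)).deriv]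
  congr 1
  have h2 : Complex.exp ((θ x : ℂ) * Complex.I) *
      (starRingEnd ℂ) (Complex.exp ((θ x : ℂ) * Complex.I)) = 1 := by
    rw [Complex.mul_conj, Complex.normSq_eq_norm_sq, norm_expI]
    simp
  have h3 : (w x : ℂ) * (Complex.I * Complex.exp ((θ x : ℂ) * Complex.I)) *
      (starRingEnd ℂ) (Complex.exp ((θ x : ℂ) * Complex.I)) = (w x : ℂ) * Complex.I := by
    rw [mul_assoc, mul_assoc, h2, mul_one]
  rw [h3]
  simp

theorem geo_elF (hL : 0 < L)
    (hc : ∀ x, HasDerivAt c ((L : ℂ) * Complex.exp ((θ x : ℂ) * Complex.I)) x)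
    (hθ : ∀ x, HasDerivAt θ (w x) x) (hw : ∀ x, HasDerivAt w (w1 x) x)
    (hw1 : ∀ x, HasDerivAt w1 (w2 x) x) (x : ℝ) :
    elF c x = (w2 x + w x ^ 3 / 2) / L ^ 3 := by
  have h1 : curv c = fun x => w x / L := funext (geo_curv hL hc hθ)
  have h2 : dsR c (curv c) = fun x => w1 x / L / L := by
    funext y
    unfold dsR
    rw [geo_speed hL hc, h1, ((hw y).div_const L).deriv]
  have h0 := hL.ne'
  unfold elF
  rw [h2]
  unfold dsR
  rw [geo_speed hL hc, (((hw1 x).div_const L).div_const L).deriv, h1]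
  simp only
  field_simp

end

end Pool.Agent.helper22.FE
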