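import Pool.Agent.helper22.FE.Defs

/-!
# FE: the initial curve

For a smooth immersed closed curve `c` let `L = ∫₀¹ |c'|`, `φ(u) = (1/L) ∫₀ᵘ |c'|` (smooth, `φ' > 0`,
`φ(u+1) = φ(u) + 1`, a bijection of `ℝ` with smooth inverse `ψ`), `w(x) = L k(ψ(x))`, where
`k = Im(conj(c') c'') / |c'|³`, and `θ0 = arg c'(0)`.  Then `c'(u) / |c'(u)|` and
`exp (i (θ0 + ∫₀^{φ(u)} w))` solve the same linear equation `z' = i k |c'| z` with the same
initial value; so they agree.  `w` is smooth and 1-periodic, `∫₀¹ w ∈ 2πℤ` because the tangent at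
`u = 0` and `u = 1` agree, and `clo w = 0` because `c(1) = c(0)`.
-/

set_option autoImplicit false

open scoped Real ContDiff
open Set

namespace Pool.Agent.helper22.FE

theorem Ini_prim {E : Type} [NormedAddCommGroup E] [NormedSpace ℝ E] [CompleteSpace E]
    {f : ℝ → E} (hf : Continuous f) (u : ℝ) :
    HasDerivAt (fun u => ∫ x in (0 : ℝ)..u, f x) (f u) u :=
  intervalIntegral.integral_hasDerivAt_right (hf.intervalIntegrable _ _)
    (hf.stronglyMeasurableAtFilter _ _) hf.continuousAt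

theorem Ini_prim_smooth {f : ℝ → ℝ} (hf : ContDiff ℝ ∞ f) :
    ContDiff ℝ ∞ (fun u => ∫ x in (0 : ℝ)..u, f x) := by
  rw [contDiff_infty_iff_deriv]
  refine ⟨fun u => (Ini_prim hf.continuous u).differentiableAt, ?_⟩
  have : deriv (fun u => ∫ x in (0 : ℝ)..u, f x) = f := by
    funext u
    exact (Ini_prim hf.continuous u).deriv
  rw [this]
  exact hf

theorem Ini_const {E : Type} [NormedAddCommGroup E] [NormedSpace ℝ E] {f g f' : ℝ → E}
    (hf : ∀ u, HasDerivAt f (f' u) u) (hg : ∀ u, HasDerivAt g (f' u) u) (h0 : f 0 = g 0) (u : ℝ) :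
    f u = g u := by
  have h1 : ∀ x, HasDerivAt (fun u => f u - g u) 0 x := fun x => by
    have := (hf x).sub (hg x)
    rwa [sub_self] at this
  have h2 := is_const_of_deriv_eq_zero (f := fun u => f u - g u)
    (fun x => (h1 x).differentiableAt) (fun x => (h1 x).deriv) u 0
  simp only [h0, sub_self] at h2
  exact sub_eq_zero.1 h2

theorem Ini_surj {φ : ℝ → ℝ} (hc : Continuous φ) (h0 : φ 0 = 0) (h1 : ∀ u, φ (u + 1) = φ u + 1) :
    Function.Surjective φ := by
  have hper : Function.Periodic (fun u => φ u - u) 1 := by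
    intro u
    simp only
    rw [h1]
    ring
  have hint : ∀ n : ℤ, φ n = n := by
    intro n
    have h2 := hper.int_mul n 0
    simp only [zero_add, mul_one, h0, sub_zero] at h2
    linarith
  intro y
  have h2 : y ∈ Icc (φ (⌊y⌋ : ℤ)) (φ ((⌊y⌋ + 1 : ℤ))) := by
    rw [hint, hint]
    constructor
    · exact Int.floor_le y
    · push_cast
      exact (Int.lt_floor_add_one y).le
  have h3 : ((⌊y⌋ : ℤ) : ℝ) ≤ ((⌊y⌋ + 1 : ℤ) : ℝ) := by push_cast; linarith
  obtain ⟨u, -, hu⟩ := intermediate_value_Icc h3 hc.continuousOn h2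
  exact ⟨u, hu⟩

theorem exists_ini (c : ℝ → ℂ) (hc : ContDiff ℝ ∞ c) (hp : ∀ u, c (u + 1) = c u)
    (hi : ∀ u, deriv c u ≠ 0) :
    ∃ (L θ0 : ℝ) (w φ : ℝ → ℝ), 0 < L ∧ ContDiff ℝ ∞ w ∧ (∀ x, w (x + 1) = w x) ∧ Closed w ∧
      ContDiff ℝ ∞ φ ∧ (∀ u, φ (u + 1) = φ u + 1) ∧ (∀ u, 0 < deriv φ u) ∧ φ 0 = 0 ∧
      ∀ u, c u = c 0 + ∫ y in (0 : ℝ)..φ u, (L : ℂ) *
        Complex.exp (((θ0 + ∫ v in (0 : ℝ)..y, w v : ℝ) : ℂ) * Complex.I) := by
  have hc1 : ContDiff ℝ ∞ (deriv c) := (contDiff_infty_iff_deriv.1 hc).2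
  have hc2 : ContDiff ℝ ∞ (deriv (deriv c)) := (contDiff_infty_iff_deriv.1 hc1).2
  have hd0 : ∀ u, HasDerivAt c (deriv c u) u := fun u =>
    ((contDiff_infty_iff_deriv.1 hc).1 u).hasDerivAt
  have hd1 : ∀ u, HasDerivAt (deriv c) (deriv (deriv c) u) u := fun u =>
    ((contDiff_infty_iff_deriv.1 hc1).1 u).hasDerivAt
  have hp1 : ∀ u, deriv c (u + 1) = deriv c u := by
    intro u
    have h1 := deriv_comp_add_const c 1 u
    rw [← h1]
    congr 1
    funext x
    exact hp x
  have hp2 : ∀ u, deriv (deriv c) (u + 1) = deriv (deriv c) u := by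
    intro u
    have h1 := deriv_comp_add_const (deriv c) 1 u
    rw [← h1]
    congr 1
    funext x
    exact hp1 x
  -- the speed
  let s : ℝ → ℝ := fun u => ‖deriv c u‖
  have hs : ContDiff ℝ ∞ s := hc1.norm ℝ hi
  have hs0 : ∀ u, 0 < s u := fun u => norm_pos_iff.2 (hi u)
  have hsp : Function.Periodic s 1 := fun u => by simp only [s, hp1]
  -- the logarithmic derivative
  let q : ℝ → ℂ := fun u => deriv (deriv c) u / deriv c u
  have hq : ContDiff ℝ ∞ q := by
    simp only [q, div_eq_mul_inv]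
    exact hc2.mul (hc1.inv hi)
  have hqp : ∀ u, q (u + 1) = q u := fun u => by simp only [q, hp1, hp2]
  have hqc : Continuous q := hq.continuous
  let K : ℝ → ℝ := fun u => (q u).im
  have hK : ContDiff ℝ ∞ K := Complex.imCLM.contDiff.comp hq
  have hKp : ∀ u, K (u + 1) = K u := fun u => by simp only [K, hqp]
  let A : ℝ → ℝ := fun u => ∫ x in (0 : ℝ)..u, K x
  have hA : ∀ u, HasDerivAt A (K u) u := fun u => Ini_prim hK.continuous u
  -- c' = c'(0) exp (∫ q)
  let Q : ℝ → ℂ := fun u => ∫ x in (0 : ℝ)..u, q x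
  have hQ : ∀ u, HasDerivAt Q (q u) u := fun u => Ini_prim hqc u
  have hQim : ∀ u, (Q u).im = A u := by
    intro u
    refine Ini_const (f := fun u => (Q u).im) (g := A) (f' := K) (fun x => ?_) hA ?_ u
    · exact Complex.imCLM.hasFDerivAt.comp_hasDerivAt x (hQ x)
    · simp [Q, A]
  have hcexp : ∀ u, deriv c u = deriv c 0 * Complex.exp (Q u) := by
    intro u
    have h1 : ∀ x, HasDerivAt (fun u => deriv c u * Complex.exp (-Q u)) 0 x := by
      intro x
      have h2 := (hd1 x).mul ((hQ x).neg.cexp)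
      have hqx : q x * deriv c x = deriv (deriv c) x := div_mul_cancel₀ _ (hi x)
      refine h2.congr_deriv ?_
      linear_combination (-Complex.exp (-Q x)) * hqx
    have h2 := is_const_of_deriv_eq_zero (f := fun u => deriv c u * Complex.exp (-Q u))
      (fun x => (h1 x).differentiableAt) (fun x => (h1 x).deriv) u 0
    have h3 : Q 0 = 0 := by simp [Q]
    simp only [h3, neg_zero, Complex.exp_zero, mul_one] at h2
    rw [← h2, mul_assoc, ← Complex.exp_add, neg_add_cancel, Complex.exp_zero, mul_one]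
  let θ0 : ℝ := Complex.arg (deriv c 0)
  have hc0 : deriv c 0 = (s 0 : ℂ) * Complex.exp ((θ0 : ℂ) * Complex.I) :=
    (Complex.norm_mul_exp_arg_mul_I (deriv c 0)).symm
  have hsQ : ∀ u, s u = s 0 * Real.exp (Q u).re := by
    intro u
    simp only [s]
    conv_lhs => rw [hcexp u]
    rw [norm_mul, Complex.norm_exp]
  have hcs : ∀ u, deriv c u = (s u : ℂ) * Complex.exp (((θ0 + A u : ℝ) : ℂ) * Complex.I) := by
    intro u
    have h1 : Complex.exp (Q u) = ((Real.exp (Q u).re : ℝ) : ℂ) *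
        Complex.exp ((A u : ℂ) * Complex.I) := by
      rw [← hQim, Complex.ofReal_exp, ← Complex.exp_add, Complex.re_add_im]
    rw [hcexp, h1, hsQ u]
    conv_lhs => rw [hc0]
    push_cast
    rw [add_mul, Complex.exp_add]
    ring
  -- arc length
  let L : ℝ := ∫ x in (0 : ℝ)..1, s x
  have hsint : ∀ a b : ℝ, IntervalIntegrable s MeasureTheory.volume a b := fun a b =>
    hs.continuous.intervalIntegrable a b
  have hL : 0 < L := intervalIntegral.intervalIntegral_pos_of_pos_on (hsint 0 1)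
    (fun x _ => hs0 x) one_pos
  let φ : ℝ → ℝ := fun u => L⁻¹ * ∫ x in (0 : ℝ)..u, s x
  have hφ : ContDiff ℝ ∞ φ := contDiff_const.mul (Ini_prim_smooth hs)
  have hφd : ∀ u, HasDerivAt φ (L⁻¹ * s u) u := fun u =>
    (Ini_prim hs.continuous u).const_mul L⁻¹
  have hφpos : ∀ u, 0 < L⁻¹ * s u := fun u => mul_pos (inv_pos.2 hL) (hs0 u)
  have hφ1 : ∀ u, φ (u + 1) = φ u + 1 := by
    intro u
    have h1 : ∫ x in (0 : ℝ)..(u + 1), s x = (∫ x in (0 : ℝ)..u, s x) + L := by
      rw [← intervalIntegral.integral_add_adjacent_intervals (hsint 0 u) (hsint u (u + 1)),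
        hsp.intervalIntegral_add_eq u 0, zero_add]
    simp only [φ]
    rw [h1, mul_add, inv_mul_cancel₀ hL.ne']
  have hφ0 : φ 0 = 0 := by simp [φ]
  have hmono : StrictMono φ := strictMono_of_deriv_pos (fun u => by
    rw [(hφd u).deriv]
    exact hφpos u)
  have hsurj := Ini_surj hφ.continuous hφ0 hφ1
  let e : ℝ ≃ₜ ℝ := (hmono.orderIsoOfSurjective φ hsurj).toHomeomorph
  have he : ∀ u, e u = φ u := fun u => rfl
  have hψ : ContDiff ℝ ∞ (e.symm : ℝ → ℝ) :=
    e.contDiff_symm_deriv (f' := fun u => L⁻¹ * s u) (fun u => (hφpos u).ne') hφd hφ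
  let w : ℝ → ℝ := fun x => L * (K (e.symm x) / s (e.symm x))
  have hw : ContDiff ℝ ∞ w :=
    contDiff_const.mul ((hK.comp hψ).div (hs.comp hψ) (fun x => (hs0 _).ne'))
  have hwφ : ∀ u, w (φ u) * (L⁻¹ * s u) = K u := by
    intro u
    simp only [w]
    have h1 : e.symm (φ u) = u := by rw [← he, e.symm_apply_apply]
    rw [h1]
    field_simp [hL.ne', (hs0 u).ne']
  have hψ1 : ∀ x, e.symm (x + 1) = e.symm x + 1 := by
    intro x
    apply e.injective
    rw [e.apply_symm_apply, he, hφ1, ← he, e.apply_symm_apply]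
  have hwp : ∀ x, w (x + 1) = w x := by
    intro x
    simp only [w, hψ1, hKp, hsp (e.symm x)]
  have hWA : ∀ u, (∫ v in (0 : ℝ)..φ u, w v) = A u := by
    intro u
    refine Ini_const (f := fun u => ∫ v in (0 : ℝ)..φ u, w v) (g := A) (f' := K)
      (fun x => ?_) hA ?_ u
    · have h1 := (Ini_prim hw.continuous (φ x)).comp x (hφd x)
      rw [hwφ] at h1
      exact h1
    · simp [A, hφ0]
  let g : ℝ → ℂ := fun y => (L : ℂ) *
    Complex.exp (((θ0 + ∫ v in (0 : ℝ)..y, w v : ℝ) : ℂ) * Complex.I)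
  have hgc : Continuous g := by
    have h1 : Continuous (fun y => ∫ v in (0 : ℝ)..y, w v) := (Ini_prim_smooth hw).continuous
    fun_prop
  have hmain : ∀ u, c u = c 0 + ∫ y in (0 : ℝ)..φ u, g y := by
    intro u
    refine Ini_const (f := c) (g := fun u => c 0 + ∫ y in (0 : ℝ)..φ u, g y) (f' := deriv c)
      hd0 (fun x => ?_) ?_ u
    · have h1 := (Ini_prim hgc (φ x)).scomp x (hφd x)
      have h2 := h1.const_add (c 0)
      refine HasDerivAt.congr_deriv (f' := (L⁻¹ * s x) • g (φ x)) h2 ?_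
      simp only [g]
      rw [hWA, hcs x, Complex.real_smul]
      have hLc : (L : ℂ) ≠ 0 := by exact_mod_cast hL.ne'
      push_cast
      field_simp
    · simp [hφ0]
  refine ⟨L, θ0, w, φ, hL, hw, hwp, ⟨?_, ?_⟩, hφ, hφ1, fun u => by
    rw [(hφd u).deriv]
    exact hφpos u, hφ0, hmain⟩
  · have h1 : φ 1 = 1 := by
      have := hφ1 0
      rwa [zero_add, hφ0, zero_add] at this
    have h2 := hWA 1
    rw [h1] at h2
    have h3 := hcs 1
    have h4 := hp1 0
    rw [zero_add] at h4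
    have h5 : s 1 = s 0 := by
      have := hsp 0
      rwa [zero_add] at this
    rw [h4, h5, hc0] at h3
    have hs00 : (s 0 : ℂ) ≠ 0 := by exact_mod_cast (hs0 0).ne'
    have h6 := mul_left_cancel₀ hs00 h3
    push_cast at h6
    rw [add_mul, Complex.exp_add] at h6
    have h7 : Complex.exp ((A 1 : ℂ) * Complex.I) = 1 := by
      have h8 := Complex.exp_ne_zero ((θ0 : ℂ) * Complex.I)
      apply mul_left_cancel₀ h8
      rw [mul_one]
      exact h6.symm
    obtain ⟨k, hk⟩ := Complex.exp_eq_one_iff.1 h7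
    refine ⟨k, ?_⟩
    rw [h2]
    have h9 := congrArg Complex.im hk
    simp only [Complex.mul_im, Complex.ofReal_re, Complex.I_im, Complex.ofReal_im, Complex.I_re,
      mul_one, mul_zero, add_zero] at h9
    rw [h9]
    simp
    ring
  · have h1 : φ 1 = 1 := by
      have := hφ1 0
      rwa [zero_add, hφ0, zero_add] at this
    have h2 := hmain 1
    have h3 := hp 0
    rw [zero_add] at h3
    rw [h1, h3] at h2
    have h4 : ∫ y in (0 : ℝ)..1, g y = 0 := by
      have := congrArg (fun z => z - c 0) h2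
      simpa using this.symm
    have h5 : (∫ y in (0 : ℝ)..1, g y) = ((L : ℂ) * Complex.exp ((θ0 : ℂ) * Complex.I)) * clo w := by
      rw [clo, ← intervalIntegral.integral_const_mul]
      congr 1
      funext y
      simp only [g]
      push_cast
      rw [add_mul, Complex.exp_add]
      ring
    rw [h5] at h4
    have hLc : (L : ℂ) ≠ 0 := by exact_mod_cast hL.ne'
    exact (mul_eq_zero.1 h4).resolve_left (mul_ne_zero hLc (Complex.exp_ne_zero _))

end Pool.Agent.helper22.FE
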