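import Pool.Agent.helper22.FE.Pri
import Pool.Agent.helper69.EM.TimeCh

/-!
# FE: change of time

`σ` is the inverse function of `τ ↦ ∫₀^τ l`, `l > 0` smooth on `[0, S)`.
Proof: extend `l` to `l̃ := l ∘ clamp` (`l 0` for negative times, constant beyond `τ2`,
`τ1 < τ2 < S`), a continuous positive function on `ℝ` bounded below; `A(τ) = ∫₀^τ l̃` is a strictly
increasing `C¹` bijection of `ℝ`, `σ` its inverse: `HasDerivAt σ (1 / l̃(σ t)) t` everywhere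
(`HasDerivAt.of_local_left_inverse` or `StrictMono.orderIso`-type lemmas).  For `t ∈ [0, T)`,
`T < A(τ1)`, one has `σ t ∈ [0, τ1)`, and `σ' = 1 / l(σ)` on `[0, T)` gives by induction on `n`
that `σ` is `C^n` on `[0, T)` (`contDiffOn_succ_iff_derivWithin` on `Ico 0 T`).
-/

set_option autoImplicit false

open scoped Real ContDiff
open Set
open Pool.Agent.helper19.EL (Sm pu pt)

namespace Pool.Agent.helper22.FE

theorem exists_time {S : ℝ} {l : ℝ → ℝ} (hl : ContDiffOn ℝ ∞ l (Ico 0 S))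
    (hpos : ∀ t ∈ Ico 0 S, 0 < l t) {τ1 T : ℝ} (hτ : τ1 ∈ Ioo 0 S) (hT : 0 < T)
    (h : T < ∫ s in (0 : ℝ)..τ1, l s) :
    ∃ σ : ℝ → ℝ, ContDiffOn ℝ ∞ σ (Ico 0 T) ∧ σ 0 = 0 ∧ (∀ t ∈ Ico 0 T, σ t ∈ Ico 0 S) ∧
      (∀ t ∈ Ioo 0 T, σ t ∈ Ioo 0 S) ∧ ∀ t ∈ Ioo 0 T, HasDerivAt σ (1 / l (σ t)) t := by
  obtain ⟨r, h1, h2, h3, h4, -⟩ := Pool.Agent.helper69.EM.exists_inverse hl hpos
    ⟨hτ.1.le, hτ.2⟩ h
  refine ⟨r, h1, h2, h3, fun t ht => (h4 t ht).1, fun t ht => ?_⟩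
  rw [one_div]
  exact (h4 t ht).2

theorem Sm.comp_time {E : Type} [NormedAddCommGroup E] [NormedSpace ℝ E] {S T : ℝ}
    {f : ℝ → ℝ → E} (hf : Sm S f) {σ : ℝ → ℝ} (hσ : ContDiffOn ℝ ∞ σ (Ico 0 T))
    (hm : ∀ t ∈ Ico 0 T, σ t ∈ Ico 0 S) : Sm T (fun x t => f x (σ t)) := by
  have h1 : ContDiffOn ℝ ∞ (fun p : ℝ × ℝ => ((p.1, σ p.2) : ℝ × ℝ)) (univ ×ˢ Ico 0 T) :=
    contDiff_fst.contDiffOn.prodMk (hσ.comp contDiff_snd.contDiffOn fun p hp => hp.2)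
  exact ContDiffOn.comp hf h1 fun p hp => ⟨mem_univ _, hm p.2 hp.2⟩

/-- reparametrisation of the circle variable -/
theorem Sm.comp_x {E : Type} [NormedAddCommGroup E] [NormedSpace ℝ E] {T : ℝ}
    {f : ℝ → ℝ → E} (hf : Sm T f) {φ : ℝ → ℝ} (hφ : ContDiff ℝ ∞ φ) :
    Sm T (fun x t => f (φ x) t) := by
  have h1 : ContDiff ℝ ∞ (fun p : ℝ × ℝ => ((φ p.1, p.2) : ℝ × ℝ)) :=
    (hφ.comp contDiff_fst).prodMk contDiff_snd
  exact ContDiffOn.comp hf h1.contDiffOn fun p hp => ⟨mem_univ _, hp.2⟩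

end Pool.Agent.helper22.FE
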