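import Pool.Agent.helper22.FE.Glob
import Pool.Agent.helper22.FE.Tim
import Pool.Agent.helper22.FE.Geo
import Pool.Agent.helper22.FE.Ini

/-!
# FE: existence of the free elastic flow

Assembly: `exists_ini`, `glob'` with `T + 1`, `exists_time` with `l = Len ^ 4`,
`g u t = cur (φ u) (σ t)`, `Pool.Agent.helper69.EM.exists_isFlow` with `S = T < T + 1`.
Normal velocity: `∂_t g = L⁻⁴ vel = L⁻³ (- i Q + Π) e^{iθ}`, and
`⟪L⁻³ (- i Q + Π) e^{iθ}, i e^{iθ}⟫ = - L⁻³ Q = - elF`.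
-/

set_option autoImplicit false

open scoped Real ContDiff InnerProductSpace
open Set
open Pool.Agent.helper19.EL (Sm pu pt IsFlow)

namespace Pool.Agent.helper22.FE

open Pool.Agent.helper69.EM (exists_isFlow nor_comp elF_comp)
open Pool.Agent.helper19.EL in
/-- `⟪a τ, i τ⟫ = Im a` for a unit vector `τ` -/
theorem inner_unit {τ : ℂ} (hτ : ‖τ‖ = 1) (a : ℂ) : ⟪a * τ, Complex.I * τ⟫_ℝ = a.im := by
  have h1 : τ.re * τ.re + τ.im * τ.im = 1 := by
    have := Complex.normSq_eq_norm_sq τ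
    rw [hτ, Complex.normSq_apply] at this
    simpa using this
  rw [Complex.inner]
  simp only [Complex.mul_re, Complex.mul_im, Complex.I_re, Complex.I_im, Complex.conj_re,
    Complex.conj_im]
  linear_combination a.im * h1

open Pool.Agent.helper19.EL in
/-- the final assembly -/
theorem assemble {S L0 θ0 : ℝ} {z0 : ℂ} {W P : ℝ → ℝ → ℝ} (h : FSol S W P) (hL : 0 < L0)
    (h0 : Closed fun x => W x 0) {φ : ℝ → ℝ} (hφ : ContDiff ℝ ∞ φ)
    (hφ1 : ∀ u, φ (u + 1) = φ u + 1) (hφ' : ∀ u, 0 < deriv φ u) {T : ℝ} (hT : 0 < T) {τ : ℝ}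
    (hτ : τ ∈ Ioo 0 S) (hTτ : T + 1 < tt L0 W τ) :
    ∃ γ : ℝ → ℝ → ℂ, IsFlow γ T ∧ ∀ u, γ u 0 = cur L0 θ0 z0 W P (φ u) 0 := by
  have hl : ContDiffOn ℝ ∞ (fun t => Len L0 W t ^ 4) (Ico 0 S) := (Sm.to_t (h.sm_Len L0)).pow 4
  obtain ⟨σ, hσ, hσ0, hσm, hσm', hσd⟩ := exists_time hl
    (fun t _ => pow_pos (Len_pos hL W t) 4) hτ (by linarith : (0 : ℝ) < T + 1) hTτ
  set g : ℝ → ℝ → ℂ := fun u t => cur L0 θ0 z0 W P (φ u) (σ t) with hg
  have hgs : Sm (T + 1) g := by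
    have h1 : Sm (T + 1) (fun x t => cur L0 θ0 z0 W P x (σ t)) :=
      Sm.comp_time (sm_cur h) hσ hσm
    exact Sm.comp_x h1 hφ
  have hφd : ∀ u, HasDerivAt φ (deriv φ u) u := fun u =>
    (hφ.differentiable (by simp) u).hasDerivAt
  have hcx : ∀ t ∈ Ico 0 (T + 1), ∀ x, HasDerivAt (fun x => cur L0 θ0 z0 W P x (σ t))
      ((Len L0 W (σ t) : ℂ) * Complex.exp ((ang θ0 W P x (σ t) : ℂ) * Complex.I)) x :=
    fun t ht x => cur_x h (hσm t ht) x
  have hi : ∀ t ∈ Ico 0 (T + 1), ∀ u, deriv (fun u' => g u' t) u ≠ 0 := by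
    intro t ht u
    have h1 := (hcx t ht (φ u)).scomp u (hφd u)
    rw [show (fun u' => g u' t) = (fun x => cur L0 θ0 z0 W P x (σ t)) ∘ φ from rfl, h1.deriv]
    refine smul_ne_zero (hφ' u).ne' (mul_ne_zero ?_ (Complex.exp_ne_zero _))
    exact_mod_cast (Len_pos hL W (σ t)).ne'
  have hc : ∀ t ∈ Ico 0 (T + 1), ∀ u, g (u + 1) t = g u t := by
    intro t ht u
    show cur L0 θ0 z0 W P (φ (u + 1)) (σ t) = cur L0 θ0 z0 W P (φ u) (σ t)
    rw [hφ1, cur_per h h0 (hσm t ht)]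
  have hf : ∀ t ∈ Ioo 0 (T + 1), ∀ u, ⟪deriv (fun t' => g u t') t, nor (fun u' => g u' t) u⟫_ℝ =
      -elF (fun u' => g u' t) u := by
    intro t ht u
    have ht' : t ∈ Ico 0 (T + 1) := ⟨ht.1.le, ht.2⟩
    have hs := hσm t ht'
    have hs' := hσm' t ht
    have hLp := Len_pos hL W (σ t)
    -- the geometry
    have hang : ∀ x, HasDerivAt (fun x => ang θ0 W P x (σ t)) (W x (σ t)) x := ang_x h hs
    have hw : ∀ x, HasDerivAt (fun x => W x (σ t)) (pu W x (σ t)) x := h.smW.hasDerivAt_u hs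
    have hw1 : ∀ x, HasDerivAt (fun x => pu W x (σ t)) (pu (pu W) x (σ t)) x :=
      h.smW.pu.hasDerivAt_u hs
    set cc : ℝ → ℂ := fun x => cur L0 θ0 z0 W P x (σ t) with hcc
    have hccd : Differentiable ℝ cc := fun x => (hcx t ht' x).differentiableAt
    have htang : tang cc = fun x => Complex.exp ((ang θ0 W P x (σ t) : ℂ) * Complex.I) :=
      funext (geo_tang hLp (hcx t ht'))
    have hcurv : curv cc = fun x => W x (σ t) / Len L0 W (σ t) :=
      funext (geo_curv hLp (hcx t ht') hang)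
    have htd : Differentiable ℝ (tang cc) := by
      rw [htang]; exact fun x => (hasDerivAt_expI (hang x)).differentiableAt
    have hkd : Differentiable ℝ (curv cc) := by
      rw [hcurv]; exact fun x => ((hw x).div_const _).differentiableAt
    have hk1d : Differentiable ℝ (dsR cc (curv cc)) := by
      have h1 : dsR cc (curv cc) = fun x => pu W x (σ t) / Len L0 W (σ t) / Len L0 W (σ t) := by
        funext x
        unfold dsR
        rw [geo_speed hLp (hcx t ht'), hcurv, ((hw x).div_const _).deriv]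
      rw [h1]
      exact fun x => (((hw1 x).div_const _).div_const _).differentiableAt
    have hF : elF (fun u' => g u' t) u = elF cc (φ u) :=
      elF_comp (c := cc) (φ := φ) hφd hφ' hccd htd hkd hk1d u
    have hN : nor (fun u' => g u' t) u = nor cc (φ u) :=
      nor_comp (c := cc) (φ := φ) hφd hφ' hccd u
    have hF' : elF cc (φ u) = QQ W (φ u) (σ t) / Len L0 W (σ t) ^ 3 :=
      geo_elF hLp (hcx t ht') hang hw hw1 (φ u)
    have hN' : nor cc (φ u) = Complex.I * tan' θ0 W P (φ u) (σ t) := by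
      unfold nor
      rw [htang]
      rfl
    -- the velocity
    have hd : HasDerivAt (fun t' => g u t')
        ((1 / Len L0 W (σ t) ^ 4) • vel L0 θ0 W P (φ u) (σ t)) t :=
      HasDerivAt.scomp (h := σ) t (cur_t h hs' (φ u)) (hσd t ht)
    rw [hd.deriv, hF, hN, hF', hN']
    have hL0 : (Len L0 W (σ t) : ℂ) ≠ 0 := by exact_mod_cast hLp.ne'
    have h2 : (1 / Len L0 W (σ t) ^ 4) • vel L0 θ0 W P (φ u) (σ t) =
        ((((Len L0 W (σ t) ^ 3)⁻¹ : ℝ) : ℂ) * (-(Complex.I * QQ W (φ u) (σ t)) +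
          ((P (φ u) (σ t) - W (φ u) (σ t) * pu W (φ u) (σ t) : ℝ) : ℂ))) *
          tan' θ0 W P (φ u) (σ t) := by
      rw [Complex.real_smul]
      unfold vel
      push_cast
      field_simp
    have h3 : ‖tan' θ0 W P (φ u) (σ t)‖ = 1 := norm_expI _
    rw [h2, inner_unit h3]
    simp only [Complex.mul_im, Complex.add_im, Complex.neg_im, Complex.ofReal_re,
      Complex.ofReal_im, Complex.I_re, Complex.I_im, zero_mul, one_mul, zero_add, add_zero]
    field_simp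
  obtain ⟨γ, h1, h2, -⟩ := exists_isFlow hT (by linarith : T < T + 1) hgs hc hi hf
  refine ⟨γ, h1, fun u => ?_⟩
  rw [h2 u]
  show cur L0 θ0 z0 W P (φ u) (σ 0) = _
  rw [hσ0]

/-- for every smooth immersed closed curve and every `T` the free elastic flow exists on
`[0, T)` -/
theorem exists_flow (c : ℝ → ℂ) (hc : ContDiff ℝ ∞ c) (hp : ∀ u, c (u + 1) = c u)
    (hi : ∀ u, deriv c u ≠ 0) (T : ℝ) (hT : 0 < T) :
    ∃ γ : ℝ → ℝ → ℂ, IsFlow γ T ∧ ∀ u, γ u 0 = c u := by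
  obtain ⟨L, θ0, w, φ, hL, hw, hwp, hcl, hφ, hφ1, hφ', -, hcu⟩ := exists_ini c hc hp hi
  obtain ⟨S, W, P, -, h, hW0, τ, hτ, hTτ⟩ := glob' w hw hwp hcl L hL (T + 1)
  have hW0' : (fun x => W x 0) = w := funext hW0
  obtain ⟨γ, h1, h2⟩ := assemble (θ0 := θ0) (z0 := c 0) h hL (by rw [hW0']; exact hcl) hφ hφ1 hφ'
    hT hτ hTτ
  refine ⟨γ, h1, fun u => ?_⟩
  rw [h2 u, cur_zero, hcu u]
  simp only [hW0]

end Pool.Agent.helper22.FE
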