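import Pool.Agent.helper22.FE.Defs

/-!
# FE: inequalities for one periodic function

`Jet w w1 w2 w3 w4`: a 1-periodic function with its derivatives.

Proof of `ip_h2`.  Put `‖f‖² = ∫₀¹ f²`, `b = ‖w4‖`, `p := b^(1/8)`.
* `‖w2‖² = ∫ w w4 ≤ ‖w‖ b`, `‖w1‖² = - ∫ w w2 ≤ ‖w‖ ‖w2‖`; hence `‖w2‖ ≤ K p⁴`, `‖w1‖ ≤ K p²`
  with `K = K(M)`.
* `w1` has a zero (periodicity of `w`), so `|w1| ≤ ∫ |w2| ≤ ‖w2‖ ≤ K p⁴`.
* `w² ≤ ∫ w² + 2 ∫ |w w1| ≤ M + 2 ‖w‖ ‖w1‖ ≤ K (1 + p²)` (`ip_sup`).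
* `p` has mean zero, so `|q| ≤ ∫ |q'| ≤ 2 ∫ |w1² - w⁴/2| ≤ 2 ‖w1‖² + sup w² ‖w‖² ≤ K (1 + p⁴)`
  (`q` is the function called `P` in the other files).
* `R := -5 w w1² - (5/2) w² w2 + w1 q + w (w1² - w⁴/2 - m)`: `‖R‖ ≤ K (1 + p⁷)`:
  `‖w w1²‖ ≤ sup|w| sup|w1| ‖w1‖ ≤ K (1 + p) p⁴ p²`, `‖w² w2‖ ≤ K (1 + p²) p⁴`,
  `‖w1 q‖ ≤ K p² (1 + p⁴)`, `‖w⁵‖ ≤ (sup w²)² ‖w‖`, `|m| ≤ K (1 + p⁴)`.
* `2 ∫ w4 (-w4 + R) ≤ -2 p¹⁶ + 2 p⁸ K (1 + p⁷) ≤ K'`.
-/

set_option autoImplicit false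

open scoped Real ContDiff
open Set

namespace Pool.Agent.helper22.FE

/-- a periodic function with its derivatives up to order 4 -/
structure Jet (w w1 w2 w3 w4 : ℝ → ℝ) : Prop where
  d0 : ∀ x, HasDerivAt w (w1 x) x
  d1 : ∀ x, HasDerivAt w1 (w2 x) x
  d2 : ∀ x, HasDerivAt w2 (w3 x) x
  d3 : ∀ x, HasDerivAt w3 (w4 x) x
  c4 : Continuous w4
  per : ∀ x, w (x + 1) = w x
  per1 : ∀ x, w1 (x + 1) = w1 x
  per2 : ∀ x, w2 (x + 1) = w2 x
  per3 : ∀ x, w3 (x + 1) = w3 x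
  per4 : ∀ x, w4 (x + 1) = w4 x

section
variable {w w1 w2 w3 w4 : ℝ → ℝ}

/-! ### Auxiliary lemmas -/

theorem Ip_cs {f g : ℝ → ℝ} (hf : Continuous f) (hg : Continuous g) :
    (∫ x in (0 : ℝ)..1, f x * g x) ≤
      √(∫ x in (0 : ℝ)..1, f x ^ 2) * √(∫ x in (0 : ℝ)..1, g x ^ 2) := by
  have i1 : IntervalIntegrable (fun x => f x ^ 2) MeasureTheory.volume 0 1 :=
    (hf.pow 2).intervalIntegrable _ _
  have i2 : IntervalIntegrable (fun x => g x ^ 2) MeasureTheory.volume 0 1 :=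
    (hg.pow 2).intervalIntegrable _ _
  have i3 : IntervalIntegrable (fun x => f x * g x) MeasureTheory.volume 0 1 :=
    (hf.mul hg).intervalIntegrable _ _
  have key : ∀ t : ℝ, 0 ≤ (∫ x in (0 : ℝ)..1, g x ^ 2) * (t * t) +
      (2 * ∫ x in (0 : ℝ)..1, f x * g x) * t + ∫ x in (0 : ℝ)..1, f x ^ 2 := by
    intro t
    have h1 : (∫ x in (0 : ℝ)..1, (f x + t * g x) ^ 2) =
        (∫ x in (0 : ℝ)..1, g x ^ 2) * (t * t) +
      (2 * ∫ x in (0 : ℝ)..1, f x * g x) * t + ∫ x in (0 : ℝ)..1, f x ^ 2 := by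
      have e : (fun x => (f x + t * g x) ^ 2) =
          fun x => (t * t) * g x ^ 2 + (2 * t) * (f x * g x) + f x ^ 2 := by
        ext x; ring
      rw [e, intervalIntegral.integral_add ((i2.const_mul _).add (i3.const_mul _)) i1,
        intervalIntegral.integral_add (i2.const_mul _) (i3.const_mul _),
        intervalIntegral.integral_const_mul, intervalIntegral.integral_const_mul]
      ring
    rw [← h1]
    exact intervalIntegral.integral_nonneg zero_le_one (fun x _ => sq_nonneg _)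
  have hd := discrim_le_zero key
  rw [discrim] at hd
  have hA : 0 ≤ ∫ x in (0 : ℝ)..1, f x ^ 2 :=
    intervalIntegral.integral_nonneg zero_le_one (fun x _ => sq_nonneg _)
  rw [← Real.sqrt_mul hA]
  apply Real.le_sqrt_of_sq_le
  nlinarith

theorem Ip_cs_abs {f g : ℝ → ℝ} (hf : Continuous f) (hg : Continuous g) :
    (∫ x in (0 : ℝ)..1, |f x| * |g x|) ≤
      √(∫ x in (0 : ℝ)..1, f x ^ 2) * √(∫ x in (0 : ℝ)..1, g x ^ 2) := by
  have h := Ip_cs hf.abs hg.abs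
  simpa only [sq_abs] using h

/-- the integral of an absolute value -/
theorem Ip_abs {f : ℝ → ℝ} (hf : Continuous f) :
    (∫ x in (0 : ℝ)..1, |f x|) ≤ √(∫ x in (0 : ℝ)..1, f x ^ 2) := by
  have h := Ip_cs_abs hf (continuous_const (y := (1 : ℝ)))
  simpa using h

/-- the integral of the derivative of a periodic function -/
theorem Ip_int_deriv {f f' : ℝ → ℝ} (hf : ∀ x, HasDerivAt f (f' x) x) (hc : Continuous f')
    (hper : ∀ x, f (x + 1) = f x) : (∫ x in (0 : ℝ)..1, f' x) = 0 := by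
  rw [intervalIntegral.integral_eq_sub_of_hasDerivAt (fun x _ => hf x)
    (hc.intervalIntegrable _ _)]
  have := hper 0
  rw [zero_add] at this
  rw [this, sub_self]

theorem Ip_exists_le {f : ℝ → ℝ} (hf : Continuous f) (hper : ∀ x, f (x + 1) = f x) (x : ℝ) :
    ∃ c ∈ Icc x (x + 1), f c ≤ ∫ y in (0 : ℝ)..1, f y := by
  obtain ⟨c, hc, hmin⟩ := isCompact_Icc.exists_isMinOn (nonempty_Icc.2 (by linarith : x ≤ x + 1))
    hf.continuousOn
  refine ⟨c, hc, ?_⟩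
  have hp : Function.Periodic f 1 := hper
  have h1 := hp.intervalIntegral_add_eq 0 x
  rw [zero_add] at h1
  rw [h1]
  have h2 : (∫ _ in x..(x + 1), f c) ≤ ∫ y in x..(x + 1), f y :=
    intervalIntegral.integral_mono_on (by linarith) (continuous_const.intervalIntegrable _ _)
      (hf.intervalIntegrable _ _) (fun y hy => hmin hy)
  simpa using h2

theorem Ip_osc {f f' : ℝ → ℝ} (hf : ∀ x, HasDerivAt f (f' x) x) (hc : Continuous f')
    (hper : ∀ x, f' (x + 1) = f' x) {x c : ℝ} (hx : c ∈ Icc x (x + 1)) :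
    |f x - f c| ≤ ∫ y in (0 : ℝ)..1, |f' y| := by
  have hp : Function.Periodic (fun y => |f' y|) 1 := fun y => by simp only [hper]
  have h1 := hp.intervalIntegral_add_eq 0 x
  rw [zero_add] at h1
  rw [h1]
  have h2 : (∫ y in x..c, f' y) = f c - f x :=
    intervalIntegral.integral_eq_sub_of_hasDerivAt (fun y _ => hf y) (hc.intervalIntegrable _ _)
  have h3 : |∫ y in x..c, f' y| ≤ ∫ y in x..c, |f' y| :=
    intervalIntegral.abs_integral_le_integral_abs hx.1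
  have h4 : (∫ y in x..c, |f' y|) ≤ ∫ y in x..(x + 1), |f' y| := by
    have h5 := intervalIntegral.integral_add_adjacent_intervals
      (hc.abs.intervalIntegrable (μ := MeasureTheory.volume) x c)
      (hc.abs.intervalIntegrable (μ := MeasureTheory.volume) c (x + 1))
    have h6 : 0 ≤ ∫ y in c..(x + 1), |f' y| :=
      intervalIntegral.integral_nonneg hx.2 (fun y _ => abs_nonneg _)
    linarith
  rw [abs_sub_comm, ← h2]
  exact h3.trans h4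

variable {w w1 w2 w3 w4 : ℝ → ℝ}

theorem Jet.c0 (h : Jet w w1 w2 w3 w4) : Continuous w :=
  continuous_iff_continuousAt.2 fun x => (h.d0 x).continuousAt

theorem Jet.c1 (h : Jet w w1 w2 w3 w4) : Continuous w1 :=
  continuous_iff_continuousAt.2 fun x => (h.d1 x).continuousAt

theorem Jet.c2 (h : Jet w w1 w2 w3 w4) : Continuous w2 :=
  continuous_iff_continuousAt.2 fun x => (h.d2 x).continuousAt

theorem Jet.c3 (h : Jet w w1 w2 w3 w4) : Continuous w3 :=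
  continuous_iff_continuousAt.2 fun x => (h.d3 x).continuousAt

/-- `w(x)² ≤ ∫ w² + 2 √(∫ w²) √(∫ w1²)` -/
theorem ip_sup (h : Jet w w1 w2 w3 w4) (x : ℝ) :
    w x ^ 2 ≤ (∫ y in (0 : ℝ)..1, w y ^ 2) +
      2 * (√(∫ y in (0 : ℝ)..1, w y ^ 2) * √(∫ y in (0 : ℝ)..1, w1 y ^ 2)) := by
  have h0 := h.c0
  obtain ⟨c, hc, hle⟩ := Ip_exists_le (f := fun y => w y ^ 2) (by fun_prop)
    (fun y => by simp only [h.per]) x
  have ho := Ip_osc (f := fun y => w y ^ 2) (f' := fun y => 2 * (w y * w1 y))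
    (fun y => ((h.d0 y).fun_pow 2).congr_deriv (by push_cast; ring))
    (by have := h.c0; have := h.c1; fun_prop)
    (fun y => by simp only [h.per, h.per1]) hc
  have e : (∫ y in (0 : ℝ)..1, |2 * (w y * w1 y)|) = 2 * ∫ y in (0 : ℝ)..1, |w y| * |w1 y| := by
    rw [← intervalIntegral.integral_const_mul]
    congr 1
    ext y
    rw [abs_mul, abs_mul, abs_two]
  rw [e] at ho
  have hcs := Ip_cs_abs h.c0 h.c1
  have := (abs_le.1 ho).2
  linarith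

theorem Ip_w4 (h : Jet w w1 w2 w3 w4) : (∫ x in (0 : ℝ)..1, w x ^ 4) ≤
    ((∫ y in (0 : ℝ)..1, w y ^ 2) +
      2 * (√(∫ y in (0 : ℝ)..1, w y ^ 2) * √(∫ y in (0 : ℝ)..1, w1 y ^ 2))) *
      ∫ y in (0 : ℝ)..1, w y ^ 2 := by
  have h0 := h.c0
  rw [← intervalIntegral.integral_const_mul]
  apply intervalIntegral.integral_mono_on zero_le_one
    ((by fun_prop : Continuous fun x => w x ^ 4).intervalIntegrable _ _)
    ((by fun_prop : Continuous fun x => _ * w x ^ 2).intervalIntegrable _ _)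
  intro x _
  have := ip_sup h x
  have e : w x ^ 4 = w x ^ 2 * w x ^ 2 := by ring
  rw [e]
  exact mul_le_mul_of_nonneg_right this (sq_nonneg _)

theorem Ip_m (h : Jet w w1 w2 w3 w4) : (∫ x in (0 : ℝ)..1, (w1 x ^ 2 - w x ^ 4 / 2)) =
    (∫ x in (0 : ℝ)..1, w1 x ^ 2) - (∫ x in (0 : ℝ)..1, w x ^ 4) / 2 := by
  have h0 := h.c0
  have h1 := h.c1
  rw [intervalIntegral.integral_sub
    ((by fun_prop : Continuous fun x => w1 x ^ 2).intervalIntegrable _ _)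
    ((by fun_prop : Continuous fun x => w x ^ 4 / 2).intervalIntegrable _ _),
    intervalIntegral.integral_div]

/-- `- m = - ∫ w1² + ½ ∫ w⁴ ≤ ½ G² + ¼ G³`, `G = ∫ w²`:
`½ ∫ w⁴ ≤ ½ sup w² G ≤ ½ G² + G^(3/2) ‖w1‖ ≤ ½ G² + ‖w1‖² + ¼ G³` -/
theorem ip_len (h : Jet w w1 w2 w3 w4) :
    -(∫ x in (0 : ℝ)..1, (w1 x ^ 2 - w x ^ 4 / 2)) ≤
      (∫ x in (0 : ℝ)..1, w x ^ 2) ^ 2 / 2 + (∫ x in (0 : ℝ)..1, w x ^ 2) ^ 3 / 4 := by
  have h0 := h.c0
  have h1 := h.c1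
  have h4 := Ip_w4 h
  rw [Ip_m h]
  have hG : 0 ≤ ∫ x in (0 : ℝ)..1, w x ^ 2 :=
    intervalIntegral.integral_nonneg zero_le_one (fun x _ => sq_nonneg _)
  have hD : 0 ≤ ∫ x in (0 : ℝ)..1, w1 x ^ 2 :=
    intervalIntegral.integral_nonneg zero_le_one (fun x _ => sq_nonneg _)
  set G := ∫ x in (0 : ℝ)..1, w x ^ 2 with hGd
  set D := ∫ x in (0 : ℝ)..1, w1 x ^ 2 with hDd
  set U := ∫ x in (0 : ℝ)..1, w x ^ 4 with hUd
  obtain ⟨a, ha0, ha⟩ : ∃ a, 0 ≤ a ∧ √G = a := ⟨_, Real.sqrt_nonneg _, rfl⟩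
  obtain ⟨b, hb0, hb⟩ : ∃ b, 0 ≤ b ∧ √D = b := ⟨_, Real.sqrt_nonneg _, rfl⟩
  have ha2 : G = a ^ 2 := by rw [← ha, Real.sq_sqrt hG]
  have hb2 : D = b ^ 2 := by rw [← hb, Real.sq_sqrt hD]
  rw [ha, hb] at h4
  rw [ha2] at h4 ⊢
  rw [hb2]
  nlinarith [sq_nonneg (b - a ^ 3 / 2)]

theorem Ip_parts2 (h : Jet w w1 w2 w3 w4) :
    (∫ x in (0 : ℝ)..1, w2 x ^ 2) = ∫ x in (0 : ℝ)..1, w x * w4 x := by
  have h0 := h.c0
  have h1 := h.c1
  have h2 := h.c2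
  have h3 := h.c3
  have h4 := h.c4
  have := Ip_int_deriv (f := fun x => w x * w3 x - w1 x * w2 x)
    (f' := fun x => w x * w4 x - w2 x ^ 2)
    (fun x => (((h.d0 x).fun_mul (h.d3 x)).fun_sub ((h.d1 x).fun_mul (h.d2 x))).congr_deriv
      (by ring)) (by fun_prop)
    (fun x => by simp only [h.per, h.per1, h.per2, h.per3])
  rw [intervalIntegral.integral_sub
    ((by fun_prop : Continuous fun x => w x * w4 x).intervalIntegrable _ _)
    ((by fun_prop : Continuous fun x => w2 x ^ 2).intervalIntegrable _ _)] at this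
  linarith

theorem Ip_parts1 (h : Jet w w1 w2 w3 w4) :
    (∫ x in (0 : ℝ)..1, w1 x ^ 2) = ∫ x in (0 : ℝ)..1, (-w x) * w2 x := by
  have h0 := h.c0
  have h1 := h.c1
  have h2 := h.c2
  have := Ip_int_deriv (f := fun x => w x * w1 x)
    (f' := fun x => w1 x ^ 2 - (-w x) * w2 x)
    (fun x => ((h.d0 x).fun_mul (h.d1 x)).congr_deriv (by ring)) (by fun_prop)
    (fun x => by simp only [h.per, h.per1])
  rw [intervalIntegral.integral_sub
    ((by fun_prop : Continuous fun x => w1 x ^ 2).intervalIntegrable _ _)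
    ((by fun_prop : Continuous fun x => (-w x) * w2 x).intervalIntegrable _ _)] at this
  linarith

/-- `|w1| ≤ ‖w2‖` -/
theorem Ip_sup1 (h : Jet w w1 w2 w3 w4) (x : ℝ) : |w1 x| ≤ √(∫ y in (0 : ℝ)..1, w2 y ^ 2) := by
  obtain ⟨c, hc, h0⟩ := exists_hasDerivAt_eq_zero (by linarith : x < x + 1)
    h.c0.continuousOn (h.per x).symm (fun y _ => h.d0 y)
  have ho := Ip_osc h.d1 h.c2 h.per2 (Ioo_subset_Icc_self hc)
  rw [h0, sub_zero] at ho
  exact ho.trans (Ip_abs h.c2)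

theorem Ip_pow {p : ℝ} (hp : 0 ≤ p) {k : ℕ} (hk : k ≤ 7) : p ^ k ≤ 1 + p ^ 7 := by
  rcases le_total p 1 with h | h
  · have := pow_le_one₀ (n := k) hp h
    have := pow_nonneg hp 7
    linarith
  · have := pow_le_pow_right₀ h hk
    linarith

/-- `‖w2‖` and `‖w1‖` -/
theorem Ip_norms (h : Jet w w1 w2 w3 w4) {A p : ℝ} (hA : 1 ≤ A) (_hp : 0 ≤ p)
    (hG : ∫ x in (0 : ℝ)..1, w x ^ 2 ≤ A) (hb : √(∫ x in (0 : ℝ)..1, w4 x ^ 2) = p ^ 8) :
    √(∫ x in (0 : ℝ)..1, w x ^ 2) ≤ A ∧ √(∫ x in (0 : ℝ)..1, w1 x ^ 2) ≤ A * p ^ 2 ∧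
      √(∫ x in (0 : ℝ)..1, w2 x ^ 2) ≤ A * p ^ 4 := by
  have hG0 : 0 ≤ ∫ x in (0 : ℝ)..1, w x ^ 2 :=
    intervalIntegral.integral_nonneg zero_le_one (fun x _ => sq_nonneg _)
  have h10 : 0 ≤ ∫ x in (0 : ℝ)..1, w1 x ^ 2 :=
    intervalIntegral.integral_nonneg zero_le_one (fun x _ => sq_nonneg _)
  have h20 : 0 ≤ ∫ x in (0 : ℝ)..1, w2 x ^ 2 :=
    intervalIntegral.integral_nonneg zero_le_one (fun x _ => sq_nonneg _)
  have ha : √(∫ x in (0 : ℝ)..1, w x ^ 2) ≤ A := by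
    apply Real.sqrt_le_iff.2
    exact ⟨by linarith, by nlinarith⟩
  have h2 : √(∫ x in (0 : ℝ)..1, w2 x ^ 2) ≤ A * p ^ 4 := by
    apply Real.sqrt_le_iff.2
    refine ⟨by positivity, ?_⟩
    rw [Ip_parts2 h]
    have := Ip_cs h.c0 h.c4
    rw [hb] at this
    have h8 : 0 ≤ p ^ 8 := by positivity
    have h1 : √(∫ x in (0 : ℝ)..1, w x ^ 2) * p ^ 8 ≤ A * p ^ 8 :=
      mul_le_mul_of_nonneg_right ha h8
    have h2 : A * p ^ 8 ≤ A * (A * p ^ 8) := by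
      have : 0 ≤ A * p ^ 8 := by positivity
      nlinarith
    calc _ ≤ _ := this
      _ ≤ _ := h1
      _ ≤ _ := h2
      _ = _ := by ring
  refine ⟨ha, ?_, h2⟩
  apply Real.sqrt_le_iff.2
  refine ⟨by positivity, ?_⟩
  rw [Ip_parts1 h]
  have := Ip_cs (f := fun x => -w x) h.c0.neg h.c2
  simp only [neg_sq] at this
  calc _ ≤ _ := this
    _ ≤ A * (A * p ^ 4) := mul_le_mul ha h2 (Real.sqrt_nonneg _) (by linarith)
    _ = _ := by ring

theorem Ip_arith {A p : ℝ} (hA : 1 ≤ A) (hp : 0 ≤ p) :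
    (6 * (2 * A * (1 + p)) * (A * p ^ 4) + 8 * A ^ 3 * (1 + p ^ 4)) * (A * p ^ 2) +
      5 / 2 * (3 * A ^ 2 * (1 + p ^ 2)) * (A * p ^ 4) +
      ((3 * A ^ 2 * (1 + p ^ 2)) ^ 2 / 2 + 4 * A ^ 3 * (1 + p ^ 4)) * A ≤
      81 * A ^ 5 * (1 + p ^ 7) := by
  have a3 : A ^ 3 ≤ A ^ 5 := pow_le_pow_right₀ hA (by norm_num)
  have a4 : A ^ 4 ≤ A ^ 5 := pow_le_pow_right₀ hA (by norm_num)
  have q0 : (1 : ℝ) ≤ 1 + p ^ 7 := by
    have := pow_nonneg hp 7
    linarith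
  have q2 := Ip_pow hp (k := 2) (by norm_num)
  have q4 := Ip_pow hp (k := 4) (by norm_num)
  have q6 := Ip_pow hp (k := 6) (by norm_num)
  have q7 := Ip_pow hp (k := 7) (by norm_num)
  have e : (6 * (2 * A * (1 + p)) * (A * p ^ 4) + 8 * A ^ 3 * (1 + p ^ 4)) * (A * p ^ 2) +
      5 / 2 * (3 * A ^ 2 * (1 + p ^ 2)) * (A * p ^ 4) +
      ((3 * A ^ 2 * (1 + p ^ 2)) ^ 2 / 2 + 4 * A ^ 3 * (1 + p ^ 4)) * A =
      A ^ 3 * (12 * p ^ 6 + 12 * p ^ 7 + 15 / 2 * p ^ 4 + 15 / 2 * p ^ 6) +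
      A ^ 4 * (8 * p ^ 2 + 8 * p ^ 6 + 4 + 4 * p ^ 4) +
      A ^ 5 * (9 / 2 + 9 * p ^ 2 + 9 / 2 * p ^ 4) := by ring
  rw [e]
  have A3 : 0 ≤ A ^ 3 := by positivity
  have A4 : 0 ≤ A ^ 4 := by positivity
  have A5 : 0 ≤ A ^ 5 := by positivity
  have hq : 0 ≤ 1 + p ^ 7 := by linarith
  calc _ ≤ A ^ 3 * (39 * (1 + p ^ 7)) + A ^ 4 * (24 * (1 + p ^ 7)) +
        A ^ 5 * (18 * (1 + p ^ 7)) := by
        refine add_le_add (add_le_add ?_ ?_) ?_
        · exact mul_le_mul_of_nonneg_left (by linarith) A3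
        · exact mul_le_mul_of_nonneg_left (by linarith) A4
        · exact mul_le_mul_of_nonneg_left (by linarith) A5
    _ ≤ A ^ 5 * (39 * (1 + p ^ 7)) + A ^ 5 * (24 * (1 + p ^ 7)) +
        A ^ 5 * (18 * (1 + p ^ 7)) := by
        refine add_le_add (add_le_add ?_ ?_) le_rfl
        · exact mul_le_mul_of_nonneg_right a3 (by positivity)
        · exact mul_le_mul_of_nonneg_right a4 (by positivity)
    _ = _ := by ring

theorem Ip_final {k p : ℝ} (hk : 1 ≤ k) (hp : 0 ≤ p) :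
    2 * (-(p ^ 8) ^ 2 + p ^ 8 * (k * (1 + p ^ 7))) ≤ 4 * k * (2 * k) ^ 15 := by
  rcases le_total p (2 * k) with h | h
  · have h1 : p ^ 15 ≤ (2 * k) ^ 15 := pow_le_pow_left₀ hp h 15
    have h2 : p ^ 8 ≤ (2 * k) ^ 8 := pow_le_pow_left₀ hp h 8
    have h3 : (2 * k) ^ 8 ≤ (2 * k) ^ 15 := pow_le_pow_right₀ (by linarith) (by norm_num)
    have h4 : 0 ≤ p ^ 16 := by positivity
    have h5 : k * p ^ 15 ≤ k * (2 * k) ^ 15 := mul_le_mul_of_nonneg_left h1 (by linarith)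
    have h6 : k * p ^ 8 ≤ k * (2 * k) ^ 15 := mul_le_mul_of_nonneg_left (h2.trans h3) (by linarith)
    have e : 2 * (-(p ^ 8) ^ 2 + p ^ 8 * (k * (1 + p ^ 7))) =
        2 * (-p ^ 16 + k * p ^ 8 + k * p ^ 15) := by ring
    rw [e]
    linarith
  · have h1 : 1 ≤ p := by linarith
    have h2 : p ^ 8 ≤ p ^ 15 := pow_le_pow_right₀ h1 (by norm_num)
    have h3 : (2 * k) * p ^ 15 ≤ p * p ^ 15 := mul_le_mul_of_nonneg_right h (by positivity)
    have h4 : k * p ^ 8 ≤ k * p ^ 15 := mul_le_mul_of_nonneg_left h2 (by linarith)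
    have e : 2 * (-(p ^ 8) ^ 2 + p ^ 8 * (k * (1 + p ^ 7))) =
        2 * (-(p * p ^ 15) + k * p ^ 8 + k * p ^ 15) := by ring
    rw [e]
    have h5 : 0 ≤ 4 * k * (2 * k) ^ 15 := by positivity
    linarith

/-- a bound for a periodic function with mean zero -/
theorem Ip_mean {f f' : ℝ → ℝ} (hf : ∀ x, HasDerivAt f (f' x) x) (hc : Continuous f')
    (hper : ∀ x, f (x + 1) = f x) (hper' : ∀ x, f' (x + 1) = f' x)
    (h0 : ∫ x in (0 : ℝ)..1, f x = 0) (x : ℝ) : |f x| ≤ ∫ y in (0 : ℝ)..1, |f' y| := by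
  have hfc : Continuous f := continuous_iff_continuousAt.2 fun x => (hf x).continuousAt
  obtain ⟨c, hc1, hc2⟩ := Ip_exists_le hfc hper x
  obtain ⟨d, hd1, hd2⟩ := Ip_exists_le (f := fun y => -f y) hfc.neg (fun y => by rw [hper]) x
  rw [intervalIntegral.integral_neg, h0, neg_zero] at hd2
  rw [h0] at hc2
  have h1 := (abs_le.1 (Ip_osc hf hc hper' hc1)).2
  have h2 := (abs_le.1 (Ip_osc hf hc hper' hd1)).1
  rw [abs_le]
  exact ⟨by linarith, by linarith⟩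

/-- the `H²` estimate -/
theorem ip_h2 (M : ℝ) : ∃ K : ℝ, 0 ≤ K ∧ ∀ w w1 w2 w3 w4 q : ℝ → ℝ, Jet w w1 w2 w3 w4 →
    (∀ x, HasDerivAt q (w1 x ^ 2 - w x ^ 4 / 2 -
      ∫ y in (0 : ℝ)..1, (w1 y ^ 2 - w y ^ 4 / 2)) x) →
    (∀ x, q (x + 1) = q x) → ∫ x in (0 : ℝ)..1, q x = 0 →
    ∫ x in (0 : ℝ)..1, w x ^ 2 ≤ M →
    2 * ∫ x in (0 : ℝ)..1, w4 x * (-w4 x - 5 * w x * w1 x ^ 2 - 5 / 2 * w x ^ 2 * w2 x +
      w1 x * q x + w x * (w1 x ^ 2 - w x ^ 4 / 2 -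
        ∫ y in (0 : ℝ)..1, (w1 y ^ 2 - w y ^ 4 / 2))) ≤ K := by
  obtain ⟨A, hA, hMA⟩ : ∃ A : ℝ, 1 ≤ A ∧ M ≤ A := ⟨max M 1, le_max_right _ _, le_max_left _ _⟩
  refine ⟨4 * (81 * A ^ 5) * (2 * (81 * A ^ 5)) ^ 15, by positivity, ?_⟩
  intro w w1 w2 w3 w4 q h hq hqper hq0 hGM
  have hG : ∫ x in (0 : ℝ)..1, w x ^ 2 ≤ A := hGM.trans hMA
  obtain ⟨p, hp, hb⟩ : ∃ p : ℝ, 0 ≤ p ∧ √(∫ x in (0 : ℝ)..1, w4 x ^ 2) = p ^ 8 := by
    refine ⟨√√√√(∫ x in (0 : ℝ)..1, w4 x ^ 2), Real.sqrt_nonneg _, ?_⟩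
    have e : ∀ y : ℝ, 0 ≤ y → √√√y ^ 8 = y := by
      intro y hy
      have : √√√y ^ 8 = ((√√√y ^ 2) ^ 2) ^ 2 := by ring
      rw [this, Real.sq_sqrt (Real.sqrt_nonneg _), Real.sq_sqrt (Real.sqrt_nonneg _),
        Real.sq_sqrt hy]
    rw [e _ (Real.sqrt_nonneg _)]
  obtain ⟨na, n1, n2⟩ := Ip_norms h hA hp hG hb
  have c0 := h.c0
  have c1 := h.c1
  have c2 := h.c2
  have c4 := h.c4
  have cq : Continuous q := continuous_iff_continuousAt.2 fun x => (hq x).continuousAt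
  have hp2 : 0 ≤ p ^ 2 := by positivity
  have hp4 : 0 ≤ p ^ 4 := by positivity
  have hG0 : 0 ≤ ∫ x in (0 : ℝ)..1, w x ^ 2 :=
    intervalIntegral.integral_nonneg zero_le_one (fun x _ => sq_nonneg _)
  have h10 : 0 ≤ ∫ x in (0 : ℝ)..1, w1 x ^ 2 :=
    intervalIntegral.integral_nonneg zero_le_one (fun x _ => sq_nonneg _)
  have hU0 : 0 ≤ ∫ x in (0 : ℝ)..1, w x ^ 4 :=
    intervalIntegral.integral_nonneg zero_le_one (fun x _ => by positivity)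
  have hprod : √(∫ y in (0 : ℝ)..1, w y ^ 2) * √(∫ y in (0 : ℝ)..1, w1 y ^ 2) ≤
      A * (A * p ^ 2) := mul_le_mul na n1 (Real.sqrt_nonneg _) (by linarith)
  have hAA : A ≤ A ^ 2 := by nlinarith
  have hB : (∫ y in (0 : ℝ)..1, w y ^ 2) +
      2 * (√(∫ y in (0 : ℝ)..1, w y ^ 2) * √(∫ y in (0 : ℝ)..1, w1 y ^ 2)) ≤
      3 * A ^ 2 * (1 + p ^ 2) := by
    nlinarith [mul_nonneg (sq_nonneg A) hp2, sq_nonneg A]
  have sw2 : ∀ x, w x ^ 2 ≤ 3 * A ^ 2 * (1 + p ^ 2) := fun x => (ip_sup h x).trans hB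
  have sw : ∀ x, |w x| ≤ 2 * A * (1 + p) := by
    intro x
    apply abs_le_of_sq_le_sq _ (by positivity)
    refine (sw2 x).trans ?_
    nlinarith [mul_nonneg (sq_nonneg A) hp2, sq_nonneg A, mul_nonneg (sq_nonneg A) hp]
  have sw1 : ∀ x, |w1 x| ≤ A * p ^ 4 := fun x => (Ip_sup1 h x).trans n2
  have hU : (∫ x in (0 : ℝ)..1, w x ^ 4) ≤ 3 * A ^ 3 * (1 + p ^ 2) := by
    refine (Ip_w4 h).trans ?_
    calc _ ≤ (3 * A ^ 2 * (1 + p ^ 2)) * A := mul_le_mul hB hG hG0 (by positivity)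
      _ = _ := by ring
  have hD : (∫ x in (0 : ℝ)..1, w1 x ^ 2) ≤ A ^ 2 * p ^ 4 := by
    have := Real.sq_sqrt h10
    rw [← this]
    calc _ ≤ (A * p ^ 2) ^ 2 := pow_le_pow_left₀ (Real.sqrt_nonneg _) n1 2
      _ = _ := by ring
  have hA3 : A ^ 2 ≤ A ^ 3 := pow_le_pow_right₀ hA (by norm_num)
  have hsum : (∫ x in (0 : ℝ)..1, w1 x ^ 2) + (∫ x in (0 : ℝ)..1, w x ^ 4) / 2 ≤
      4 * A ^ 3 * (1 + p ^ 4) := by
    have e1 : p ^ 2 ≤ (1 + p ^ 4) / 2 := by nlinarith [sq_nonneg (p ^ 2 - 1)]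
    have e2 : A ^ 3 * p ^ 2 ≤ A ^ 3 * ((1 + p ^ 4) / 2) :=
      mul_le_mul_of_nonneg_left e1 (by positivity)
    have e3 : A ^ 2 * p ^ 4 ≤ A ^ 3 * p ^ 4 := mul_le_mul_of_nonneg_right hA3 hp4
    have e4 : 0 ≤ A ^ 3 := by positivity
    have e5 : 0 ≤ A ^ 3 * p ^ 4 := by positivity
    nlinarith
  set m := ∫ y in (0 : ℝ)..1, (w1 y ^ 2 - w y ^ 4 / 2) with hm
  have hme : m = (∫ x in (0 : ℝ)..1, w1 x ^ 2) - (∫ x in (0 : ℝ)..1, w x ^ 4) / 2 := Ip_m h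
  have hmabs : |m| ≤ 4 * A ^ 3 * (1 + p ^ 4) := by
    rw [hme, abs_le]
    exact ⟨by linarith, by linarith⟩
  have hqb : ∀ x, |q x| ≤ 8 * A ^ 3 * (1 + p ^ 4) := by
    intro x
    refine (Ip_mean hq (by fun_prop) hqper (fun y => by rw [h.per, h.per1]) hq0 x).trans ?_
    have h1 : (∫ y in (0 : ℝ)..1, |w1 y ^ 2 - w y ^ 4 / 2 - m|) ≤
        ∫ y in (0 : ℝ)..1, (w1 y ^ 2 + w y ^ 4 / 2 + |m|) := by
      apply intervalIntegral.integral_mono_on zero_le_one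
        ((by fun_prop : Continuous fun y => |w1 y ^ 2 - w y ^ 4 / 2 - m|).intervalIntegrable _ _)
        ((by fun_prop : Continuous fun y => w1 y ^ 2 + w y ^ 4 / 2 + |m|).intervalIntegrable _ _)
      intro y _
      have e1 := le_abs_self m
      have e2 := neg_abs_le m
      have e3 : 0 ≤ w1 y ^ 2 := sq_nonneg _
      have e4 : 0 ≤ w y ^ 4 := by positivity
      rw [abs_le]
      exact ⟨by linarith, by linarith⟩
    rw [intervalIntegral.integral_add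
      ((by fun_prop : Continuous fun y => w1 y ^ 2 + w y ^ 4 / 2).intervalIntegrable _ _)
      (continuous_const.intervalIntegrable _ _), intervalIntegral.integral_add
      ((by fun_prop : Continuous fun y => w1 y ^ 2).intervalIntegrable _ _)
      ((by fun_prop : Continuous fun y => w y ^ 4 / 2).intervalIntegrable _ _),
      intervalIntegral.integral_div, intervalIntegral.integral_const] at h1
    simp only [sub_zero, one_smul] at h1
    linarith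
  -- the main estimate
  have hpt : ∀ x, w4 x * (-w4 x - 5 * w x * w1 x ^ 2 - 5 / 2 * w x ^ 2 * w2 x +
      w1 x * q x + w x * (w1 x ^ 2 - w x ^ 4 / 2 - m)) ≤ -(w4 x ^ 2) +
      ((6 * (2 * A * (1 + p)) * (A * p ^ 4) + 8 * A ^ 3 * (1 + p ^ 4)) * (|w1 x| * |w4 x|) +
      5 / 2 * (3 * A ^ 2 * (1 + p ^ 2)) * (|w2 x| * |w4 x|) +
      ((3 * A ^ 2 * (1 + p ^ 2)) ^ 2 / 2 + 4 * A ^ 3 * (1 + p ^ 4)) * (|w x| * |w4 x|)) := by
    intro x
    have e : w4 x * (-w4 x - 5 * w x * w1 x ^ 2 - 5 / 2 * w x ^ 2 * w2 x +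
      w1 x * q x + w x * (w1 x ^ 2 - w x ^ 4 / 2 - m)) = -(w4 x ^ 2) +
      ((-4 * (w x * w1 x) + q x) * (w1 x * w4 x) + -(5 / 2 * w x ^ 2) * (w2 x * w4 x) +
        -(w x ^ 4 / 2 + m) * (w x * w4 x)) := by ring
    rw [e]
    have key : ∀ u v c : ℝ, |u| ≤ c → u * v ≤ c * |v| := by
      intro u v c huc
      calc u * v ≤ |u * v| := le_abs_self _
        _ = |u| * |v| := abs_mul _ _
        _ ≤ c * |v| := mul_le_mul_of_nonneg_right huc (abs_nonneg _)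
    have b1 : |-4 * (w x * w1 x) + q x| ≤
        6 * (2 * A * (1 + p)) * (A * p ^ 4) + 8 * A ^ 3 * (1 + p ^ 4) := by
      refine (abs_add_le _ _).trans (add_le_add ?_ (hqb x))
      rw [abs_mul, abs_mul]
      have h1 : |w x| * |w1 x| ≤ (2 * A * (1 + p)) * (A * p ^ 4) :=
        mul_le_mul (sw x) (sw1 x) (abs_nonneg _) (by positivity)
      have h2 : |(-4 : ℝ)| = 4 := by norm_num
      have h3 : 0 ≤ (2 * A * (1 + p)) * (A * p ^ 4) := by positivity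
      rw [h2]
      linarith
    have b2 : |-(5 / 2 * w x ^ 2)| ≤ 5 / 2 * (3 * A ^ 2 * (1 + p ^ 2)) := by
      rw [abs_neg, abs_of_nonneg (by positivity)]
      have := sw2 x
      linarith
    have b3 : |-(w x ^ 4 / 2 + m)| ≤
        (3 * A ^ 2 * (1 + p ^ 2)) ^ 2 / 2 + 4 * A ^ 3 * (1 + p ^ 4) := by
      rw [abs_neg]
      refine (abs_add_le _ _).trans (add_le_add ?_ hmabs)
      rw [abs_of_nonneg (by positivity)]
      have : w x ^ 4 ≤ (3 * A ^ 2 * (1 + p ^ 2)) ^ 2 := by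
        calc w x ^ 4 = (w x ^ 2) ^ 2 := by ring
          _ ≤ _ := pow_le_pow_left₀ (sq_nonneg _) (sw2 x) 2
      linarith
    have k1 := key _ (w1 x * w4 x) _ b1
    have k2 := key _ (w2 x * w4 x) _ b2
    have k3 := key _ (w x * w4 x) _ b3
    rw [abs_mul] at k1 k2 k3
    linarith
  have hint : (∫ x in (0 : ℝ)..1, w4 x * (-w4 x - 5 * w x * w1 x ^ 2 - 5 / 2 * w x ^ 2 * w2 x +
      w1 x * q x + w x * (w1 x ^ 2 - w x ^ 4 / 2 - m))) ≤ -(p ^ 8) ^ 2 +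
      p ^ 8 * (81 * A ^ 5 * (1 + p ^ 7)) := by
    refine (intervalIntegral.integral_mono_on zero_le_one (Continuous.intervalIntegrable
      (by fun_prop) _ _) (Continuous.intervalIntegrable (by fun_prop) _ _)
      (fun x _ => hpt x)).trans ?_
    rw [intervalIntegral.integral_add (Continuous.intervalIntegrable (by fun_prop) _ _)
      (Continuous.intervalIntegrable (by fun_prop) _ _), intervalIntegral.integral_neg,
      intervalIntegral.integral_add (Continuous.intervalIntegrable (by fun_prop) _ _)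
      (Continuous.intervalIntegrable (by fun_prop) _ _),
      intervalIntegral.integral_add (Continuous.intervalIntegrable (by fun_prop) _ _)
      (Continuous.intervalIntegrable (by fun_prop) _ _),
      intervalIntegral.integral_const_mul, intervalIntegral.integral_const_mul,
      intervalIntegral.integral_const_mul]
    have hb2 : (∫ x in (0 : ℝ)..1, w4 x ^ 2) = (p ^ 8) ^ 2 := by
      rw [← hb, Real.sq_sqrt]
      exact intervalIntegral.integral_nonneg zero_le_one (fun x _ => sq_nonneg _)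
    rw [hb2]
    have i1 := Ip_cs_abs c1 c4
    have i2 := Ip_cs_abs c2 c4
    have i3 := Ip_cs_abs c0 c4
    rw [hb] at i1 i2 i3
    have hp8 : 0 ≤ p ^ 8 := by positivity
    have j1 := i1.trans (mul_le_mul_of_nonneg_right n1 hp8)
    have j2 := i2.trans (mul_le_mul_of_nonneg_right n2 hp8)
    have j3 := i3.trans (mul_le_mul_of_nonneg_right na hp8)
    have ar := mul_le_mul_of_nonneg_left (Ip_arith hA hp) hp8
    have m1 := mul_le_mul_of_nonneg_left j1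
      (by positivity : 0 ≤ 6 * (2 * A * (1 + p)) * (A * p ^ 4) + 8 * A ^ 3 * (1 + p ^ 4))
    have m2 := mul_le_mul_of_nonneg_left j2
      (by positivity : 0 ≤ 5 / 2 * (3 * A ^ 2 * (1 + p ^ 2)))
    have m3 := mul_le_mul_of_nonneg_left j3
      (by positivity : 0 ≤ (3 * A ^ 2 * (1 + p ^ 2)) ^ 2 / 2 + 4 * A ^ 3 * (1 + p ^ 4))
    have e : p ^ 8 * ((6 * (2 * A * (1 + p)) * (A * p ^ 4) + 8 * A ^ 3 * (1 + p ^ 4)) *
        (A * p ^ 2) + 5 / 2 * (3 * A ^ 2 * (1 + p ^ 2)) * (A * p ^ 4) +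
        ((3 * A ^ 2 * (1 + p ^ 2)) ^ 2 / 2 + 4 * A ^ 3 * (1 + p ^ 4)) * A) =
        (6 * (2 * A * (1 + p)) * (A * p ^ 4) + 8 * A ^ 3 * (1 + p ^ 4)) *
          (A * p ^ 2 * p ^ 8) + 5 / 2 * (3 * A ^ 2 * (1 + p ^ 2)) * (A * p ^ 4 * p ^ 8) +
        ((3 * A ^ 2 * (1 + p ^ 2)) ^ 2 / 2 + 4 * A ^ 3 * (1 + p ^ 4)) * (A * p ^ 8) := by ring
    rw [e] at ar
    linarith
  have h81 : (1 : ℝ) ≤ 81 * A ^ 5 := by
    have := one_le_pow₀ (n := 5) hA
    linarith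
  have := Ip_final h81 hp
  linarith

end

/-- a closed curve has `∫ W² ≥ 1`: otherwise `|∫₀ˣ W| ≤ √∫ W² < 1`, and the real part of
`exp (i ∫₀ˣ W)` is `≥ cos 1 > 0` -/
theorem one_le_of_clo {w : ℝ → ℝ} (hw : Continuous w) (h : clo w = 0) :
    1 ≤ ∫ x in (0 : ℝ)..1, w x ^ 2 := by
  by_contra hcon
  push Not at hcon
  have hG0 : 0 ≤ ∫ x in (0 : ℝ)..1, w x ^ 2 :=
    intervalIntegral.integral_nonneg zero_le_one (fun x _ => sq_nonneg _)
  have hs : √(∫ x in (0 : ℝ)..1, w x ^ 2) ≤ 1 := Real.sqrt_le_one.2 hcon.le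
  have hF : Continuous fun x : ℝ => ∫ y in (0 : ℝ)..x, w y :=
    intervalIntegral.continuous_primitive (fun a b => hw.intervalIntegrable a b) 0
  have hb : ∀ x ∈ Icc (0 : ℝ) 1, |∫ y in (0 : ℝ)..x, w y| ≤ 1 := by
    intro x hx
    have h1 : |∫ y in (0 : ℝ)..x, w y| ≤ ∫ y in (0 : ℝ)..x, |w y| :=
      intervalIntegral.abs_integral_le_integral_abs hx.1
    have h5 := intervalIntegral.integral_add_adjacent_intervals
      (hw.abs.intervalIntegrable (μ := MeasureTheory.volume) 0 x)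
      (hw.abs.intervalIntegrable (μ := MeasureTheory.volume) x 1)
    have h6 : 0 ≤ ∫ y in x..1, |w y| :=
      intervalIntegral.integral_nonneg hx.2 (fun y _ => abs_nonneg _)
    have h7 := Ip_abs hw
    linarith
  have hre : (clo w).re = ∫ x in (0 : ℝ)..1, Real.cos (∫ y in (0 : ℝ)..x, w y) := by
    have hi : IntervalIntegrable (fun x : ℝ =>
        Complex.exp (((∫ y in (0 : ℝ)..x, w y : ℝ) : ℂ) * Complex.I))
        MeasureTheory.volume 0 1 := by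
      apply Continuous.intervalIntegrable
      fun_prop
    have := Complex.reCLM.intervalIntegral_comp_comm hi
    rw [clo]
    refine this.symm.trans ?_
    congr 1
    ext x
    exact Complex.exp_ofReal_mul_I_re _
  have hpos : Real.cos 1 ≤ (clo w).re := by
    rw [hre]
    have h1 : (∫ _ in (0 : ℝ)..1, Real.cos 1) ≤
        ∫ x in (0 : ℝ)..1, Real.cos (∫ y in (0 : ℝ)..x, w y) := by
      apply intervalIntegral.integral_mono_on zero_le_one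
        (continuous_const.intervalIntegrable _ _)
        ((Real.continuous_cos.comp hF).intervalIntegrable _ _)
      intro x hx
      have := hb x hx
      change Real.cos 1 ≤ Real.cos (∫ y in (0 : ℝ)..x, w y)
      rw [← Real.cos_abs (∫ y in (0 : ℝ)..x, w y)]
      apply Real.cos_le_cos_of_nonneg_of_le_pi (abs_nonneg _) (by linarith [Real.pi_gt_three]) this
    simpa using h1
  rw [h, Complex.zero_re] at hpos
  have := Real.cos_one_pos
  linarith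

end Pool.Agent.helper22.FE
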