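import Pool.Agent.helper22.FE.En
import Pool.Agent.helper22.FE.Ip

/-!
# FE: the `H²` bound along a solution
-/

set_option autoImplicit false

open scoped Real ContDiff
open Set
open Pool.Agent.helper19.EL (Sm pu pt)

namespace Pool.Agent.helper22.FE

theorem FSol.jet {S : ℝ} {W P : ℝ → ℝ → ℝ} (h : FSol S W P) {t : ℝ} (ht : t ∈ Ico 0 S) :
    Jet (fun x => W x t) (fun x => pu W x t) (fun x => pu (pu W) x t)
      (fun x => pu (pu (pu W)) x t) (fun x => pu (pu (pu (pu W))) x t) := by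
  exact
    { d0 := fun x => h.smW.hasDerivAt_u ht x
      d1 := fun x => h.smW.pu.hasDerivAt_u ht x
      d2 := fun x => h.smW.pu.pu.hasDerivAt_u ht x
      d3 := fun x => h.smW.pu.pu.pu.hasDerivAt_u ht x
      c4 := h.smW.pu.pu.pu.pu.cont_u ht
      per := fun x => h.perW t ht x
      per1 := fun x => per_pu (h.perW t ht) x
      per2 := fun x => per_pu (per_pu (h.perW t ht)) x
      per3 := fun x => per_pu (per_pu (per_pu (h.perW t ht))) x
      per4 := fun x => per_pu (per_pu (per_pu (per_pu (h.perW t ht)))) x }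

/-- `∂_x flux = - W_xxxx - 5 W W_x² - (5/2) W² W_xx + W_x P + W (W_x² - W⁴/2 - m)` -/
theorem FSol.pu_flux {S : ℝ} {W P : ℝ → ℝ → ℝ} (h : FSol S W P) {t : ℝ} (ht : t ∈ Ico 0 S)
    (x : ℝ) : pu (flux W P) x t = -(pu (pu (pu (pu W))) x t) - 5 * W x t * pu W x t ^ 2 -
      5 / 2 * W x t ^ 2 * pu (pu W) x t + pu W x t * P x t +
      W x t * (pu W x t ^ 2 - W x t ^ 4 / 2 - mm W t) := by
  have d0 := h.smW.hasDerivAt_u ht x
  have d1 := h.smW.pu.hasDerivAt_u ht x
  have d3 := h.smW.pu.pu.pu.hasDerivAt_u ht x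
  have dP := h.smP.hasDerivAt_u ht x
  rw [h.P_x t ht x] at dP
  have e := (d3.neg.sub (((d0.pow 2).const_mul (5 / 2)).mul d1)).add (d0.mul dP)
  have e2 : HasDerivAt (fun x' => flux W P x' t) (-(pu (pu (pu (pu W))) x t) -
      5 * W x t * pu W x t ^ 2 -
      5 / 2 * W x t ^ 2 * pu (pu W) x t + pu W x t * P x t +
      W x t * (pu W x t ^ 2 - W x t ^ 4 / 2 - mm W t)) x := by
    refine (e.congr_deriv ?_).congr_of_eventuallyEq (Filter.Eventually.of_forall fun x' => ?_)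
    · simp only [Pi.pow_apply]
      ring
    · simp only [flux, Pi.add_apply, Pi.sub_apply, Pi.mul_apply, Pi.neg_apply, Pi.pow_apply]
  exact e2.deriv

/-- `H' ≤ K(M)` as long as `G ≤ M` (mean value inequality,
`image_le_of_deriv_right_le_deriv_boundary` or `Convex.image_sub_le_mul_sub_of_deriv_le`) -/
theorem h2_bound (M : ℝ) : ∃ K : ℝ, 0 ≤ K ∧ ∀ (S : ℝ) (W P : ℝ → ℝ → ℝ), FSol S W P →
    ∀ s ∈ Ico 0 S, (∀ t ∈ Icc 0 s, GG W t ≤ M) → HH W s ≤ HH W 0 + K * s := by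
  obtain ⟨K, hK, hip⟩ := ip_h2 M
  refine ⟨K, hK, ?_⟩
  intro S W P h s hs hG
  have hsub : Icc 0 s ⊆ Ico 0 S := fun t ht => ⟨ht.1, ht.2.trans_lt hs.2⟩
  have hD : ∀ t ∈ Ioo 0 s, HasDerivAt (HH W)
      (2 * ∫ x in (0 : ℝ)..1, pu (pu (pu (pu W))) x t * pu (flux W P) x t) t := fun t ht =>
    h.H' ⟨ht.1, ht.2.trans hs.2⟩
  have hle : ∀ t ∈ Ioo 0 s,
      2 * ∫ x in (0 : ℝ)..1, pu (pu (pu (pu W))) x t * pu (flux W P) x t ≤ K := by
    intro t ht
    have ht' : t ∈ Ico 0 S := hsub ⟨ht.1.le, ht.2.le⟩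
    have h1 := hip _ _ _ _ _ (fun x => P x t) (h.jet ht')
      (fun x => by
        have e := h.smP.hasDerivAt_u ht' x
        rw [h.P_x t ht' x] at e
        exact e)
      (fun x => h.perP t ht' x) (h.meanP t ht') (hG t ⟨ht.1.le, ht.2.le⟩)
    refine (le_of_eq ?_).trans h1
    congr 1
    apply intervalIntegral.integral_congr
    intro x _
    simp only
    rw [h.pu_flux ht' x]
    rfl
  have hint : interior (Icc (0 : ℝ) s) = Ioo 0 s := interior_Icc
  have hm := Convex.image_sub_le_mul_sub_of_deriv_le (convex_Icc 0 s) (f := HH W) (C := K)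
    (h.cH.mono hsub)
    (fun t ht => by
      rw [hint] at ht
      exact (hD t ht).differentiableAt.differentiableWithinAt)
    (fun t ht => by
      rw [hint] at ht
      rw [(hD t ht).deriv]
      exact hle t ht) 0 ⟨le_rfl, hs.1⟩ s ⟨hs.1, le_rfl⟩ hs.1
  linarith

end Pool.Agent.helper22.FE
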