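import Pool.Agent.helper22.FE.Crv
import Pool.Agent.helper22.FE.HTwo

/-!
# FE: a priori bounds

`E = G / (2 L)` is non-increasing (`FSol.G'`, `FSol.Len'`: `E' = - ∫ Q² / L`), `G ≥ 1` for closed
curves (`closed_pers`, `one_le_of_clo`), hence `L = G/(2E) ≥ 1/(2 E0)`, and
`L' = - m L ≤ L (G²/2 + G³/4) ≤ L (2 E0² L² + 2 E0³ L³) ≤ 6 E0³ L⁴ = 6 E0³ tt'`
(`ip_len`, `1 ≤ 2 E0 L`), so `L ≤ L0 + 6 E0³ tt`.
-/

set_option autoImplicit false

open scoped Real ContDiff
open Set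
open Pool.Agent.helper19.EL (Sm pu pt)

namespace Pool.Agent.helper22.FE

section
variable {S L0 : ℝ} {W P : ℝ → ℝ → ℝ}

theorem apr_G (h : FSol S W P) (h0 : Closed fun x => W x 0) {t : ℝ} (ht : t ∈ Ico 0 S) :
    1 ≤ GG W t :=
  one_le_of_clo (h.smW.cont_u ht) (closed_pers h h0 ht).2

theorem Apr_cLen (h : FSol S W P) (L0 : ℝ) : ContinuousOn (Len L0 W) (Ico 0 S) :=
  (Sm.to_t (h.sm_Len L0)).continuousOn

/-- non-increasing on `[0, S)` -/
theorem Apr_anti {f f' : ℝ → ℝ} (hc : ContinuousOn f (Ico 0 S))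
    (hd : ∀ t ∈ Ioo 0 S, HasDerivAt f (f' t) t) (hn : ∀ t ∈ Ioo 0 S, f' t ≤ 0) :
    AntitoneOn f (Ico 0 S) := by
  refine antitoneOn_of_deriv_nonpos (convex_Ico 0 S) hc ?_ ?_
  · rw [interior_Ico]
    intro t ht
    exact (hd t ht).differentiableAt.differentiableWithinAt
  · rw [interior_Ico]
    intro t ht
    rw [(hd t ht).deriv]
    exact hn t ht

theorem Apr_zero_mem {t : ℝ} (ht : t ∈ Ico 0 S) : (0 : ℝ) ∈ Ico 0 S :=
  ⟨le_refl _, lt_of_le_of_lt ht.1 ht.2⟩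

/-- `G / L` is non-increasing -/
theorem apr_E (h : FSol S W P) (hL : 0 < L0) {t : ℝ} (ht : t ∈ Ico 0 S) :
    GG W t / Len L0 W t ≤ GG W 0 / L0 := by
  have h1 : AntitoneOn (fun t => GG W t / Len L0 W t) (Ico 0 S) := by
    refine Apr_anti (f' := fun t => ((-(2 * ∫ x in (0 : ℝ)..1, QQ W x t ^ 2) - mm W t * GG W t) *
      Len L0 W t - GG W t * (-mm W t * Len L0 W t)) / Len L0 W t ^ 2) ?_ ?_ ?_
    · exact h.cG.div (Apr_cLen h L0) fun t _ => (Len_pos hL W t).ne'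
    · intro t ht
      exact (h.G' ht).div (h.Len' L0 ht) (Len_pos hL W t).ne'
    · intro t ht
      have h2 : 0 ≤ ∫ x in (0 : ℝ)..1, QQ W x t ^ 2 :=
        intervalIntegral.integral_nonneg zero_le_one fun x _ => sq_nonneg _
      have h3 := Len_pos hL W t
      apply div_nonpos_of_nonpos_of_nonneg _ (sq_nonneg _)
      nlinarith [mul_nonneg h2 h3.le]
  have h2 := h1 (Apr_zero_mem ht) ht ht.1
  simp only [Len_zero] at h2
  exact h2

/-- lower bound of the length -/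
theorem apr_low (h : FSol S W P) (h0 : Closed fun x => W x 0) (hL : 0 < L0) {t : ℝ}
    (ht : t ∈ Ico 0 S) : L0 / GG W 0 ≤ Len L0 W t := by
  have h1 := apr_E h hL ht
  have h2 := apr_G h h0 ht
  have h3 := apr_G h h0 (Apr_zero_mem ht)
  have h4 := Len_pos hL W t
  rw [div_le_div_iff₀ h4 hL] at h1
  rw [div_le_iff₀ (by linarith)]
  nlinarith [mul_le_mul_of_nonneg_right h2 hL.le]

/-- `G ≤ (G0 / L0) L` -/
theorem Apr_GL (h : FSol S W P) (hL : 0 < L0) {t : ℝ} (ht : t ∈ Ico 0 S) :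
    GG W t ≤ GG W 0 / L0 * Len L0 W t := by
  have h1 := apr_E h hL ht
  rwa [div_le_iff₀ (Len_pos hL W t)] at h1

/-- upper bound of the length; `G0 / L0 = 2 E0`, `6 E0³ = (3/4) (G0/L0)³` -/
theorem apr_up (h : FSol S W P) (h0 : Closed fun x => W x 0) (hL : 0 < L0) {t : ℝ}
    (ht : t ∈ Ico 0 S) : Len L0 W t ≤ L0 + 3 / 4 * (GG W 0 / L0) ^ 3 * tt L0 W t := by
  set c : ℝ := GG W 0 / L0 with hc
  have h1 : AntitoneOn (fun t => Len L0 W t - 3 / 4 * c ^ 3 * tt L0 W t) (Ico 0 S) := by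
    refine Apr_anti (f' := fun t => -mm W t * Len L0 W t - 3 / 4 * c ^ 3 * Len L0 W t ^ 4) ?_ ?_ ?_
    · exact (Apr_cLen h L0).sub ((h.ctt L0).const_mul _)
    · intro t ht
      exact (h.Len' L0 ht).sub ((h.tt' L0 ht).const_mul _)
    · intro t ht
      have ht' : t ∈ Ico 0 S := ⟨ht.1.le, ht.2⟩
      have h2 := Apr_GL h hL ht'
      rw [← hc] at h2
      have h3 := apr_G h h0 ht'
      have h4 := Len_pos hL W t
      have h5 : -mm W t ≤ GG W t ^ 2 / 2 + GG W t ^ 3 / 4 := ip_len (h.jet ht')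
      set y : ℝ := c * Len L0 W t with hy
      have h6 : (1 : ℝ) ≤ y := h3.trans h2
      have h7 : GG W t ^ 2 ≤ y ^ 2 := pow_le_pow_left₀ (by linarith) h2 2
      have h8 : GG W t ^ 3 ≤ y ^ 3 := pow_le_pow_left₀ (by linarith) h2 3
      have h9 : y ^ 2 ≤ y ^ 3 := pow_le_pow_right₀ h6 (by norm_num)
      have h10 : -mm W t ≤ 3 / 4 * y ^ 3 := by linarith
      have h11 : -mm W t * Len L0 W t ≤ 3 / 4 * y ^ 3 * Len L0 W t :=
        mul_le_mul_of_nonneg_right h10 h4.le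
      have h12 : 3 / 4 * y ^ 3 * Len L0 W t = 3 / 4 * c ^ 3 * Len L0 W t ^ 4 := by
        rw [hy]; ring
      linarith
  have h2 := h1 (Apr_zero_mem ht) ht ht.1
  simp only [Len_zero] at h2
  have h3 : tt L0 W 0 = 0 := by
    unfold tt
    exact intervalIntegral.integral_same
  rw [h3] at h2
  linarith

theorem Apr_tt_zero : tt L0 W 0 = 0 := by
  unfold tt
  exact intervalIntegral.integral_same

/-- `τ` is bounded by the time of the flow -/
theorem apr_tau (h : FSol S W P) (h0 : Closed fun x => W x 0) (hL : 0 < L0) {t : ℝ}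
    (ht : t ∈ Ico 0 S) : (L0 / GG W 0) ^ 4 * t ≤ tt L0 W t := by
  have h3 := apr_G h h0 (Apr_zero_mem ht)
  have h1 : AntitoneOn (fun t => (L0 / GG W 0) ^ 4 * t - tt L0 W t) (Ico 0 S) := by
    refine Apr_anti (f' := fun t => (L0 / GG W 0) ^ 4 * 1 - Len L0 W t ^ 4) ?_ ?_ ?_
    · exact (continuousOn_id.const_mul _).sub (h.ctt L0)
    · intro t ht
      exact ((hasDerivAt_id' t).const_mul _).sub (h.tt' L0 ht)
    · intro t ht
      have h4 := pow_le_pow_left₀ (div_nonneg hL.le (by linarith))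
        (apr_low h h0 hL ⟨ht.1.le, ht.2⟩) 4
      linarith
  have h2 := h1 (Apr_zero_mem ht) ht ht.1
  simp only [Apr_tt_zero] at h2
  linarith

theorem tt_mono (h : FSol S W P) (hL : 0 < L0) : MonotoneOn (tt L0 W) (Ico 0 S) := by
  have h1 : AntitoneOn (fun t => -tt L0 W t) (Ico 0 S) := by
    refine Apr_anti (f' := fun t => -(Len L0 W t ^ 4)) (h.ctt L0).neg ?_ ?_
    · intro t ht
      exact (h.tt' L0 ht).neg
    · intro t ht
      have := Len_pos hL W t
      have : 0 ≤ Len L0 W t ^ 4 := by positivity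
      linarith
  intro a ha b hb hab
  have h2 := h1 ha hb hab
  simp only at h2
  linarith

/-- all norms in one statement: as long as `tt ≤ T`, `G` and `H` are bounded by a constant
which depends only on `L0, G0, H0, T` -/
theorem apr_all (L0 G0 H0 T : ℝ) (hL : 0 < L0) : ∃ M : ℝ, ∀ (S : ℝ) (W P : ℝ → ℝ → ℝ),
    FSol S W P → (Closed fun x => W x 0) → GG W 0 = G0 → HH W 0 = H0 →
    ∀ t ∈ Ico 0 S, tt L0 W t ≤ T → GG W t ≤ M ∧ HH W t ≤ M ∧ t ≤ M := by
  set M1 : ℝ := G0 / L0 * (L0 + 3 / 4 * (G0 / L0) ^ 3 * T) with hM1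
  set M2 : ℝ := (G0 / L0) ^ 4 * T with hM2
  obtain ⟨K, hK, hK'⟩ := h2_bound M1
  refine ⟨max M1 (max (H0 + K * M2) M2), ?_⟩
  intro S W P h h0 hG hH t ht htt
  have hG1 : 1 ≤ G0 := by
    rw [← hG]
    exact apr_G h h0 (Apr_zero_mem ht)
  have hc : 0 < G0 / L0 := div_pos (by linarith) hL
  have hb : ∀ s ∈ Icc 0 t, GG W s ≤ M1 := by
    intro s hs
    have hs' : s ∈ Ico 0 S := ⟨hs.1, lt_of_le_of_lt hs.2 ht.2⟩
    have h1 := Apr_GL h hL hs'
    have h2 := apr_up h h0 hL hs'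
    have h3 := tt_mono h hL hs' ht hs.2
    rw [hG] at h1 h2
    refine h1.trans ?_
    rw [hM1]
    apply mul_le_mul_of_nonneg_left _ hc.le
    refine h2.trans ?_
    have h4 : 3 / 4 * (G0 / L0) ^ 3 * tt L0 W s ≤ 3 / 4 * (G0 / L0) ^ 3 * T :=
      mul_le_mul_of_nonneg_left (h3.trans htt) (by positivity)
    linarith
  have ht2 : t ≤ M2 := by
    have h1 := (apr_tau h h0 hL ht).trans htt
    rw [hG] at h1
    rw [hM2]
    have h2 : (G0 / L0) ^ 4 * ((L0 / G0) ^ 4 * t) = t := by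
      have : G0 ≠ 0 := by linarith
      have := hL.ne'
      field_simp
    rw [← h2]
    exact mul_le_mul_of_nonneg_left h1 (by positivity)
  have hH2 : HH W t ≤ H0 + K * M2 := by
    have h1 := hK' S W P h t ht hb
    rw [hH] at h1
    refine h1.trans ?_
    have := mul_le_mul_of_nonneg_left ht2 hK
    linarith
  refine ⟨(hb t ⟨ht.1, le_refl _⟩).trans (le_max_left _ _),
    hH2.trans ((le_max_left _ _).trans (le_max_right _ _)),
    ht2.trans ((le_max_right _ _).trans (le_max_right _ _))⟩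

end

end Pool.Agent.helper22.FE
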