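import Pool.Agent.helper22.FE.Fix

/-!
# FE: regularity of the fixed point, local existence

* `fix_rap`: if `a` is rapidly decreasing, so is the fixed point `w` (uniformly in time).
  Induction on `r`: suppose `∑ wt n ^ (r+1) ‖w n‖ < ∞` (start: `r = 0`).  Then
  `∑ wt n ^ r ‖dx w n‖ < ∞`, hence by `cv_wt` `∑ wt n ^ r ‖Fl w n‖ < ∞`, and for `n ≠ 0`
  `wt n ^ (r+3) ‖duh (lam n) (dx (Fl w) n)‖ ≤ wt n ^ (r+3) |mul n| / lam n ‖Fl w n‖ ≤
  C wt n ^ r ‖Fl w n‖` (`norm_duh_le'`; the Duhamel term vanishes for `n = 0`), so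
  `∑ wt n ^ (r+3) ‖w n‖ < ∞`; more than needed.
* `fix_real`: `w' n := star (w (-n))` is also a fixed point in the same ball (`cv_conj` for `E`
  -valued sequences, or evaluate at each time: `cv_map` with the evaluation `C([0,S]) → ℂ`), hence
  equal to `w`.
* `fix_csol`: `fre_duh_deriv`; the evaluation at `t` is a continuous ring homomorphism
  `C([0,S], ℂ) → ℂ`, so `(Fl w n)(t) = Fl (sq _ t) n` (`cv_map`); the bound is
  `b n = ‖w n‖`.
-/

set_option autoImplicit false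

open scoped Real ComplexConjugate
open Set

namespace Pool.Agent.helper22.FE

section BootAux

theorem Boot_norm_mul (n : ℤ) : ‖mul n‖ = 2 * π * |(n : ℝ)| := by
  have h : mul n = (((2 * π * n : ℝ)) : ℂ) * Complex.I := by
    unfold mul; push_cast; ring
  rw [h, norm_mul, Complex.norm_I, mul_one, Complex.norm_real, Real.norm_eq_abs, abs_mul,
    abs_of_pos (by positivity : (0 : ℝ) < 2 * π)]

theorem Boot_mul_le (n : ℤ) : ‖mul n‖ ≤ 7 * wt n := by
  rw [Boot_norm_mul]
  unfold wt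
  nlinarith [Real.pi_lt_d2, abs_nonneg (n : ℝ), Real.pi_pos]

theorem Boot_abs_one {n : ℤ} (h : n ≠ 0) : (1 : ℝ) ≤ |(n : ℝ)| := by
  have := Int.one_le_abs h
  exact_mod_cast this

theorem Boot_ix_le (n : ℤ) : ‖(mul n)⁻¹‖ ≤ 1 := by
  by_cases h : n = 0
  · subst h
    simp [mul]
  · rw [norm_inv, Boot_norm_mul]
    apply inv_le_one_of_one_le₀
    nlinarith [Real.pi_gt_three, Boot_abs_one h]

variable {E : Type} [NormedCommRing E] [NormedAlgebra ℂ E]

theorem Boot_wt_nonneg (n : ℤ) (r : ℕ) : 0 ≤ wt n ^ r := pow_nonneg (wt_pos n).le r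

theorem Boot_down {f : ℤ → E} {r : ℕ} (h : Summable fun n => wt n ^ (r + 1) * ‖f n‖) :
    Summable fun n => wt n ^ r * ‖f n‖ := by
  refine Summable.of_nonneg_of_le (fun n => mul_nonneg (Boot_wt_nonneg n r) (norm_nonneg _))
    (fun n => ?_) h
  apply mul_le_mul_of_nonneg_right _ (norm_nonneg _)
  rw [pow_succ]
  exact le_mul_of_one_le_right (Boot_wt_nonneg n r) (one_le_wt n)

theorem Boot_norm {f : ℤ → E} {r : ℕ} (h : Summable fun n => wt n ^ r * ‖f n‖) :
    Summable fun n => ‖f n‖ := by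
  refine Summable.of_nonneg_of_le (fun n => norm_nonneg _) (fun n => ?_) h
  exact le_mul_of_one_le_left (norm_nonneg _) (one_le_pow₀ (one_le_wt n))

theorem Boot_dx {f : ℤ → E} {r : ℕ} (h : Summable fun n => wt n ^ (r + 1) * ‖f n‖) :
    Summable fun n => wt n ^ r * ‖dx f n‖ := by
  refine Summable.of_nonneg_of_le (fun n => mul_nonneg (Boot_wt_nonneg n r) (norm_nonneg _))
    (fun n => ?_) (h.mul_left 7)
  unfold dx
  calc wt n ^ r * ‖mul n • f n‖ ≤ wt n ^ r * ((7 * wt n) * ‖f n‖) := by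
        apply mul_le_mul_of_nonneg_left _ (Boot_wt_nonneg n r)
        exact (norm_smul_le _ _).trans
          (mul_le_mul_of_nonneg_right (Boot_mul_le n) (norm_nonneg _))
    _ = 7 * (wt n ^ (r + 1) * ‖f n‖) := by rw [pow_succ]; ring

theorem Boot_ix {f : ℤ → E} {r : ℕ} (h : Summable fun n => wt n ^ r * ‖f n‖) :
    Summable fun n => wt n ^ r * ‖ix f n‖ := by
  refine Summable.of_nonneg_of_le (fun n => mul_nonneg (Boot_wt_nonneg n r) (norm_nonneg _))
    (fun n => ?_) h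
  unfold ix
  apply mul_le_mul_of_nonneg_left _ (Boot_wt_nonneg n r)
  calc ‖(mul n)⁻¹ • f n‖ ≤ ‖(mul n)⁻¹‖ * ‖f n‖ := norm_smul_le _ _
    _ ≤ 1 * ‖f n‖ := mul_le_mul_of_nonneg_right (Boot_ix_le n) (norm_nonneg _)
    _ = ‖f n‖ := one_mul _

theorem Boot_add {f g : ℤ → E} {r : ℕ} (hf : Summable fun n => wt n ^ r * ‖f n‖)
    (hg : Summable fun n => wt n ^ r * ‖g n‖) : Summable fun n => wt n ^ r * ‖f n + g n‖ := by
  refine Summable.of_nonneg_of_le (fun n => mul_nonneg (Boot_wt_nonneg n r) (norm_nonneg _))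
    (fun n => ?_) (hf.add hg)
  rw [← mul_add]
  exact mul_le_mul_of_nonneg_left (norm_add_le _ _) (Boot_wt_nonneg n r)

theorem Boot_smul (c : ℂ) {f : ℤ → E} {r : ℕ} (hf : Summable fun n => wt n ^ r * ‖f n‖) :
    Summable fun n => wt n ^ r * ‖c • f n‖ := by
  refine Summable.of_nonneg_of_le (fun n => mul_nonneg (Boot_wt_nonneg n r) (norm_nonneg _))
    (fun n => ?_) (hf.mul_left ‖c‖)
  calc wt n ^ r * ‖c • f n‖ ≤ wt n ^ r * (‖c‖ * ‖f n‖) :=
        mul_le_mul_of_nonneg_left (norm_smul_le _ _) (Boot_wt_nonneg n r)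
    _ = ‖c‖ * (wt n ^ r * ‖f n‖) := by ring

variable [CompleteSpace E]

theorem Boot_Qn {w : ℤ → E} {r : ℕ} (h : Summable fun n => wt n ^ (r + 1) * ‖w n‖) :
    Summable fun n => wt n ^ r * ‖Qn w n‖ := by
  have h0 := Boot_down h
  have h1 := Boot_dx h
  have h2 := cv_wt r h0 h0
  have h3 := Boot_smul (-(1 / 2 : ℂ)) (cv_wt r h2 h2)
  refine (Boot_add (cv_wt r h1 h1) h3).congr (fun n => ?_)
  unfold Qn
  rw [neg_smul, sub_eq_add_neg]

theorem Boot_Pn {w : ℤ → E} {r : ℕ} (h : Summable fun n => wt n ^ (r + 1) * ‖w n‖) :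
    Summable fun n => wt n ^ r * ‖Pn w n‖ := Boot_ix (Boot_Qn h)

theorem Boot_Fl {w : ℤ → E} {r : ℕ} (h : Summable fun n => wt n ^ (r + 1) * ‖w n‖) :
    Summable fun n => wt n ^ r * ‖Fl w n‖ := by
  have h0 := Boot_down h
  have h1 := Boot_dx h
  have h2 := cv_wt r h0 h0
  exact Boot_add (Boot_smul _ (cv_wt r h2 h1)) (cv_wt r h0 (Boot_Pn h))

end BootAux

theorem fix_rap {S : ℝ} (hS : 0 ≤ S) {a : ℤ → ℂ} {w : ℤ → C(Icc (0 : ℝ) S, ℂ)}
    (hw : IsFix S hS a w) (h1 : Summable fun n => wt n * ‖w n‖) (ha : Rap a) (r : ℕ) :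
    Summable fun n => wt n ^ r * ‖w n‖ := by
  have key : ∀ r : ℕ, Summable fun n => wt n ^ (r + 1) * ‖w n‖ := by
    intro r
    induction r with
    | zero => simpa using h1
    | succ r ih =>
      have hF := Boot_Fl ih
      refine Summable.of_nonneg_of_le (fun n => mul_nonneg (Boot_wt_nonneg n _) (norm_nonneg _))
        (fun n => ?_) ((ha (r + 1 + 1)).add hF)
      have hlam : 0 ≤ lam n := by unfold lam; positivity
      have e1 : ‖w n‖ ≤ ‖a n‖ + ‖duh S hS (lam n) (dx (Fl w) n)‖ := by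
        conv_lhs => rw [hw n]
        exact (norm_add_le _ _).trans (add_le_add (norm_fre_le S _ hS hlam _) le_rfl)
      have e2 : wt n ^ (r + 1 + 1) * ‖duh S hS (lam n) (dx (Fl w) n)‖ ≤ wt n ^ r * ‖Fl w n‖ := by
        by_cases hn : n = 0
        · subst hn
          have h0 : dx (Fl w) 0 = 0 := by
            unfold dx
            have : mul 0 = 0 := by simp [mul]
            rw [this]
            ext t
            exact zero_mul _
          have h2 := norm_duh_le S hS (lam 0) hlam (dx (Fl w) 0)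
          rw [h0, norm_zero, mul_zero] at h2
          rw [h0, le_antisymm h2 (norm_nonneg _), mul_zero]
          exact mul_nonneg (Boot_wt_nonneg 0 r) (norm_nonneg _)
        · have hn1 := Boot_abs_one hn
          have h2 := norm_duh_le' S hS (lam n) hlam (dx (Fl w) n)
          have h3 : ‖dx (Fl w) n‖ ≤ ‖mul n‖ * ‖Fl w n‖ := norm_smul_le _ _
          have hlp : 0 < lam n := by
            unfold lam
            have : (n : ℝ) ≠ 0 := by exact_mod_cast hn
            positivity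
          have h4 : wt n ^ 2 * ‖mul n‖ ≤ lam n := by
            rw [Boot_norm_mul]
            unfold lam wt
            have hl : (2 * π * (n : ℝ)) ^ 4 = (2 * π) ^ 4 * |(n : ℝ)| ^ 4 := by
              rw [mul_pow, ← abs_pow, abs_of_nonneg (by positivity : (0 : ℝ) ≤ (n : ℝ) ^ 4)]
            rw [hl]
            set x := |(n : ℝ)| with hx
            have hpi : (3 : ℝ) < π := Real.pi_gt_three
            have g1 : (1 + x) ^ 2 ≤ 4 * x ^ 2 := by nlinarith
            have g2 : (4 : ℝ) ≤ (2 * π) ^ 3 := by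
              have : (6 : ℝ) ≤ 2 * π := by linarith
              calc (4 : ℝ) ≤ 6 ^ 3 := by norm_num
                _ ≤ (2 * π) ^ 3 := pow_le_pow_left₀ (by norm_num) this 3
            have g3 : x ^ 3 ≤ x ^ 4 := pow_le_pow_right₀ hn1 (by norm_num)
            calc (1 + x) ^ 2 * (2 * π * x) ≤ 4 * x ^ 2 * (2 * π * x) :=
                  mul_le_mul_of_nonneg_right g1 (by positivity)
              _ = 4 * (2 * π) * x ^ 3 := by ring
              _ ≤ (2 * π) ^ 3 * (2 * π) * x ^ 4 := by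
                  apply mul_le_mul _ g3 (by positivity) (by positivity)
                  exact mul_le_mul_of_nonneg_right g2 (by positivity)
              _ = (2 * π) ^ 4 * x ^ 4 := by ring
          have h5 : wt n ^ 2 * ‖duh S hS (lam n) (dx (Fl w) n)‖ ≤ ‖Fl w n‖ := by
            have h6 : lam n * (wt n ^ 2 * ‖duh S hS (lam n) (dx (Fl w) n)‖) ≤ lam n * ‖Fl w n‖ := by
              calc lam n * (wt n ^ 2 * ‖duh S hS (lam n) (dx (Fl w) n)‖)
                  = wt n ^ 2 * (lam n * ‖duh S hS (lam n) (dx (Fl w) n)‖) := by ring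
                _ ≤ wt n ^ 2 * (‖mul n‖ * ‖Fl w n‖) :=
                    mul_le_mul_of_nonneg_left (h2.trans h3) (Boot_wt_nonneg n 2)
                _ = (wt n ^ 2 * ‖mul n‖) * ‖Fl w n‖ := by ring
                _ ≤ lam n * ‖Fl w n‖ := mul_le_mul_of_nonneg_right h4 (norm_nonneg _)
            exact le_of_mul_le_mul_left h6 hlp
          calc wt n ^ (r + 1 + 1) * ‖duh S hS (lam n) (dx (Fl w) n)‖
              = wt n ^ r * (wt n ^ 2 * ‖duh S hS (lam n) (dx (Fl w) n)‖) := by ring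
            _ ≤ wt n ^ r * ‖Fl w n‖ := mul_le_mul_of_nonneg_left h5 (Boot_wt_nonneg n r)
      calc wt n ^ (r + 1 + 1) * ‖w n‖
          ≤ wt n ^ (r + 1 + 1) * (‖a n‖ + ‖duh S hS (lam n) (dx (Fl w) n)‖) :=
            mul_le_mul_of_nonneg_left e1 (Boot_wt_nonneg n _)
        _ = wt n ^ (r + 1 + 1) * ‖a n‖ +
            wt n ^ (r + 1 + 1) * ‖duh S hS (lam n) (dx (Fl w) n)‖ := mul_add _ _ _
        _ ≤ _ := add_le_add le_rfl e2
  exact Boot_down (key r)

section BootStar

variable {E : Type} [NormedCommRing E] [NormedAlgebra ℂ E] [StarRing E] [ContinuousStar E]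
  [StarModule ℂ E]

/-- `n ↦ star (f (-n))` -/
def BootT (f : ℤ → E) (n : ℤ) : E := star (f (-n))

theorem Boot_mul_star (n : ℤ) : star (mul (-n)) = mul n := by
  unfold mul
  simp

omit [NormedAlgebra ℂ E] [StarModule ℂ E] in
theorem BootT_cv (f g : ℤ → E) : cv (BootT f) (BootT g) = BootT (cv f g) := by
  funext n
  unfold BootT cv
  rw [tsum_star, ← (Equiv.neg ℤ).tsum_eq]
  refine tsum_congr (fun m => ?_)
  simp only [Equiv.neg_apply, neg_neg, star_mul']
  congr 3
  ring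

omit [ContinuousStar E] in
theorem BootT_dx (f : ℤ → E) : dx (BootT f) = BootT (dx f) := by
  funext n
  unfold BootT dx
  rw [star_smul, Boot_mul_star]

omit [ContinuousStar E] in
theorem BootT_ix (f : ℤ → E) : ix (BootT f) = BootT (ix f) := by
  funext n
  unfold BootT ix
  rw [star_smul, star_inv₀, Boot_mul_star]

theorem BootT_Qn (w : ℤ → E) : Qn (BootT w) = BootT (Qn w) := by
  funext n
  unfold Qn
  rw [BootT_dx, BootT_cv, BootT_cv, BootT_cv]
  unfold BootT
  rw [star_sub, star_smul]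
  simp

theorem BootT_Fl (w : ℤ → E) : Fl (BootT w) = BootT (Fl w) := by
  funext n
  have hP : Pn (BootT w) = BootT (Pn w) := by
    unfold Pn
    rw [BootT_Qn, BootT_ix]
  unfold Fl
  rw [hP, BootT_dx, BootT_cv, BootT_cv, BootT_cv]
  unfold BootT
  rw [star_add, star_smul]
  simp

end BootStar

theorem Boot_norm_star {S : ℝ} (f : C(Icc (0 : ℝ) S, ℂ)) : ‖star f‖ = ‖f‖ := by
  have h : ∀ f : C(Icc (0 : ℝ) S, ℂ), ‖star f‖ ≤ ‖f‖ := fun f =>
    (ContinuousMap.norm_le _ (norm_nonneg _)).2 (fun x => by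
      change ‖conj (f x)‖ ≤ _
      rw [RCLike.norm_conj]
      exact f.norm_coe_le_norm x)
  refine le_antisymm (h f) ?_
  have h2 := h (star f)
  rwa [star_star] at h2

/-- `w ↦ star (w (-·))` preserves fixed points if `a (-n) = conj (a n)` -/
theorem fix_star {S : ℝ} (hS : 0 ≤ S) {a : ℤ → ℂ} {w : ℤ → C(Icc (0 : ℝ) S, ℂ)}
    (hw : IsFix S hS a w) (h1 : Summable fun n => wt n * ‖w n‖)
    (ha : ∀ n, a (-n) = conj (a n)) : IsFix S hS a (fun n => star (w (-n))) := by
  intro n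
  have hl : lam (-n) = lam n := by unfold lam; push_cast; ring
  have h2 : star (w (-n)) = star (fre S (lam (-n)) (a (-n))) +
      star (duh S hS (lam (-n)) (dx (Fl w) (-n))) := by
    conv_lhs => rw [hw (-n)]
    rw [star_add]
  have h3 : star (fre S (lam (-n)) (a (-n))) = fre S (lam n) (a n) := by
    rw [hl, ha]
    ext t
    change conj (((Real.exp (-(lam n * t)) : ℝ) : ℂ) * conj (a n)) =
      ((Real.exp (-(lam n * t)) : ℝ) : ℂ) * a n
    rw [map_mul, Complex.conj_conj, Complex.conj_ofReal]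
  have h4 : dx (Fl (fun n => star (w (-n)))) n = star (dx (Fl w) (-n)) := by
    have h5 : dx (Fl (BootT w)) = BootT (dx (Fl w)) := by
      rw [BootT_Fl, BootT_dx]
    exact congrFun h5 n
  change star (w (-n)) = _
  rw [h2, h3, h4, duh_star, hl]

/-- the evaluation at a time -/
theorem eval_Fl {S : ℝ} (hS : 0 ≤ S) {w : ℤ → C(Icc (0 : ℝ) S, ℂ)}
    (h1 : Summable fun n => wt n * ‖w n‖) (t : ℝ) (n : ℤ) :
    IccExtend hS (dx (Fl w) n : C(Icc (0 : ℝ) S, ℂ)) t =
      dx (Fl (fun m => IccExtend hS (w m) t)) n := by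
  have hw1 : Summable fun n => wt n ^ (0 + 1) * ‖w n‖ := by simpa using h1
  let p := projIcc 0 S hS t
  let φ : C(Icc (0 : ℝ) S, ℂ) →+* ℂ :=
    { toFun := fun f => f p
      map_one' := rfl
      map_mul' := fun _ _ => rfl
      map_zero' := rfl
      map_add' := fun _ _ => rfl }
  have hφ : Continuous φ := continuous_eval_const p
  have hsm : ∀ (c : ℂ) (f : C(Icc (0 : ℝ) S, ℂ)), φ (c • f) = c • φ f := fun c f => rfl
  have hw0 : Summable fun n => ‖w n‖ := Boot_norm hw1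
  have hdx : Summable fun n => ‖dx w n‖ := Boot_norm (Boot_dx hw1)
  have hww : Summable fun n => ‖cv w w n‖ := cv_summable hw0 hw0
  have hP : Summable fun n => ‖Pn w n‖ := Boot_norm (Boot_Pn hw1)
  have e1 : (fun m => φ (dx w m)) = dx (fun m => φ (w m)) := by
    funext m
    unfold dx
    rw [hsm]
  have e2 : (fun m => φ (cv w w m)) = cv (fun m => φ (w m)) (fun m => φ (w m)) := by
    funext m
    exact cv_map φ hφ hw0 hw0 m
  have e3 : (fun m => φ (Qn w m)) = Qn (fun m => φ (w m)) := by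
    funext m
    unfold Qn
    rw [map_sub, hsm, cv_map φ hφ hdx hdx, cv_map φ hφ hww hww, e1, e2]
  have e4 : (fun m => φ (Pn w m)) = Pn (fun m => φ (w m)) := by
    unfold Pn
    rw [← e3]
    funext m
    unfold ix
    rw [hsm]
  have e5 : ∀ m, φ (Fl w m) = Fl (fun m => φ (w m)) m := by
    intro m
    unfold Fl
    rw [map_add, hsm, cv_map φ hφ hww hdx, cv_map φ hφ hw0 hP, e1, e2, e4]
  change φ (dx (Fl w) n) = dx (Fl (fun m => φ (w m))) n
  unfold dx
  rw [hsm, e5]

theorem fix_csol {S : ℝ} (hS : 0 ≤ S) {a : ℤ → ℂ} {w : ℤ → C(Icc (0 : ℝ) S, ℂ)}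
    (hw : IsFix S hS a w) (h1 : Summable fun n => wt n * ‖w n‖) (ha : Rap a)
    (hr : ∀ n, star (w (-n)) = w n) :
    CSol S (fun n t => IccExtend hS (w n) t) ∧ ∀ n, IccExtend hS (w n) 0 = a n := by
  refine ⟨⟨⟨fun n => ?_, fun n => ‖w n‖, fun r => fix_rap hS hw h1 ha r, fun n t _ => ?_⟩, ?_, ?_⟩,
    ?_⟩
  · exact ((w n).continuous.Icc_extend' (h := hS)).continuousOn
  · exact (w n).norm_coe_le_norm _
  · intro n t _
    have h2 := congrArg (fun f : C(Icc (0 : ℝ) S, ℂ) => f (projIcc 0 S hS t)) (hr n)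
    change w (-n) (projIcc 0 S hS t) = conj (w n (projIcc 0 S hS t))
    rw [← h2]
    change _ = conj (conj (w (-n) (projIcc 0 S hS t)))
    rw [Complex.conj_conj]
  · intro n t ht
    have h2 := fre_duh_deriv S hS (lam n) (a n) (dx (Fl w) n) (w n) (hw n) t ht
    unfold rhs
    rw [eval_Fl hS h1] at h2
    exact h2
  · intro n
    exact fre_duh_zero S hS (lam n) (a n) (dx (Fl w) n) (w n) (hw n)

/-- LOCAL EXISTENCE: the time depends only on the bound `M` of `nrm1 a` -/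
theorem loc (M : ℝ) : ∃ S : ℝ, 0 < S ∧ ∀ a : ℤ → ℂ, Rap a → (∀ n, a (-n) = conj (a n)) →
    nrm1 a ≤ M → ∃ w : ℤ → ℝ → ℂ, CSol S w ∧ ∀ n, w n 0 = a n := by
  obtain ⟨S, hS, H⟩ := exists_fix (max M 1) (le_max_right _ _)
  refine ⟨S, hS, fun a ha hr hM => ?_⟩
  obtain ⟨w, ⟨hw, h1, h2⟩, huniq⟩ := H a (by simpa using ha 1) (hM.trans (le_max_left _ _))
  have hneg : ∀ n, wt n * ‖star (w (-n))‖ = (fun m => wt m * ‖w m‖) (Equiv.neg ℤ n) := by
    intro n
    simp only [Equiv.neg_apply, wt_neg]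
    rw [Boot_norm_star]
  have h1' : Summable fun n => wt n * ‖star (w (-n))‖ := by
    simp only [hneg]
    exact (Equiv.neg ℤ).summable_iff.2 h1
  have h2' : ∑' n, wt n * ‖star (w (-n))‖ ≤ 2 * max M 1 := by
    simp only [hneg]
    rw [(Equiv.neg ℤ).tsum_eq (fun m => wt m * ‖w m‖)]
    exact h2
  have h3 := huniq (fun n => star (w (-n))) ⟨fix_star hS.le hw h1 hr, h1', h2'⟩
  obtain ⟨g1, g2⟩ := fix_csol hS.le hw h1 ha (fun n => congrFun h3 n)
  exact ⟨_, g1, g2⟩

end Pool.Agent.helper22.FE
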