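import Pool.Agent.helper22.FE.Defs

/-!
# FE: Fourier coefficients of smooth periodic functions

`a n = ∫₀¹ f(x) exp (- mul n x) dx`.  Integration by parts: the coefficients of `f'` are
`mul n * a n`, hence `|mul n| ^ r |a n| ≤ sup |f^(r)|` for all `r`, so `a` is rapidly decreasing
(`wt n ≤ 2 |n| ≤ |mul n|` for `n ≠ 0`, and `∑ (wt n)⁻² < ∞`).  The Fourier series converges to
`f` (Mathlib: `hasSum_fourier_series_of_summable` / `has_pointwise_sum_fourier_series_of_summable`
on `AddCircle (1 : ℝ)`).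
-/

set_option autoImplicit false

open scoped Real ComplexConjugate ContDiff
open Set

namespace Pool.Agent.helper22.FE

/-- the `n`-th Fourier coefficient -/
noncomputable def Coef_a (g : ℝ → ℂ) (n : ℤ) : ℂ :=
  ∫ x in (0 : ℝ)..1, g x * Complex.exp (-(mul n) * x)

lemma Coef_exp_one (n : ℤ) : Complex.exp (-(mul n) * (1 : ℝ)) = 1 := by
  rw [Complex.exp_eq_one_iff]
  refine ⟨-n, ?_⟩
  rw [mul]
  push_cast
  ring

lemma Coef_hasDerivAt_exp (n : ℤ) (x : ℝ) :
    HasDerivAt (fun x : ℝ => Complex.exp (-(mul n) * x))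
      (-(mul n) * Complex.exp (-(mul n) * x)) x := by
  have h1 : HasDerivAt (fun x : ℝ => -(mul n) * (x : ℂ)) (-(mul n) * 1) x :=
    (Complex.ofRealCLM.hasDerivAt (x := x)).const_mul _
  have h2 := h1.cexp
  rw [mul_one, mul_comm] at h2
  exact h2

lemma Coef_cont_exp (n : ℤ) : Continuous (fun x : ℝ => Complex.exp (-(mul n) * x)) :=
  continuous_iff_continuousAt.2 fun x => (Coef_hasDerivAt_exp n x).continuousAt

lemma Coef_ibp (g g' : ℝ → ℂ) (h : ∀ x, HasDerivAt g (g' x) x) (hc : Continuous g')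
    (hp : g 1 = g 0) (n : ℤ) : Coef_a g' n = mul n * Coef_a g n := by
  have hg : Continuous g := continuous_iff_continuousAt.2 fun x => (h x).continuousAt
  have h1 : ∀ x ∈ uIcc (0 : ℝ) 1, HasDerivAt (fun x : ℝ => g x * Complex.exp (-(mul n) * x))
      (g' x * Complex.exp (-(mul n) * x) +
        g x * (-(mul n) * Complex.exp (-(mul n) * x))) x := fun x _ =>
    (h x).mul (Coef_hasDerivAt_exp n x)
  have hi1 : IntervalIntegrable (fun x : ℝ => g' x * Complex.exp (-(mul n) * x))
      MeasureTheory.volume 0 1 := (hc.mul (Coef_cont_exp n)).intervalIntegrable _ _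
  have hi2 : IntervalIntegrable (fun x : ℝ => g x * (-(mul n) * Complex.exp (-(mul n) * x)))
      MeasureTheory.volume 0 1 :=
    (hg.mul (continuous_const.mul (Coef_cont_exp n))).intervalIntegrable _ _
  have h2 := intervalIntegral.integral_eq_sub_of_hasDerivAt h1 (hi1.add hi2)
  rw [intervalIntegral.integral_add hi1 hi2] at h2
  have h3 : ∫ x in (0 : ℝ)..1, g x * (-(mul n) * Complex.exp (-(mul n) * x)) =
      -(mul n) * Coef_a g n := by
    rw [Coef_a, ← intervalIntegral.integral_const_mul]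
    congr 1
    funext x
    ring
  rw [h3, Coef_exp_one, hp] at h2
  rw [Coef_a]
  have h4 : Complex.exp (-(mul n) * (0 : ℝ)) = 1 := by simp
  rw [h4] at h2
  linear_combination h2

lemma Coef_bound (g : ℝ → ℂ) (hg : Continuous g) : ∃ C : ℝ, 0 ≤ C ∧ ∀ n, ‖Coef_a g n‖ ≤ C := by
  obtain ⟨C, hC⟩ := isCompact_Icc.exists_bound_of_continuousOn (s := Icc (0 : ℝ) 1) hg.continuousOn
  refine ⟨C, (norm_nonneg _).trans (hC 0 ⟨le_rfl, zero_le_one⟩), fun n => ?_⟩
  rw [Coef_a]
  have h := intervalIntegral.norm_integral_le_of_norm_le_const (a := (0 : ℝ)) (b := 1) (C := C)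
    (f := fun x : ℝ => g x * Complex.exp (-(mul n) * x)) (fun x hx => by
      rw [uIoc_of_le zero_le_one] at hx
      rw [norm_mul]
      have h1 : ‖Complex.exp (-(mul n) * x)‖ = 1 := by
        rw [Complex.norm_exp]
        have : (-(mul n) * (x : ℂ)).re = 0 := by
          rw [mul]
          simp
        rw [this, Real.exp_zero]
      rw [h1, mul_one]
      exact hC x ⟨hx.1.le, hx.2⟩)
  simpa using h

lemma Coef_cont (g : ℝ → ℂ) (hg : ContDiff ℝ ∞ g) (s : ℕ) : Continuous (iteratedDeriv s g) :=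
  hg.continuous_iteratedDeriv s (by exact_mod_cast le_top)

lemma Coef_iter (g : ℝ → ℂ) (hg : ContDiff ℝ ∞ g) (hp : ∀ x, g (x + 1) = g x) (n : ℤ) (r : ℕ) :
    Coef_a (iteratedDeriv r g) n = mul n ^ r * Coef_a g n := by
  have hper : ∀ r x, iteratedDeriv r g (x + 1) = iteratedDeriv r g x := by
    intro r x
    have h1 : (fun y => g (y + 1)) = g := funext hp
    have h2 := iteratedDeriv_comp_add_const r g 1
    rw [h1] at h2
    exact (congrFun h2 x).symm
  induction r with
  | zero => rw [iteratedDeriv_zero, pow_zero, one_mul]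
  | succ r ih =>
    rw [pow_succ', mul_assoc, ← ih]
    refine Coef_ibp _ _ (fun x => ?_) ?_ ?_ n
    · rw [iteratedDeriv_succ]
      have hd : Differentiable ℝ (iteratedDeriv r g) :=
        hg.differentiable_iteratedDeriv r (by exact_mod_cast WithTop.coe_lt_top _)
      exact (hd x).hasDerivAt
    · exact hg.continuous_iteratedDeriv (r + 1) (by exact_mod_cast le_top)
    · have := hper r 0
      rw [zero_add] at this
      exact this

lemma Coef_wt_pos (n : ℤ) : 0 < wt n := by
  rw [wt]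
  positivity

lemma Coef_wt_le {n : ℤ} (hn : n ≠ 0) : wt n ≤ ‖mul n‖ := by
  have h1 : (1 : ℝ) ≤ |(n : ℝ)| := by
    rw [← Int.cast_abs]
    exact_mod_cast Int.one_le_abs hn
  have h2 : ‖mul n‖ = 2 * π * |(n : ℝ)| := by
    rw [mul, norm_mul, norm_mul, norm_mul, Complex.norm_I, mul_one, Complex.norm_real,
      Real.norm_of_nonneg Real.pi_pos.le, Complex.norm_intCast]
    simp
  rw [h2, wt]
  nlinarith [Real.pi_gt_three, abs_nonneg (n : ℝ)]

lemma Coef_summable_wt : Summable fun n : ℤ => (wt n ^ 2)⁻¹ := by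
  refine Summable.of_nonneg_of_le (fun n => by positivity) (fun n => ?_)
    ((Real.summable_one_div_int_pow.2 (by norm_num : 1 < 2)).add
      (summable_of_ne_finset_zero (s := {(0 : ℤ)}) (f := fun n : ℤ => if n = 0 then (1 : ℝ) else 0)
        (fun n hn => if_neg (by simpa using hn))))
  by_cases hn : n = 0
  · subst hn
    simp [wt]
  · rw [if_neg hn, add_zero, one_div]
    have h1 : 0 < |(n : ℝ)| := abs_pos.2 (by exact_mod_cast hn)
    rw [← sq_abs (n : ℝ)]
    gcongr
    rw [wt]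
    linarith

lemma Coef_rap (g : ℝ → ℂ) (hg : ContDiff ℝ ∞ g) (hp : ∀ x, g (x + 1) = g x) :
    Rap (Coef_a g) := by
  intro r
  obtain ⟨C, hC0, hC⟩ := Coef_bound (iteratedDeriv (r + 2) g)
    (Coef_cont g hg (r + 2))
  obtain ⟨C', hC'0, hC'⟩ := Coef_bound g hg.continuous
  refine Summable.of_nonneg_of_le
    (fun n => mul_nonneg (pow_nonneg (Coef_wt_pos n).le _) (norm_nonneg _)) (fun n => ?_)
    (Coef_summable_wt.mul_left (C + C'))
  have hw := Coef_wt_pos n
  rw [← div_eq_mul_inv, le_div_iff₀ (by positivity)]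
  by_cases hn : n = 0
  · subst hn
    have : wt 0 = 1 := by simp [wt]
    rw [this]
    simp only [one_pow, one_mul, mul_one]
    linarith [hC' 0]
  · have h1 : wt n ^ r * ‖Coef_a g n‖ * wt n ^ 2 = wt n ^ (r + 2) * ‖Coef_a g n‖ := by ring
    rw [h1]
    have h2 : wt n ^ (r + 2) * ‖Coef_a g n‖ ≤ ‖mul n‖ ^ (r + 2) * ‖Coef_a g n‖ := by
      gcongr
      exact Coef_wt_le hn
    have h3 : ‖mul n‖ ^ (r + 2) * ‖Coef_a g n‖ = ‖Coef_a (iteratedDeriv (r + 2) g) n‖ := by
      rw [Coef_iter g hg hp, norm_mul, norm_pow]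
    linarith [hC n]

theorem coef (f : ℝ → ℝ) (hf : ContDiff ℝ ∞ f) (hp : ∀ x, f (x + 1) = f x) :
    ∃ a : ℤ → ℂ, Rap a ∧ (∀ n, a (-n) = conj (a n)) ∧
      ∀ x : ℝ, ∑' n : ℤ, a n * Complex.exp (mul n * x) = f x := by
  have hg : ContDiff ℝ ∞ (fun x : ℝ => (f x : ℂ)) := Complex.ofRealCLM.contDiff.comp hf
  have hgp : ∀ x : ℝ, ((f (x + 1) : ℝ) : ℂ) = (f x : ℂ) := fun x => by rw [hp]
  have hrap := Coef_rap (fun x : ℝ => (f x : ℂ)) hg hgp
  refine ⟨Coef_a (fun x : ℝ => (f x : ℂ)), hrap, ?_, ?_⟩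
  · intro n
    rw [Coef_a, Coef_a, ← intervalIntegral.intervalIntegral_conj]
    congr 1
    funext x
    rw [map_mul, Complex.conj_ofReal, ← Complex.exp_conj]
    congr 2
    rw [mul, mul]
    have h2 : (starRingEnd ℂ) 2 = 2 := map_ofNat (starRingEnd ℂ) 2
    simp [h2]
  · intro x
    have : Fact ((0 : ℝ) < 1) := ⟨one_pos⟩
    have hper : Function.Periodic (fun x : ℝ => (f x : ℂ)) 1 := hgp
    let F : C(AddCircle (1 : ℝ), ℂ) := ⟨hper.lift, by
      rw [continuous_coinduced_dom]
      exact hg.continuous⟩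
    have hF : ∀ y : ℝ, F (y : AddCircle (1 : ℝ)) = (f y : ℂ) := fun y => hper.lift_coe y
    have hcoef : ∀ n, fourierCoeff F n = Coef_a (fun x : ℝ => (f x : ℂ)) n := by
      intro n
      rw [fourierCoeff_eq_intervalIntegral (⇑F) n 0, Coef_a]
      rw [zero_add, div_one, one_smul]
      congr 1
      funext y
      rw [hF, fourier_coe_apply, smul_eq_mul, mul_comm]
      congr 2
      rw [mul]
      push_cast
      ring
    have hs : Summable (fourierCoeff F) := by
      have h0 := hrap 0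
      simp only [pow_zero, one_mul] at h0
      have h1 : (fourierCoeff F) = Coef_a (fun x : ℝ => (f x : ℂ)) := funext hcoef
      rw [h1]
      exact h0.of_norm
    have h := has_pointwise_sum_fourier_series_of_summable hs (x : AddCircle (1 : ℝ))
    rw [hF] at h
    rw [← h.tsum_eq]
    congr 1
    funext n
    rw [hcoef, fourier_coe_apply, smul_eq_mul]
    congr 2
    rw [mul]
    push_cast
    ring

end Pool.Agent.helper22.FE
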