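import Pool.Agent.helper22.FE.En

/-!
# FE: the curve of a solution (time `τ`)

Angle: `ang x t = θ0 + ∫₀ˣ W(y, t) dy + ∫₀ᵗ flux(0, s) ds`, so `ang_x = W`, `ang_t = flux`
(as `∫₀ˣ W_t = flux(x) - flux(0)`).
Velocity: `vel = L (- i Q + Π) e^{i ang}`, `Π = P - W W_x`, `Q = W_xx + W³/2`.  Identity
`∂_x vel = (- m L + i L flux) e^{i ang} = ∂_t (L e^{i ang})`:
`Π_x = P_x - W_x² - W W_xx = - W⁴/2 - m - W W_xx = - W Q - m`, and
`∂_x ((-iQ + Π) e^{iθ}) = (-i Q_x + Π_x + i W (-i Q + Π)) e^{iθ} = (i (-Q_x + W Π) + Π_x + W Q) e^{iθ}`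
with `- Q_x + W Π = - W_xxx - (3/2) W² W_x + W P - W² W_x = flux`.
Curve: `cur x t = z0 + ∫₀ᵗ vel(0, s) ds + ∫₀ˣ L e^{i ang(y, t)} dy`.
Closing: `∂_t ∫₀¹ L e^{i ang} = vel(1) - vel(0) = 0` because `∫₀¹ W(., t) = ∫₀¹ W(., 0) ∈ 2πℤ`.
-/

set_option autoImplicit false

open scoped Real ContDiff
open Set
open Pool.Agent.helper19.EL (Sm pu pt)

namespace Pool.Agent.helper22.FE

noncomputable def ang (θ0 : ℝ) (W P : ℝ → ℝ → ℝ) (x t : ℝ) : ℝ :=
  θ0 + (∫ y in (0 : ℝ)..x, W y t) + ∫ s in (0 : ℝ)..t, flux W P 0 s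

/-- the unit tangent vector -/
noncomputable def tan' (θ0 : ℝ) (W P : ℝ → ℝ → ℝ) (x t : ℝ) : ℂ :=
  Complex.exp ((ang θ0 W P x t : ℂ) * Complex.I)

noncomputable def vel (L0 θ0 : ℝ) (W P : ℝ → ℝ → ℝ) (x t : ℝ) : ℂ :=
  (Len L0 W t : ℂ) * (-(Complex.I * QQ W x t) + ((P x t - W x t * pu W x t : ℝ) : ℂ)) *
    tan' θ0 W P x t

noncomputable def cur (L0 θ0 : ℝ) (z0 : ℂ) (W P : ℝ → ℝ → ℝ) (x t : ℝ) : ℂ :=
  z0 + (∫ s in (0 : ℝ)..t, vel L0 θ0 W P 0 s) +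
    ∫ y in (0 : ℝ)..x, (Len L0 W t : ℂ) * tan' θ0 W P y t

section
variable {S L0 θ0 : ℝ} {z0 : ℂ} {W P : ℝ → ℝ → ℝ}

theorem smC {f : ℝ → ℝ → ℝ} (hf : Sm S f) : Sm S (fun x t => (f x t : ℂ)) :=
  Complex.ofRealCLM.contDiff.comp_contDiffOn hf

theorem smMul {f g : ℝ → ℝ → ℂ} (hf : Sm S f) (hg : Sm S g) : Sm S (fun x t => f x t * g x t) :=
  ContDiffOn.mul hf hg

theorem smAdd {f g : ℝ → ℝ → ℂ} (hf : Sm S f) (hg : Sm S g) : Sm S (fun x t => f x t + g x t) :=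
  ContDiffOn.add hf hg

theorem sm_ang (h : FSol S W P) : Sm S (ang θ0 W P) := by
  have h1 : Sm S (fun x t => ∫ y in (0 : ℝ)..x, W y t) := Sm.primx h.smW
  have h2 : Sm S (fun _ t => ∫ s in (0 : ℝ)..t, flux W P 0 s) :=
    Sm.frz (Sm.primt h.sm_flux) 0
  have h3 : ContDiffOn ℝ ∞ (fun _ : ℝ × ℝ => θ0) (univ ×ˢ Ico 0 S) := contDiffOn_const
  exact (h3.add h1).add h2

theorem sm_tan (h : FSol S W P) : Sm S (tan' θ0 W P) := by
  have h1 : ContDiff ℝ ∞ fun r : ℝ => Complex.exp ((r : ℂ) * Complex.I) :=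
    (Complex.ofRealCLM.contDiff.mul contDiff_const).cexp
  exact h1.comp_contDiffOn (sm_ang h)

theorem sm_QQ (h : FSol S W P) : Sm S (QQ W) := by
  have h1 : Sm S (pu (pu W)) := h.smW.pu.pu
  have h2 : ContDiffOn ℝ ∞ (fun p : ℝ × ℝ => W p.1 p.2 ^ 3 / 2) (univ ×ˢ Ico 0 S) :=
    (ContDiffOn.pow h.smW 3).div_const 2
  exact ContDiffOn.add h1 h2

theorem sm_PP (h : FSol S W P) : Sm S (fun x t => P x t - W x t * pu W x t) :=
  ContDiffOn.sub h.smP (ContDiffOn.mul h.smW h.smW.pu)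

theorem sm_vel (h : FSol S W P) : Sm S (vel L0 θ0 W P) := by
  have h1 : Sm S (fun _ t => (Len L0 W t : ℂ)) := smC (f := fun _ t => Len L0 W t) (h.sm_Len L0)
  have h2 : Sm S (fun x t => (QQ W x t : ℂ)) := smC (sm_QQ h)
  have h3 : Sm S (fun x t => ((P x t - W x t * pu W x t : ℝ) : ℂ)) := smC (sm_PP h)
  have h4 : ContDiffOn ℝ ∞ (fun p : ℝ × ℝ => -(Complex.I * (QQ W p.1 p.2 : ℂ)))
      (univ ×ˢ Ico 0 S) := (contDiffOn_const.mul h2).neg
  exact ContDiffOn.mul (ContDiffOn.mul h1 (h4.add h3)) (sm_tan h)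

/-- `γ_x` -/
noncomputable def ext' (L0 θ0 : ℝ) (W P : ℝ → ℝ → ℝ) (x t : ℝ) : ℂ :=
  (Len L0 W t : ℂ) * tan' θ0 W P x t

theorem sm_ext (h : FSol S W P) : Sm S (ext' L0 θ0 W P) :=
  smMul (smC (f := fun _ t => Len L0 W t) (h.sm_Len L0)) (sm_tan h)

theorem sm_cur (h : FSol S W P) : Sm S (cur L0 θ0 z0 W P) := by
  have h1 : Sm S (fun x t => ∫ y in (0 : ℝ)..x, ext' L0 θ0 W P y t) := Sm.primx (sm_ext h)
  have h2 : Sm S (fun _ t => ∫ s in (0 : ℝ)..t, vel L0 θ0 W P 0 s) :=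
    Sm.frz (Sm.primt (sm_vel h)) 0
  have h3 : ContDiffOn ℝ ∞ (fun _ : ℝ × ℝ => z0) (univ ×ˢ Ico 0 S) := contDiffOn_const
  exact (h3.add h2).add h1

theorem ang_x (h : FSol S W P) {t : ℝ} (ht : t ∈ Ico 0 S) (x : ℝ) :
    HasDerivAt (fun x => ang θ0 W P x t) (W x t) x := by
  have h1 := (Sm.primx_hasDerivAt h.smW ht x).const_add θ0
  exact h1.add_const _

/-- the fundamental theorem in `x` -/
theorem int_pu {E : Type} [NormedAddCommGroup E] [NormedSpace ℝ E] [CompleteSpace E]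
    {f : ℝ → ℝ → E} (hf : Sm S f) {t : ℝ} (ht : t ∈ Ico 0 S) (x : ℝ) :
    ∫ y in (0 : ℝ)..x, pu f y t = f x t - f 0 t :=
  intervalIntegral.integral_eq_sub_of_hasDerivAt (fun y _ => hf.hasDerivAt_u ht y)
    ((hf.pu.cont_u ht).intervalIntegrable _ _)

theorem ang_t (h : FSol S W P) {t : ℝ} (ht : t ∈ Ioo 0 S) (x : ℝ) :
    HasDerivAt (fun t => ang θ0 W P x t) (flux W P x t) t := by
  have ht' : t ∈ Ico 0 S := ⟨ht.1.le, ht.2⟩
  have h1 := (Sm.primx_hasDerivAt_t h.smW ht x).const_add θ0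
  have h2 := Sm.primt_hasDerivAt h.sm_flux ht 0
  have h3 : ∫ y in (0 : ℝ)..x, pt W y t = flux W P x t - flux W P 0 t := by
    rw [← int_pu h.sm_flux ht' x]
    exact intervalIntegral.integral_congr fun y _ => h.W_t t ht y
  rw [h3] at h1
  exact (h1.add h2).congr_deriv (by ring)

theorem tan_x (h : FSol S W P) {t : ℝ} (ht : t ∈ Ico 0 S) (x : ℝ) :
    HasDerivAt (fun x => tan' θ0 W P x t) ((W x t : ℂ) * (Complex.I * tan' θ0 W P x t)) x := by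
  have h1 : HasDerivAt (fun x => (ang θ0 W P x t : ℂ) * Complex.I) ((W x t : ℂ) * Complex.I) x :=
    (ang_x h ht x).ofReal_comp.mul_const Complex.I
  refine h1.cexp.congr_deriv ?_
  unfold tan'
  ring

theorem tan_t (h : FSol S W P) {t : ℝ} (ht : t ∈ Ioo 0 S) (x : ℝ) :
    HasDerivAt (fun t => tan' θ0 W P x t) ((flux W P x t : ℂ) * (Complex.I * tan' θ0 W P x t))
      t := by
  have h1 : HasDerivAt (fun t => (ang θ0 W P x t : ℂ) * Complex.I)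
      ((flux W P x t : ℂ) * Complex.I) t := (ang_t h ht x).ofReal_comp.mul_const Complex.I
  refine h1.cexp.congr_deriv ?_
  unfold tan'
  ring

/-- `∂_x vel = ∂_t (L e^{iθ})` -/
theorem pt_ext (h : FSol S W P) {t : ℝ} (ht : t ∈ Ioo 0 S) (x : ℝ) :
    pt (ext' L0 θ0 W P) x t = pu (vel L0 θ0 W P) x t := by
  have ht' : t ∈ Ico 0 S := ⟨ht.1.le, ht.2⟩
  have h1 : HasDerivAt (fun t => ext' L0 θ0 W P x t)
      (((-mm W t * Len L0 W t : ℝ) : ℂ) * tan' θ0 W P x t +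
        (Len L0 W t : ℂ) * ((flux W P x t : ℂ) * (Complex.I * tan' θ0 W P x t))) t :=
    (h.Len' L0 ht).ofReal_comp.mul (tan_t h ht x)
  have hW := h.smW.hasDerivAt_u ht' x
  have hW1 := h.smW.pu.hasDerivAt_u ht' x
  have hW2 := h.smW.pu.pu.hasDerivAt_u ht' x
  have hP := h.smP.hasDerivAt_u ht' x
  have hQ : HasDerivAt (fun x => QQ W x t)
      (pu (pu (pu W)) x t + 3 * W x t ^ 2 * pu W x t / 2) x := by
    have := hW2.add ((hW.pow 3).div_const 2)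
    refine this.congr_deriv ?_
    norm_num
  have hPi : HasDerivAt (fun x => P x t - W x t * pu W x t)
      (pu P x t - (pu W x t * pu W x t + W x t * pu (pu W) x t)) x := hP.sub (hW.mul hW1)
  have h2 : HasDerivAt (fun x => vel L0 θ0 W P x t)
      ((Len L0 W t : ℂ) * (-(Complex.I * ((pu (pu (pu W)) x t +
          3 * W x t ^ 2 * pu W x t / 2 : ℝ) : ℂ)) +
        ((pu P x t - (pu W x t * pu W x t + W x t * pu (pu W) x t) : ℝ) : ℂ)) *
        tan' θ0 W P x t + (Len L0 W t : ℂ) * (-(Complex.I * QQ W x t) +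
          ((P x t - W x t * pu W x t : ℝ) : ℂ)) *
        ((W x t : ℂ) * (Complex.I * tan' θ0 W P x t))) x := by
    have h3 := (hQ.ofReal_comp.const_mul Complex.I).neg.add hPi.ofReal_comp
    exact (h3.const_mul (Len L0 W t : ℂ)).mul (tan_x h ht' x)
  have h4 : pt (ext' L0 θ0 W P) x t = _ := h1.deriv
  have h5 : pu (vel L0 θ0 W P) x t = _ := h2.deriv
  rw [h4, h5, h.P_x t ht' x]
  unfold QQ flux
  push_cast
  linear_combination ((Len L0 W t : ℂ) * tan' θ0 W P x t * (W x t : ℂ) *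
    (((pu (pu W) x t : ℝ) : ℂ) + (W x t : ℂ) ^ 3 / 2)) * Complex.I_mul_I

theorem cur_x (h : FSol S W P) {t : ℝ} (ht : t ∈ Ico 0 S) (x : ℝ) :
    HasDerivAt (fun x => cur L0 θ0 z0 W P x t) ((Len L0 W t : ℂ) * tan' θ0 W P x t) x :=
  (Sm.primx_hasDerivAt (sm_ext h) ht x).const_add _

theorem int_pt_ext (h : FSol S W P) {t : ℝ} (ht : t ∈ Ioo 0 S) (x : ℝ) :
    ∫ y in (0 : ℝ)..x, pt (ext' L0 θ0 W P) y t = vel L0 θ0 W P x t - vel L0 θ0 W P 0 t := by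
  rw [← int_pu (sm_vel h) ⟨ht.1.le, ht.2⟩ x]
  exact intervalIntegral.integral_congr fun y _ => pt_ext h ht y

theorem cur_t (h : FSol S W P) {t : ℝ} (ht : t ∈ Ioo 0 S) (x : ℝ) :
    HasDerivAt (fun t => cur L0 θ0 z0 W P x t) (vel L0 θ0 W P x t) t := by
  have h1 := Sm.primx_hasDerivAt_t (sm_ext (L0 := L0) (θ0 := θ0) h) ht x
  rw [int_pt_ext h ht x] at h1
  have h2 := (Sm.primt_hasDerivAt (sm_vel (L0 := L0) (θ0 := θ0) h) ht 0).const_add z0
  exact (h2.add h1).congr_deriv (by ring)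

/-! periodicity -/

theorem perQQ (h : FSol S W P) {t : ℝ} (ht : t ∈ Ico 0 S) (x : ℝ) :
    QQ W (x + 1) t = QQ W x t := by
  have h1 : ∀ x, pu W (x + 1) t = pu W x t := per_pu (h.perW t ht)
  have h2 : ∀ x, pu (pu W) (x + 1) t = pu (pu W) x t := per_pu h1
  unfold QQ
  rw [h2, h.perW t ht]

theorem mean_per (h : FSol S W P) {t : ℝ} (ht : t ∈ Ico 0 S) (x : ℝ) :
    ∫ y in (0 : ℝ)..(x + 1), W y t = (∫ y in (0 : ℝ)..x, W y t) + ∫ y in (0 : ℝ)..1, W y t := by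
  have hp : Function.Periodic (fun y => W y t) 1 := fun y => h.perW t ht y
  have h1 := hp.intervalIntegral_add_eq x 0
  rw [zero_add] at h1
  rw [← h1, intervalIntegral.integral_add_adjacent_intervals]
  · exact (h.smW.cont_u ht).intervalIntegrable _ _
  · exact (h.smW.cont_u ht).intervalIntegrable _ _

theorem tan_per (h : FSol S W P) {t : ℝ} (ht : t ∈ Ico 0 S)
    (hk : ∃ k : ℤ, ∫ x in (0 : ℝ)..1, W x t = 2 * π * k) (x : ℝ) :
    tan' θ0 W P (x + 1) t = tan' θ0 W P x t := by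
  obtain ⟨k, hk⟩ := hk
  unfold tan'
  have h1 : ang θ0 W P (x + 1) t = ang θ0 W P x t + 2 * π * k := by
    unfold ang
    rw [mean_per h ht, hk]
    ring
  rw [h1]
  push_cast
  rw [show ((ang θ0 W P x t : ℂ) + 2 * π * k) * Complex.I =
    (ang θ0 W P x t : ℂ) * Complex.I + k * (2 * π * Complex.I) by ring]
  exact Complex.exp_periodic.int_mul k _

theorem vel_per (h : FSol S W P) {t : ℝ} (ht : t ∈ Ico 0 S)
    (hk : ∃ k : ℤ, ∫ x in (0 : ℝ)..1, W x t = 2 * π * k) (x : ℝ) :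
    vel L0 θ0 W P (x + 1) t = vel L0 θ0 W P x t := by
  have h1 : ∀ x, pu W (x + 1) t = pu W x t := per_pu (h.perW t ht)
  unfold vel
  rw [tan_per h ht hk, perQQ h ht, h1, h.perP t ht, h.perW t ht]

/-- `∫₀¹ L e^{iθ}` in terms of `clo` -/
theorem int_ext (t : ℝ) : ∫ y in (0 : ℝ)..1, ext' L0 θ0 W P y t =
    (Len L0 W t : ℂ) * Complex.exp (((θ0 + ∫ s in (0 : ℝ)..t, flux W P 0 s : ℝ) : ℂ) *
      Complex.I) * clo (fun x => W x t) := by
  unfold ext' tan' ang clo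
  rw [← intervalIntegral.integral_const_mul]
  refine intervalIntegral.integral_congr fun y _ => ?_
  simp only
  rw [mul_assoc, ← Complex.exp_add]
  congr 2
  push_cast
  ring

theorem int_ext_const (h : FSol S W P)
    (hk : ∃ k : ℤ, ∫ x in (0 : ℝ)..1, W x 0 = 2 * π * k) {t : ℝ} (ht : t ∈ Ico 0 S) :
    ∫ y in (0 : ℝ)..1, ext' L0 θ0 W P y t = ∫ y in (0 : ℝ)..1, ext' L0 θ0 W P y 0 := by
  have hc : ContinuousOn (fun t => ∫ y in (0 : ℝ)..1, ext' L0 θ0 W P y t) (Ico 0 S) :=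
    (sm_ext h).cont_int
  have hd : ∀ s ∈ Ioo 0 t, HasDerivAt (fun t => ∫ y in (0 : ℝ)..1, ext' L0 θ0 W P y t) 0 s := by
    intro s hs
    have hs' : s ∈ Ioo 0 S := ⟨hs.1, hs.2.trans ht.2⟩
    have h1 := Sm.primx_hasDerivAt_t (sm_ext (L0 := L0) (θ0 := θ0) h) hs' 1
    rw [int_pt_ext h hs' 1] at h1
    have hk' : ∃ k : ℤ, ∫ x in (0 : ℝ)..1, W x s = 2 * π * k := by
      rw [h.mean ⟨hs'.1.le, hs'.2⟩]; exact hk
    have h2 := vel_per (L0 := L0) (θ0 := θ0) h ⟨hs'.1.le, hs'.2⟩ hk' 0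
    rw [zero_add] at h2
    rw [h2, sub_self] at h1
    exact h1
  have h3 := intervalIntegral.integral_eq_sub_of_hasDerivAt_of_le ht.1
    (hc.mono fun s hs => ⟨hs.1, lt_of_le_of_lt hs.2 ht.2⟩) hd (by simp)
  rw [intervalIntegral.integral_zero] at h3
  exact (sub_eq_zero.1 h3.symm)

theorem int_ext_zero (h : FSol S W P) (h0 : Closed fun x => W x 0) {t : ℝ} (ht : t ∈ Ico 0 S) :
    ∫ y in (0 : ℝ)..1, ext' L0 θ0 W P y t = 0 := by
  rw [int_ext_const h h0.1 ht, int_ext]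
  rw [h0.2, mul_zero]

/-- the closing condition persists -/
theorem closed_pers (h : FSol S W P) (h0 : Closed fun x => W x 0) {t : ℝ} (ht : t ∈ Ico 0 S) :
    Closed fun x => W x t := by
  refine ⟨?_, ?_⟩
  · rw [h.mean ht]; exact h0.1
  · have h1 := int_ext_zero (L0 := 1) (θ0 := 0) h h0 ht
    rw [int_ext] at h1
    have h2 : (Len 1 W t : ℂ) ≠ 0 := by exact_mod_cast (Len_pos one_pos W t).ne'
    rcases mul_eq_zero.1 h1 with h3 | h3
    · exact absurd h3 (mul_ne_zero h2 (Complex.exp_ne_zero _))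
    · exact h3

theorem cur_per (h : FSol S W P) (h0 : Closed fun x => W x 0) {t : ℝ} (ht : t ∈ Ico 0 S)
    (x : ℝ) : cur L0 θ0 z0 W P (x + 1) t = cur L0 θ0 z0 W P x t := by
  have hk := (closed_pers h h0 ht).1
  have hp : Function.Periodic (fun y => ext' L0 θ0 W P y t) 1 := fun y => by
    show (Len L0 W t : ℂ) * tan' θ0 W P (y + 1) t = (Len L0 W t : ℂ) * tan' θ0 W P y t
    rw [tan_per h ht hk]
  have h1 := hp.intervalIntegral_add_eq x 0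
  rw [zero_add, int_ext_zero h h0 ht] at h1
  have hc : Continuous fun y => ext' L0 θ0 W P y t := (sm_ext h).cont_u ht
  have h2 : (∫ y in (0 : ℝ)..x, ext' L0 θ0 W P y t) + ∫ y in x..(x + 1), ext' L0 θ0 W P y t =
      ∫ y in (0 : ℝ)..(x + 1), ext' L0 θ0 W P y t :=
    intervalIntegral.integral_add_adjacent_intervals (hc.intervalIntegrable _ _)
      (hc.intervalIntegrable _ _)
  rw [h1, add_zero] at h2
  show z0 + (∫ s in (0 : ℝ)..t, vel L0 θ0 W P 0 s) + (∫ y in (0 : ℝ)..(x + 1),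
    ext' L0 θ0 W P y t) = z0 + (∫ s in (0 : ℝ)..t, vel L0 θ0 W P 0 s) +
    ∫ y in (0 : ℝ)..x, ext' L0 θ0 W P y t
  rw [h2]

theorem cur_zero (x : ℝ) : cur L0 θ0 z0 W P x 0 =
    z0 + ∫ y in (0 : ℝ)..x, (L0 : ℂ) * Complex.exp (((θ0 + ∫ v in (0 : ℝ)..y, W v 0 : ℝ) : ℂ) *
      Complex.I) := by
  unfold cur tan' ang
  rw [intervalIntegral.integral_same, add_zero, Len_zero]
  simp only [intervalIntegral.integral_same, add_zero]

end

end Pool.Agent.helper22.FE
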