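import Pool.Agent.helper22.FE.Defs

/-!
# FE: the convolution algebra

`cv f g n = ∑' m, f m * g (n - m)` for summable sequences `ℤ → E`, `E` a complete normed
commutative ring.  Everything follows from the summability of `(m, k) ↦ f m * g k` on `ℤ × ℤ`
(`Summable.mul_norm`, `summable_mul_of_summable_norm`, `tsum_mul_tsum_of_summable_norm`) and the
change of variables `(n, m) ↦ (m, n - m)` (an `Equiv` of `ℤ × ℤ`).
-/

set_option autoImplicit false

open scoped Real ComplexConjugate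
open Set

namespace Pool.Agent.helper22.FE

theorem one_le_wt (n : ℤ) : 1 ≤ wt n := by
  unfold wt; linarith [abs_nonneg (n : ℝ)]

theorem wt_pos (n : ℤ) : 0 < wt n := lt_of_lt_of_le one_pos (one_le_wt n)

theorem wt_neg (n : ℤ) : wt (-n) = wt n := by
  unfold wt; push_cast; rw [abs_neg]

/-- `1 + |m + n| ≤ (1 + |m|) (1 + |n|)` -/
theorem wt_add (m n : ℤ) : wt (m + n) ≤ wt m * wt n := by
  unfold wt; push_cast
  nlinarith [abs_nonneg (m : ℝ), abs_nonneg (n : ℝ), abs_add_le (m : ℝ) (n : ℝ),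
    mul_nonneg (abs_nonneg (m : ℝ)) (abs_nonneg (n : ℝ))]

section
variable {E : Type} [NormedCommRing E] [CompleteSpace E]

/-- the change of variables `(n, m) ↦ (m, n - m)` -/
private def CvEquiv : ℤ × ℤ ≃ ℤ × ℤ where
  toFun p := (p.2, p.1 - p.2)
  invFun q := (q.1 + q.2, q.1)
  left_inv p := by
    ext
    · simp
    · simp
  right_inv q := by
    ext
    · simp
    · simp

private lemma Cv_prod {f g : ℤ → E} (hf : Summable fun n => ‖f n‖)
    (hg : Summable fun n => ‖g n‖) : Summable fun p : ℤ × ℤ => f p.2 * g (p.1 - p.2) :=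
  CvEquiv.summable_iff.mpr (summable_mul_of_summable_norm hf hg)

omit [CompleteSpace E] in
private lemma Cv_prod_norm {f g : ℤ → E} (hf : Summable fun n => ‖f n‖)
    (hg : Summable fun n => ‖g n‖) : Summable fun p : ℤ × ℤ => ‖f p.2 * g (p.1 - p.2)‖ :=
  CvEquiv.summable_iff.mpr (hf.mul_norm hg)

private lemma Cv_tsum {f g : ℤ → E} (hf : Summable fun n => ‖f n‖)
    (hg : Summable fun n => ‖g n‖) : ∑' n, cv f g n = (∑' n, f n) * ∑' n, g n := by
  have h1 : ∑' p : ℤ × ℤ, f p.2 * g (p.1 - p.2) = ∑' q : ℤ × ℤ, f q.1 * g q.2 :=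
    CvEquiv.tsum_eq (fun q : ℤ × ℤ => f q.1 * g q.2)
  rw [tsum_mul_tsum_of_summable_norm hf hg, ← h1, (Cv_prod hf hg).tsum_prod]
  rfl

theorem cv_summable_aux {f g : ℤ → E} (hf : Summable fun n => ‖f n‖)
    (hg : Summable fun n => ‖g n‖) (n : ℤ) : Summable fun m => f m * g (n - m) :=
  (Cv_prod hf hg).prod_factor n

omit [CompleteSpace E] in
private lemma Cv_aux_norm {f g : ℤ → E} (hf : Summable fun n => ‖f n‖)
    (hg : Summable fun n => ‖g n‖) (n : ℤ) : Summable fun m => ‖f m * g (n - m)‖ :=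
  (Cv_prod_norm hf hg).prod_factor n

theorem cv_summable {f g : ℤ → E} (hf : Summable fun n => ‖f n‖)
    (hg : Summable fun n => ‖g n‖) : Summable fun n => ‖cv f g n‖ := by
  refine Summable.of_nonneg_of_le (fun n => norm_nonneg _) (fun n => ?_)
    (Cv_prod_norm hf hg).prod
  exact norm_tsum_le_tsum_norm (Cv_aux_norm hf hg n)

theorem cv_norm_le {f g : ℤ → E} (hf : Summable fun n => ‖f n‖)
    (hg : Summable fun n => ‖g n‖) :
    ∑' n, ‖cv f g n‖ ≤ (∑' n, ‖f n‖) * ∑' n, ‖g n‖ := by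
  have hf' : Summable fun n => ‖‖f n‖‖ := by simpa using hf
  have hg' : Summable fun n => ‖‖g n‖‖ := by simpa using hg
  have h1 := Cv_tsum (E := ℝ) (f := fun n => ‖f n‖) (g := fun n => ‖g n‖) hf' hg'
  rw [← h1]
  refine (cv_summable hf hg).tsum_le_tsum (fun n => ?_) ?_
  · refine (norm_tsum_le_tsum_norm (Cv_aux_norm hf hg n)).trans ?_
    exact (Cv_aux_norm hf hg n).tsum_le_tsum (fun m => norm_mul_le _ _)
      (cv_summable_aux (E := ℝ) (f := fun n => ‖f n‖) (g := fun n => ‖g n‖) hf' hg' n)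
  · exact (cv_summable (E := ℝ) (f := fun n => ‖f n‖) (g := fun n => ‖g n‖) hf' hg').of_norm

/-- domination: `‖(f * g) n‖ ≤ (b * c) n` -/
theorem cv_dom {f g : ℤ → E} {b c : ℤ → ℝ} (hb : Summable b) (hc : Summable c)
    (hf : ∀ n, ‖f n‖ ≤ b n) (hg : ∀ n, ‖g n‖ ≤ c n) (n : ℤ) : ‖cv f g n‖ ≤ cv b c n := by
  have hb0 : ∀ n, 0 ≤ b n := fun n => (norm_nonneg _).trans (hf n)
  have hc0 : ∀ n, 0 ≤ c n := fun n => (norm_nonneg _).trans (hg n)
  have hb' : Summable fun n => ‖b n‖ := hb.norm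
  have hc' : Summable fun n => ‖c n‖ := hc.norm
  exact tsum_of_norm_bounded (cv_summable_aux hb' hc' n).hasSum fun m =>
    (norm_mul_le _ _).trans (mul_le_mul (hf m) (hg _) (norm_nonneg _) (hb0 m))

/-- `wt n ^ r * (b * c) n ≤ ((wt ^ r b) * (wt ^ r c)) n` for non-negative real sequences -/
theorem cv_wt_le {b c : ℤ → ℝ} (r : ℕ) (hb : Summable fun n => wt n ^ r * b n)
    (hc : Summable fun n => wt n ^ r * c n) (hb0 : ∀ n, 0 ≤ b n) (hc0 : ∀ n, 0 ≤ c n) (n : ℤ) :
    wt n ^ r * cv b c n ≤ cv (fun n => wt n ^ r * b n) (fun n => wt n ^ r * c n) n := by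
  have h1 : Summable fun m => (wt m ^ r * b m) * (wt (n - m) ^ r * c (n - m)) :=
    cv_summable_aux (f := fun n => wt n ^ r * b n) (g := fun n => wt n ^ r * c n)
      hb.norm hc.norm n
  have h2 : ∀ m, wt n ^ r * (b m * c (n - m)) ≤ (wt m ^ r * b m) * (wt (n - m) ^ r * c (n - m)) := by
    intro m
    have h3 : wt n ^ r ≤ wt m ^ r * wt (n - m) ^ r := by
      rw [← mul_pow]
      refine pow_le_pow_left₀ (wt_pos n).le ?_ r
      have h4 := wt_add m (n - m)
      rwa [add_sub_cancel] at h4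
    calc wt n ^ r * (b m * c (n - m)) ≤ (wt m ^ r * wt (n - m) ^ r) * (b m * c (n - m)) :=
          mul_le_mul_of_nonneg_right h3 (mul_nonneg (hb0 m) (hc0 _))
      _ = (wt m ^ r * b m) * (wt (n - m) ^ r * c (n - m)) := by ring
  have h5 : Summable fun m => wt n ^ r * (b m * c (n - m)) :=
    Summable.of_nonneg_of_le
      (fun m => mul_nonneg (pow_nonneg (wt_pos n).le r) (mul_nonneg (hb0 m) (hc0 _))) h2 h1
  unfold cv
  rw [← tsum_mul_left]
  exact h5.tsum_le_tsum h2 h1

theorem cv_wt_real {b c : ℤ → ℝ} (r : ℕ) (hb : Summable fun n => wt n ^ r * b n)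
    (hc : Summable fun n => wt n ^ r * c n) (hb0 : ∀ n, 0 ≤ b n) (hc0 : ∀ n, 0 ≤ c n) :
    Summable fun n => wt n ^ r * cv b c n := by
  have h1 : Summable fun n => cv (fun n => wt n ^ r * b n) (fun n => wt n ^ r * c n) n :=
    (cv_summable (f := fun n => wt n ^ r * b n) (g := fun n => wt n ^ r * c n)
      hb.norm hc.norm).of_norm
  refine Summable.of_nonneg_of_le (fun n => ?_) (cv_wt_le r hb hc hb0 hc0) h1
  exact mul_nonneg (pow_nonneg (wt_pos n).le r)
    (tsum_nonneg fun m => mul_nonneg (hb0 m) (hc0 _))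

private lemma Cv_summable_of_wt {b : ℤ → ℝ} (r : ℕ) (hb0 : ∀ n, 0 ≤ b n)
    (hb : Summable fun n => wt n ^ r * b n) : Summable b :=
  Summable.of_nonneg_of_le hb0
    (fun n => le_mul_of_one_le_left (hb0 n) (one_le_pow₀ (one_le_wt n))) hb

theorem cv_wt {f g : ℤ → E} (r : ℕ) (hf : Summable fun n => wt n ^ r * ‖f n‖)
    (hg : Summable fun n => wt n ^ r * ‖g n‖) : Summable fun n => wt n ^ r * ‖cv f g n‖ := by
  refine Summable.of_nonneg_of_le
    (fun n => mul_nonneg (pow_nonneg (wt_pos n).le r) (norm_nonneg _)) (fun n => ?_)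
    (cv_wt_real r hf hg (fun n => norm_nonneg _) (fun n => norm_nonneg _))
  exact mul_le_mul_of_nonneg_left
    (cv_dom (Cv_summable_of_wt r (fun n => norm_nonneg _) hf)
      (Cv_summable_of_wt r (fun n => norm_nonneg _) hg) (fun n => le_rfl) (fun n => le_rfl) n)
    (pow_nonneg (wt_pos n).le r)

theorem cv_add_left {f f' g : ℤ → E} (hf : Summable fun n => ‖f n‖)
    (hf' : Summable fun n => ‖f' n‖) (hg : Summable fun n => ‖g n‖) (n : ℤ) :
    cv (fun m => f m + f' m) g n = cv f g n + cv f' g n := by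
  unfold cv
  rw [← (cv_summable_aux hf hg n).tsum_add (cv_summable_aux hf' hg n)]
  exact tsum_congr fun m => add_mul _ _ _

theorem cv_sub_left {f f' g : ℤ → E} (hf : Summable fun n => ‖f n‖)
    (hf' : Summable fun n => ‖f' n‖) (hg : Summable fun n => ‖g n‖) (n : ℤ) :
    cv (fun m => f m - f' m) g n = cv f g n - cv f' g n := by
  unfold cv
  rw [← (cv_summable_aux hf hg n).tsum_sub (cv_summable_aux hf' hg n)]
  exact tsum_congr fun m => sub_mul _ _ _

/-- no summability is needed here (change of variables `m ↦ n - m`) -/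
theorem cv_comm (f g : ℤ → E) (n : ℤ) : cv f g n = cv g f n := by
  unfold cv
  rw [← (Equiv.subLeft n).tsum_eq fun m => g m * f (n - m)]
  refine tsum_congr fun m => ?_
  rw [Equiv.subLeft_apply, sub_sub_cancel, mul_comm]

theorem cv_sub_right {f g g' : ℤ → E} (hf : Summable fun n => ‖f n‖)
    (hg : Summable fun n => ‖g n‖) (hg' : Summable fun n => ‖g' n‖) (n : ℤ) :
    cv f (fun m => g m - g' m) n = cv f g n - cv f g' n := by
  rw [cv_comm, cv_sub_left hg hg' hf, cv_comm g f, cv_comm g' f]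

/-- a continuous ring homomorphism commutes with `cv` (`map_tsum`) -/
theorem cv_map {F : Type} [NormedCommRing F] (φ : E →+* F) (hφ : Continuous φ) {f g : ℤ → E}
    (hf : Summable fun n => ‖f n‖) (hg : Summable fun n => ‖g n‖) (n : ℤ) :
    φ (cv f g n) = cv (fun m => φ (f m)) (fun m => φ (g m)) n := by
  have h := ((cv_summable_aux hf hg n).hasSum.map φ hφ).tsum_eq
  unfold cv
  rw [← h]
  refine tsum_congr fun m => ?_
  rw [Function.comp_apply, map_mul]

/-- Fourier synthesis is multiplicative: for `χ (m + n) = χ m * χ n`, `‖χ‖ ≤ 1` -/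
theorem cv_char {f g : ℤ → E} {χ : ℤ → E} (hf : Summable fun n => ‖f n‖)
    (hg : Summable fun n => ‖g n‖) (hχ : ∀ n, ‖χ n‖ ≤ 1)
    (hχm : ∀ m n, χ (m + n) = χ m * χ n) :
    ∑' n, cv f g n * χ n = (∑' n, f n * χ n) * ∑' n, g n * χ n := by
  have hb : ∀ h : ℤ → E, (Summable fun n => ‖h n‖) → Summable fun n => ‖h n * χ n‖ := by
    intro h hh
    refine Summable.of_nonneg_of_le (fun n => norm_nonneg _) (fun n => ?_) hh
    exact (norm_mul_le _ _).trans (mul_le_of_le_one_right (norm_nonneg _) (hχ n))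
  rw [← Cv_tsum (hb f hf) (hb g hg)]
  refine tsum_congr fun n => ?_
  unfold cv
  rw [← (cv_summable_aux hf hg n).tsum_mul_right]
  refine tsum_congr fun m => ?_
  have h1 : χ n = χ m * χ (n - m) := by
    rw [← hχm, add_sub_cancel]
  rw [h1]
  ring

end

/-- real functions: `f (-n) = conj (f n)` is inherited by the product -/
theorem cv_conj {f g : ℤ → ℂ} (hf : ∀ n, f (-n) = conj (f n)) (hg : ∀ n, g (-n) = conj (g n))
    (n : ℤ) : cv f g (-n) = conj (cv f g n) := by
  unfold cv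
  rw [Complex.conj_tsum, ← (Equiv.neg ℤ).tsum_eq fun m => f m * g (-n - m)]
  refine tsum_congr fun m => ?_
  rw [Equiv.neg_apply, map_mul, ← hf, ← hg]
  congr 2
  ring

section
variable {E : Type} [NormedCommRing E] [NormedAlgebra ℂ E] [CompleteSpace E]

theorem cv_smul_left (c : ℂ) (f g : ℤ → E) (n : ℤ) :
    cv (fun m => c • f m) g n = c • cv f g n := by
  unfold cv
  rw [← tsum_const_smul'']
  exact tsum_congr fun m => smul_mul_assoc _ _ _

/-- the product rule on the level of coefficients (`mul n = mul m + mul (n - m)`) -/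
theorem dx_cv {f g : ℤ → E} (hf : Summable fun n => ‖f n‖) (hg : Summable fun n => ‖g n‖)
    (hf' : Summable fun n => ‖dx f n‖) (hg' : Summable fun n => ‖dx g n‖) (n : ℤ) :
    dx (cv f g) n = cv (dx f) g n + cv f (dx g) n := by
  have h1 : dx (cv f g) n = ∑' m, mul n • (f m * g (n - m)) := by
    rw [tsum_const_smul'']
    rfl
  rw [h1]
  unfold cv
  rw [← (cv_summable_aux hf' hg n).tsum_add (cv_summable_aux hf hg' n)]
  refine tsum_congr fun m => ?_
  have h2 : mul n = mul m + mul (n - m) := by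
    unfold mul
    push_cast
    ring
  rw [h2, add_smul]
  unfold dx
  rw [smul_mul_assoc, mul_smul_comm]

end

end Pool.Agent.helper22.FE
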