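import Pool.Agent.helper22.FE.Defs

/-!
# FE: the Duhamel operator for one coefficient

For `f ∈ C([0, S], ℂ)` and `l ≥ 0`: `duh l f (t) = ∫₀ᵗ e^{-l (t - s)} f(s) ds`.
-/

set_option autoImplicit false

open scoped Real ComplexConjugate
open Set

namespace Pool.Agent.helper22.FE

/-- `e^{-l t} a` -/
noncomputable def fre (S l : ℝ) (a : ℂ) : C(Icc (0 : ℝ) S, ℂ) :=
  ⟨fun t => (Real.exp (-(l * t)) : ℂ) * a, by fun_prop⟩

/-- `∫₀ᵗ e^{-l (t - s)} f(s) ds` -/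
noncomputable def duhF (S : ℝ) (hS : 0 ≤ S) (l : ℝ) (f : C(Icc (0 : ℝ) S, ℂ)) (t : ℝ) : ℂ :=
  ∫ s in (0 : ℝ)..t, (Real.exp (-(l * (t - s))) : ℂ) * IccExtend hS f s

private lemma Duh_ext_cont (S : ℝ) (hS : 0 ≤ S) (f : C(Icc (0 : ℝ) S, ℂ)) :
    Continuous (IccExtend hS f) := f.continuous.Icc_extend'

private lemma Duh_ext_norm (S : ℝ) (hS : 0 ≤ S) (f : C(Icc (0 : ℝ) S, ℂ)) (s : ℝ) :
    ‖IccExtend hS f s‖ ≤ ‖f‖ := f.norm_coe_le_norm _

private lemma Duh_eq (S : ℝ) (hS : 0 ≤ S) (l : ℝ) (f : C(Icc (0 : ℝ) S, ℂ)) (t : ℝ) :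
    duhF S hS l f t =
      (Real.exp (-(l * t)) : ℂ) * ∫ s in (0 : ℝ)..t, (Real.exp (l * s) : ℂ) * IccExtend hS f s := by
  rw [duhF, ← intervalIntegral.integral_const_mul]
  refine intervalIntegral.integral_congr fun s _ => ?_
  change (Real.exp (-(l * (t - s))) : ℂ) * IccExtend hS f s =
    (Real.exp (-(l * t)) : ℂ) * ((Real.exp (l * s) : ℂ) * IccExtend hS f s)
  rw [← mul_assoc, ← Complex.ofReal_mul, ← Real.exp_add]
  congr 3
  ring

private lemma Duh_exp_deriv (l t : ℝ) :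
    HasDerivAt (fun t : ℝ => (Real.exp (-(l * t)) : ℂ)) (-(l : ℂ) * (Real.exp (-(l * t)) : ℂ)) t := by
  have h1 : HasDerivAt (fun t : ℝ => Real.exp (-(l * t))) (Real.exp (-(l * t)) * (-(l * 1))) t :=
    ((hasDerivAt_id t).const_mul l).neg.exp
  have h2 := h1.ofReal_comp
  have h3 : ((Real.exp (-(l * t)) * (-(l * 1)) : ℝ) : ℂ) = -(l : ℂ) * (Real.exp (-(l * t)) : ℂ) := by
    push_cast
    ring
  rw [h3] at h2
  exact h2

private lemma Duh_hasDerivAt (S : ℝ) (hS : 0 ≤ S) (l : ℝ) (f : C(Icc (0 : ℝ) S, ℂ)) (t : ℝ) :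
    HasDerivAt (duhF S hS l f) (-(l : ℂ) * duhF S hS l f t + IccExtend hS f t) t := by
  have hc : Continuous fun s : ℝ => (Real.exp (l * s) : ℂ) * IccExtend hS f s := by
    refine Continuous.mul ?_ (Duh_ext_cont S hS f)
    fun_prop
  have h1 : HasDerivAt (fun u => ∫ s in (0 : ℝ)..u, (Real.exp (l * s) : ℂ) * IccExtend hS f s)
      ((Real.exp (l * t) : ℂ) * IccExtend hS f t) t :=
    (hc.integral_hasStrictDerivAt 0 t).hasDerivAt
  have h2 := (Duh_exp_deriv l t).mul h1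
  have h3 : duhF S hS l f = (fun t : ℝ => (Real.exp (-(l * t)) : ℂ)) *
      (fun u => ∫ s in (0 : ℝ)..u, (Real.exp (l * s) : ℂ) * IccExtend hS f s) := by
    funext u
    exact Duh_eq S hS l f u
  have h4 : -(l : ℂ) * (Real.exp (-(l * t)) : ℂ) *
      (∫ s in (0 : ℝ)..t, (Real.exp (l * s) : ℂ) * IccExtend hS f s) +
      (Real.exp (-(l * t)) : ℂ) * ((Real.exp (l * t) : ℂ) * IccExtend hS f t) =
      -(l : ℂ) * duhF S hS l f t + IccExtend hS f t := by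
    rw [Duh_eq, mul_assoc, ← mul_assoc (Real.exp (-(l * t)) : ℂ), ← Complex.ofReal_mul,
      ← Real.exp_add, neg_add_cancel, Real.exp_zero, Complex.ofReal_one, one_mul]
  rw [h4, ← h3] at h2
  exact h2

/-- continuity (write `e^{-l(t-s)} = e^{-lt} e^{ls}` and use
`intervalIntegral.continuous_primitive` / `integral_hasDerivAt_right`) -/
theorem duhF_cont (S : ℝ) (hS : 0 ≤ S) (l : ℝ) (f : C(Icc (0 : ℝ) S, ℂ)) :
    Continuous (duhF S hS l f) :=
  continuous_iff_continuousAt.mpr fun t => (Duh_hasDerivAt S hS l f t).continuousAt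

noncomputable def duh (S : ℝ) (hS : 0 ≤ S) (l : ℝ) (f : C(Icc (0 : ℝ) S, ℂ)) :
    C(Icc (0 : ℝ) S, ℂ) :=
  ⟨fun t => duhF S hS l f t, (duhF_cont S hS l f).comp continuous_subtype_val⟩

theorem norm_fre_le (S l : ℝ) (hS : 0 ≤ S) (hl : 0 ≤ l) (a : ℂ) : ‖fre S l a‖ ≤ ‖a‖ := by
  rw [ContinuousMap.norm_le _ (norm_nonneg _)]
  intro t
  change ‖(Real.exp (-(l * (t : ℝ))) : ℂ) * a‖ ≤ ‖a‖
  rw [norm_mul, Complex.norm_real, Real.norm_of_nonneg (Real.exp_pos _).le]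
  have h : Real.exp (-(l * (t : ℝ))) ≤ 1 := by
    rw [Real.exp_le_one_iff]
    have := mul_nonneg hl t.2.1
    linarith
  exact mul_le_of_le_one_left (norm_nonneg _) h

theorem duh_sub (S : ℝ) (hS : 0 ≤ S) (l : ℝ) (f g : C(Icc (0 : ℝ) S, ℂ)) :
    duh S hS l (f - g) = duh S hS l f - duh S hS l g := by
  refine ContinuousMap.ext fun t => ?_
  change duhF S hS l (f - g) t = duhF S hS l f t - duhF S hS l g t
  have hc : ∀ f : C(Icc (0 : ℝ) S, ℂ), Continuous fun s : ℝ =>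
      (Real.exp (-(l * ((t : ℝ) - s))) : ℂ) * IccExtend hS f s := by
    intro f
    refine Continuous.mul ?_ (Duh_ext_cont S hS f)
    fun_prop
  rw [duhF, duhF, duhF, ← intervalIntegral.integral_sub ((hc f).intervalIntegrable _ _)
    ((hc g).intervalIntegrable _ _)]
  refine intervalIntegral.integral_congr fun s _ => ?_
  change _ * (IccExtend hS f s - IccExtend hS g s) = _
  rw [mul_sub]

/-- `‖duh f‖ ≤ S ‖f‖` -/
theorem norm_duh_le (S : ℝ) (hS : 0 ≤ S) (l : ℝ) (hl : 0 ≤ l) (f : C(Icc (0 : ℝ) S, ℂ)) :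
    ‖duh S hS l f‖ ≤ S * ‖f‖ := by
  rw [ContinuousMap.norm_le _ (mul_nonneg hS (norm_nonneg _))]
  intro t
  change ‖duhF S hS l f t‖ ≤ S * ‖f‖
  have h1 : ∀ s ∈ Set.uIoc (0 : ℝ) (t : ℝ),
      ‖(Real.exp (-(l * ((t : ℝ) - s))) : ℂ) * IccExtend hS f s‖ ≤ ‖f‖ := by
    intro s hs
    rw [Set.uIoc_of_le t.2.1] at hs
    rw [norm_mul, Complex.norm_real, Real.norm_of_nonneg (Real.exp_pos _).le]
    have h : Real.exp (-(l * ((t : ℝ) - s))) ≤ 1 := by
      rw [Real.exp_le_one_iff]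
      have := mul_nonneg hl (sub_nonneg.mpr hs.2)
      linarith
    exact (mul_le_of_le_one_left (norm_nonneg _) h).trans (Duh_ext_norm S hS f s)
  have h2 := intervalIntegral.norm_integral_le_of_norm_le_const h1
  rw [sub_zero, abs_of_nonneg t.2.1, mul_comm] at h2
  exact h2.trans (mul_le_mul_of_nonneg_right t.2.2 (norm_nonneg _))

/-- `l ‖duh f‖ ≤ ‖f‖`, from `∫₀ᵗ l e^{-l(t-s)} ds ≤ 1` -/
theorem norm_duh_le' (S : ℝ) (hS : 0 ≤ S) (l : ℝ) (hl : 0 ≤ l) (f : C(Icc (0 : ℝ) S, ℂ)) :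
    l * ‖duh S hS l f‖ ≤ ‖f‖ := by
  rcases hl.eq_or_lt with h0 | hl0
  · rw [← h0, zero_mul]
    exact norm_nonneg _
  rw [← le_div_iff₀' hl0, ContinuousMap.norm_le _ (by positivity)]
  intro t
  change ‖duhF S hS l f t‖ ≤ ‖f‖ / l
  rw [le_div_iff₀' hl0]
  have hc : Continuous fun s : ℝ => Real.exp (-(l * ((t : ℝ) - s))) * ‖f‖ := by fun_prop
  have h1 : ‖duhF S hS l f t‖ ≤ ∫ s in (0 : ℝ)..t, Real.exp (-(l * ((t : ℝ) - s))) * ‖f‖ := by
    refine intervalIntegral.norm_integral_le_of_norm_le t.2.1 ?_ (hc.intervalIntegrable _ _)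
    refine Filter.Eventually.of_forall fun s _ => ?_
    rw [norm_mul, Complex.norm_real, Real.norm_of_nonneg (Real.exp_pos _).le]
    exact mul_le_mul_of_nonneg_left (Duh_ext_norm S hS f s) (Real.exp_pos _).le
  have h2 : ∫ s in (0 : ℝ)..t, l * (Real.exp (-(l * ((t : ℝ) - s))) * ‖f‖) =
      Real.exp (-(l * ((t : ℝ) - t))) * ‖f‖ - Real.exp (-(l * ((t : ℝ) - 0))) * ‖f‖ := by
    refine intervalIntegral.integral_eq_sub_of_hasDerivAt (f := fun s : ℝ =>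
      Real.exp (-(l * ((t : ℝ) - s))) * ‖f‖) ?_ ((hc.const_mul l).intervalIntegrable _ _)
    intro s _
    have h3 : HasDerivAt (fun s : ℝ => -(l * ((t : ℝ) - s))) (-(l * (-1))) s :=
      (((hasDerivAt_id s).const_sub (t : ℝ)).const_mul l).neg
    have h4 := h3.exp.mul_const ‖f‖
    have h5 : Real.exp (-(l * ((t : ℝ) - s))) * (-(l * (-1))) * ‖f‖ =
        l * (Real.exp (-(l * ((t : ℝ) - s))) * ‖f‖) := by ring
    rw [h5] at h4
    exact h4
  rw [intervalIntegral.integral_const_mul, sub_self, mul_zero, neg_zero, Real.exp_zero,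
    one_mul] at h2
  calc l * ‖duhF S hS l f t‖
      ≤ l * ∫ s in (0 : ℝ)..t, Real.exp (-(l * ((t : ℝ) - s))) * ‖f‖ :=
        mul_le_mul_of_nonneg_left h1 hl
    _ = ‖f‖ - Real.exp (-(l * ((t : ℝ) - 0))) * ‖f‖ := h2
    _ ≤ ‖f‖ := by
        have := mul_nonneg (Real.exp_pos (-(l * ((t : ℝ) - 0)))).le (norm_nonneg f)
        linarith

/-- the equation: if `v = fre a + duh f` in `C([0, S])` then `v' = - l v + f` on `[0, S]`,
`v 0 = a` (here for `v` extended to `ℝ`) -/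
theorem fre_duh_deriv (S : ℝ) (hS : 0 ≤ S) (l : ℝ) (a : ℂ) (f v : C(Icc (0 : ℝ) S, ℂ))
    (hv : v = fre S l a + duh S hS l f) (t : ℝ) (ht : t ∈ Icc 0 S) :
    HasDerivWithinAt (IccExtend hS v) (-(l : ℂ) * IccExtend hS v t + IccExtend hS f t)
      (Icc 0 S) t := by
  have hval : ∀ u (hu : u ∈ Icc (0 : ℝ) S), IccExtend hS v u =
      (Real.exp (-(l * u)) : ℂ) * a + duhF S hS l f u := by
    intro u hu
    rw [IccExtend_of_mem hS v hu, hv]
    rfl
  have h1 : HasDerivAt (fun u : ℝ => (Real.exp (-(l * u)) : ℂ) * a + duhF S hS l f u)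
      (-(l : ℂ) * (Real.exp (-(l * t)) : ℂ) * a +
        (-(l : ℂ) * duhF S hS l f t + IccExtend hS f t)) t :=
    ((Duh_exp_deriv l t).mul_const a).add (Duh_hasDerivAt S hS l f t)
  have h2 : -(l : ℂ) * (Real.exp (-(l * t)) : ℂ) * a +
        (-(l : ℂ) * duhF S hS l f t + IccExtend hS f t) =
      -(l : ℂ) * IccExtend hS v t + IccExtend hS f t := by
    rw [hval t ht]
    ring
  rw [h2] at h1
  exact (h1.hasDerivWithinAt (s := Icc 0 S)).congr hval (hval t ht)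

theorem fre_duh_zero (S : ℝ) (hS : 0 ≤ S) (l : ℝ) (a : ℂ) (f v : C(Icc (0 : ℝ) S, ℂ))
    (hv : v = fre S l a + duh S hS l f) : IccExtend hS v 0 = a := by
  have h0 : (0 : ℝ) ∈ Icc (0 : ℝ) S := ⟨le_refl _, hS⟩
  rw [IccExtend_of_mem hS v h0, hv]
  change (Real.exp (-(l * 0)) : ℂ) * a + duhF S hS l f 0 = a
  rw [duhF, intervalIntegral.integral_same, mul_zero, neg_zero, Real.exp_zero,
    Complex.ofReal_one, one_mul, add_zero]

/-- conjugation commutes with `duh` -/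
theorem duh_star (S : ℝ) (hS : 0 ≤ S) (l : ℝ) (f : C(Icc (0 : ℝ) S, ℂ)) :
    duh S hS l (star f) = star (duh S hS l f) := by
  refine ContinuousMap.ext fun t => ?_
  change duhF S hS l (star f) t = conj (duhF S hS l f t)
  have h1 : ∀ s : ℝ, (Real.exp (-(l * ((t : ℝ) - s))) : ℂ) * IccExtend hS (star f) s =
      conj ((Real.exp (-(l * ((t : ℝ) - s))) : ℂ) * IccExtend hS f s) := by
    intro s
    rw [map_mul, Complex.conj_ofReal]
    rfl
  have h2 : ∀ g : ℝ → ℂ, (∫ s in (0 : ℝ)..t, conj (g s)) = conj (∫ s in (0 : ℝ)..t, g s) := by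
    intro g
    rw [intervalIntegral, intervalIntegral, integral_conj, integral_conj, map_sub]
  rw [duhF, duhF, ← h2]
  exact intervalIntegral.integral_congr fun s _ => h1 s

end Pool.Agent.helper22.FE
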