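import Pool.Agent.helper22.FE.Pri

/-!
# FE: evolution of the integrals

All from `Sm.hasDerivAt_int` (differentiation under `∫₀¹`, helper19/EL/Slice), `Sm.cont_int`,
the equation `W_t`, and integration by parts for periodic functions
(`integral_mul_deriv_eq_deriv_mul`; boundary terms cancel by periodicity).

`G' = 2 ∫ W ∂_x flux = -2 ∫ W_x flux = 2 ∫ W_x W_xxx + 5 ∫ W² W_x² - 2 ∫ W W_x P
    = -2 ∫ W_xx² + 5 ∫ W² W_x² + ∫ W² P_x = -2 ∫ W_xx² + 6 ∫ W² W_x² - ½ ∫ W⁶ - m G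
    = -2 ∫ (W_xx + W³/2)² - m G`   (as `∫ W_xx W³ = -3 ∫ W² W_x²`).
-/

set_option autoImplicit false

open scoped Real ContDiff
open Set
open Pool.Agent.helper19.EL (Sm pu pt)

namespace Pool.Agent.helper22.FE

/-- `Q = W_xx + W³/2` -/
noncomputable def QQ (W : ℝ → ℝ → ℝ) (x t : ℝ) : ℝ := pu (pu W) x t + W x t ^ 3 / 2

section
variable {S : ℝ} {W P : ℝ → ℝ → ℝ}

private theorem En_int_eq {f g F : ℝ → ℝ} (hf : Continuous f) (hg : Continuous g)
    (hF : ∀ x, HasDerivAt F (f x - g x) x) (h1 : F 1 = F 0) :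
    ∫ x in (0 : ℝ)..1, f x = ∫ x in (0 : ℝ)..1, g x := by
  have h2 := intervalIntegral.integral_eq_sub_of_hasDerivAt (a := (0 : ℝ)) (b := 1)
    (fun x _ => hF x) ((hf.sub hg).intervalIntegrable _ _)
  rw [intervalIntegral.integral_sub (hf.intervalIntegrable _ _) (hg.intervalIntegrable _ _), h1,
    sub_self] at h2
  linarith

private theorem En_const {g : ℝ → ℝ} {S : ℝ} (hc : ContinuousOn g (Ico 0 S))
    (hd : ∀ t ∈ Ioo 0 S, HasDerivAt g 0 t) {t : ℝ} (ht : t ∈ Ico 0 S) : g t = g 0 := by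
  rcases eq_or_lt_of_le ht.1 with h0 | h0
  · rw [← h0]
  · obtain ⟨c, _, hc2⟩ := exists_hasDerivAt_eq_slope g (fun _ => 0) h0
      (hc.mono fun x hx => ⟨hx.1, lt_of_le_of_lt hx.2 ht.2⟩)
      (fun x hx => hd x ⟨hx.1, hx.2.trans ht.2⟩)
    have h3 : t - 0 ≠ 0 := by linarith
    rw [eq_div_iff h3, zero_mul] at hc2
    linarith

private theorem En_pow {f : ℝ → ℝ → ℝ} (hf : Sm S f) (n : ℕ) : Sm S (fun x t => f x t ^ n) :=
  ContDiffOn.pow hf n

theorem FSol.sm_flux (h : FSol S W P) : Sm S (flux W P) := by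
  have h0 : ContDiffOn ℝ ∞ (fun p : ℝ × ℝ => W p.1 p.2) (univ ×ˢ Ico 0 S) := h.smW
  have h1 : ContDiffOn ℝ ∞ (fun p : ℝ × ℝ => pu W p.1 p.2) (univ ×ˢ Ico 0 S) := h.smW.pu
  have h3 : ContDiffOn ℝ ∞ (fun p : ℝ × ℝ => pu (pu (pu W)) p.1 p.2) (univ ×ˢ Ico 0 S) :=
    h.smW.pu.pu.pu
  have hP : ContDiffOn ℝ ∞ (fun p : ℝ × ℝ => P p.1 p.2) (univ ×ˢ Ico 0 S) := h.smP
  exact (h3.neg.sub ((contDiffOn_const.mul (h0.pow 2)).mul h1)).add (h0.mul hP)

theorem FSol.sm_mm (h : FSol S W P) : Sm S (fun _ t => mm W t) := by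
  have h0 : ContDiffOn ℝ ∞ (fun p : ℝ × ℝ => W p.1 p.2) (univ ×ˢ Ico 0 S) := h.smW
  have h1 : ContDiffOn ℝ ∞ (fun p : ℝ × ℝ => pu W p.1 p.2) (univ ×ˢ Ico 0 S) := h.smW.pu
  have h2 : Sm S (fun x t => pu W x t ^ 2 - W x t ^ 4 / 2) :=
    (h1.pow 2).sub ((h0.pow 4).div_const 2)
  exact Sm.mean h2

/-- periodicity of the derivatives -/
theorem per_pu {f : ℝ → ℝ → ℝ} {t : ℝ} (hf : ∀ x, f (x + 1) t = f x t) (x : ℝ) :
    pu f (x + 1) t = pu f x t := by
  unfold pu
  have h1 := deriv_comp_add_const (fun u' => f u' t) 1 x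
  rw [← h1]
  congr 1
  funext y
  exact hf y

private theorem En_one {f : ℝ → ℝ → ℝ} {t : ℝ} (hf : ∀ x, f (x + 1) t = f x t) :
    f 1 t = f 0 t := by
  have := hf 0
  rwa [zero_add] at this

private theorem En_perF (h : FSol S W P) {t : ℝ} (ht : t ∈ Ico 0 S) (x : ℝ) :
    flux W P (x + 1) t = flux W P x t := by
  have p0 := h.perW t ht
  have p1 := per_pu p0
  have p3 := per_pu (per_pu p1)
  unfold flux
  rw [p0, p1, p3, h.perP t ht]

private theorem En_int_flux (h : FSol S W P) {t : ℝ} (ht : t ∈ Ico 0 S) :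
    ∫ x in (0 : ℝ)..1, pu (flux W P) x t = 0 := by
  have h1 := En_int_eq (f := fun x => pu (flux W P) x t) (g := fun _ => 0)
    (F := fun x => flux W P x t) (h.sm_flux.pu.cont_u ht) continuous_const
    (fun x => by rw [sub_zero]; exact h.sm_flux.hasDerivAt_u ht x) (En_one (En_perF h ht))
  rw [h1]
  simp

theorem FSol.mean (h : FSol S W P) {t : ℝ} (ht : t ∈ Ico 0 S) :
    ∫ x in (0 : ℝ)..1, W x t = ∫ x in (0 : ℝ)..1, W x 0 := by
  refine En_const (g := fun t => ∫ x in (0 : ℝ)..1, W x t) h.smW.cont_int ?_ ht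
  intro s hs
  have h1 := h.smW.hasDerivAt_int hs
  have h2 : ∫ x in (0 : ℝ)..1, pt W x s = 0 := by
    rw [show (fun x => pt W x s) = fun x => pu (flux W P) x s from
      funext fun x => h.W_t s hs x]
    exact En_int_flux h ⟨hs.1.le, hs.2⟩
  rw [h2] at h1
  exact h1

/-- `∫ W Q = - m` -/
theorem FSol.int_WQ (h : FSol S W P) {t : ℝ} (ht : t ∈ Ico 0 S) :
    ∫ x in (0 : ℝ)..1, W x t * QQ W x t = -mm W t := by
  have c0 := h.smW.cont_u ht
  have c1 := h.smW.pu.cont_u ht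
  have c2 := h.smW.pu.pu.cont_u ht
  rw [mm, ← intervalIntegral.integral_neg]
  refine En_int_eq (F := fun x => W x t * pu W x t) ?_ ?_ ?_ ?_
  · unfold QQ
    exact c0.mul (c2.add ((c0.pow 3).div_const 2))
  · exact ((c1.pow 2).sub ((c0.pow 4).div_const 2)).neg
  · intro x
    have d := (h.smW.hasDerivAt_u ht x).mul (h.smW.pu.hasDerivAt_u ht x)
    refine d.congr_deriv ?_
    simp only [QQ]
    ring
  · rw [En_one (h.perW t ht), En_one (per_pu (h.perW t ht))]

theorem FSol.G' (h : FSol S W P) {t : ℝ} (ht : t ∈ Ioo 0 S) :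
    HasDerivAt (GG W) (-(2 * ∫ x in (0 : ℝ)..1, QQ W x t ^ 2) - mm W t * GG W t) t := by
  have ht' : t ∈ Ico 0 S := ⟨ht.1.le, ht.2⟩
  have h1 := (En_pow h.smW 2).hasDerivAt_int ht
  have c0 := h.smW.cont_u ht'
  have c2 := h.smW.pu.pu.cont_u ht'
  have cf := h.sm_flux.pu.cont_u ht'
  have cQ : Continuous fun x => QQ W x t := by
    unfold QQ
    exact c2.add ((c0.pow 3).div_const 2)
  have h2 : ∀ x, pt (fun x t => W x t ^ 2) x t = 2 * W x t * pu (flux W P) x t := by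
    intro x
    have d := (h.smW.hasDerivAt_t ht x).pow 2
    rw [h.W_t t ht x] at d
    have d2 := d.deriv
    unfold pt
    rw [show (fun t' => W x t' ^ 2) = ((fun t' => W x t') ^ 2) from rfl, d2]
    simp
  have h3 : ∫ x in (0 : ℝ)..1, pt (fun x t => W x t ^ 2) x t =
      -(2 * ∫ x in (0 : ℝ)..1, QQ W x t ^ 2) - mm W t * GG W t := by
    have h4 : -(2 * ∫ x in (0 : ℝ)..1, QQ W x t ^ 2) - mm W t * GG W t =
        ∫ x in (0 : ℝ)..1, (-(2 * QQ W x t ^ 2) - mm W t * W x t ^ 2) := by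
      rw [intervalIntegral.integral_sub, intervalIntegral.integral_neg,
        intervalIntegral.integral_const_mul, intervalIntegral.integral_const_mul, GG]
      · exact ((continuous_const.mul (cQ.pow 2)).neg).intervalIntegrable _ _
      · exact (continuous_const.mul (c0.pow 2)).intervalIntegrable _ _
    rw [h4]
    have h5 : ∫ x in (0 : ℝ)..1, pt (fun x t => W x t ^ 2) x t =
        ∫ x in (0 : ℝ)..1, 2 * W x t * pu (flux W P) x t := by
      congr 1
      funext x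
      exact h2 x
    rw [h5]
    refine En_int_eq (F := fun x => 2 * (W x t * flux W P x t) + 2 * (pu W x t * pu (pu W) x t) -
      W x t ^ 2 * P x t + 2 * (W x t ^ 3 * pu W x t)) ?_ ?_ ?_ ?_
    · exact (continuous_const.mul c0).mul cf
    · exact (continuous_const.mul (cQ.pow 2)).neg.sub (continuous_const.mul (c0.pow 2))
    · intro x
      have d0 := h.smW.hasDerivAt_u ht' x
      have d1 := h.smW.pu.hasDerivAt_u ht' x
      have d2 := h.smW.pu.pu.hasDerivAt_u ht' x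
      have df := h.sm_flux.hasDerivAt_u ht' x
      have dP := h.smP.hasDerivAt_u ht' x
      rw [h.P_x t ht' x] at dP
      have d := ((((d0.mul df).const_mul 2).add ((d1.mul d2).const_mul 2)).sub
        ((d0.pow 2).mul dP)).add (((d0.pow 3).mul d1).const_mul 2)
      refine d.congr_deriv ?_
      simp only [QQ, flux, Pi.pow_apply]
      push_cast
      ring
    · rw [En_one (h.perW t ht'), En_one (per_pu (h.perW t ht')),
        En_one (per_pu (per_pu (h.perW t ht'))), En_one (En_perF h ht'), En_one (h.perP t ht')]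
  rw [h3] at h1
  exact h1

private theorem En_pt1 (h : FSol S W P) {t : ℝ} (ht : t ∈ Ioo 0 S) (x : ℝ) :
    pt (pu W) x t = pu (pu (flux W P)) x t := by
  have h1 := (h.smW.comm ht x).deriv
  rw [← h1]
  unfold pu
  congr 1
  funext y
  exact h.W_t t ht y

private theorem En_pt2 (h : FSol S W P) {t : ℝ} (ht : t ∈ Ioo 0 S) (x : ℝ) :
    pt (pu (pu W)) x t = pu (pu (pu (flux W P))) x t := by
  have h1 := (h.smW.pu.comm ht x).deriv
  rw [← h1]
  show deriv (fun u' => pt (pu W) u' t) x = deriv (fun u' => pu (pu (flux W P)) u' t) x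
  congr 1
  funext y
  exact En_pt1 h ht y

theorem FSol.H' (h : FSol S W P) {t : ℝ} (ht : t ∈ Ioo 0 S) :
    HasDerivAt (HH W) (2 * ∫ x in (0 : ℝ)..1, pu (pu (pu (pu W))) x t * pu (flux W P) x t) t := by
  have ht' : t ∈ Ico 0 S := ⟨ht.1.le, ht.2⟩
  have h1 := (En_pow h.smW.pu.pu 2).hasDerivAt_int ht
  have h2 : ∀ x, pt (fun x t => pu (pu W) x t ^ 2) x t =
      2 * pu (pu W) x t * pu (pu (pu (flux W P))) x t := by
    intro x
    have d := (h.smW.pu.pu.hasDerivAt_t ht x).pow 2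
    rw [En_pt2 h ht x] at d
    have d2 := d.deriv
    unfold pt
    rw [show (fun t' => pu (pu W) x t' ^ 2) = ((fun t' => pu (pu W) x t') ^ 2) from rfl, d2]
    simp
  have h3 : ∫ x in (0 : ℝ)..1, pt (fun x t => pu (pu W) x t ^ 2) x t =
      2 * ∫ x in (0 : ℝ)..1, pu (pu (pu (pu W))) x t * pu (flux W P) x t := by
    rw [← intervalIntegral.integral_const_mul]
    have h5 : ∫ x in (0 : ℝ)..1, pt (fun x t => pu (pu W) x t ^ 2) x t =
        ∫ x in (0 : ℝ)..1, 2 * pu (pu W) x t * pu (pu (pu (flux W P))) x t := by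
      congr 1
      funext x
      exact h2 x
    rw [h5]
    have p2 := per_pu (per_pu (h.perW t ht'))
    have q1 := per_pu (En_perF h ht')
    refine En_int_eq (F := fun x => 2 * (pu (pu W) x t * pu (pu (flux W P)) x t -
      pu (pu (pu W)) x t * pu (flux W P) x t)) ?_ ?_ ?_ ?_
    · exact (continuous_const.mul (h.smW.pu.pu.cont_u ht')).mul (h.sm_flux.pu.pu.pu.cont_u ht')
    · exact continuous_const.mul ((h.smW.pu.pu.pu.pu.cont_u ht').mul (h.sm_flux.pu.cont_u ht'))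
    · intro x
      have d2 := h.smW.pu.pu.hasDerivAt_u ht' x
      have d3 := h.smW.pu.pu.pu.hasDerivAt_u ht' x
      have f1 := h.sm_flux.pu.hasDerivAt_u ht' x
      have f2 := h.sm_flux.pu.pu.hasDerivAt_u ht' x
      have d := ((d2.mul f2).sub (d3.mul f1)).const_mul 2
      refine d.congr_deriv ?_
      ring
    · rw [En_one p2, En_one (per_pu p2), En_one q1, En_one (per_pu q1)]
  rw [h3] at h1
  exact h1

theorem FSol.cG (h : FSol S W P) : ContinuousOn (GG W) (Ico 0 S) :=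
  (En_pow h.smW 2).cont_int

theorem FSol.cH (h : FSol S W P) : ContinuousOn (HH W) (Ico 0 S) :=
  (En_pow h.smW.pu.pu 2).cont_int

theorem FSol.cm (h : FSol S W P) : ContinuousOn (mm W) (Ico 0 S) :=
  (Sm.to_t h.sm_mm).continuousOn

/-- the length: smooth, positive, `L' = - m L` -/
theorem FSol.sm_Len (h : FSol S W P) (L0 : ℝ) : Sm S (fun _ t => Len L0 W t) := by
  have h1 := Sm.comp1 (Sm.primt h.sm_mm) (g := fun y : ℝ => L0 * Real.exp (-y)) (by fun_prop)
  exact h1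

theorem FSol.Len' (h : FSol S W P) (L0 : ℝ) {t : ℝ} (ht : t ∈ Ioo 0 S) :
    HasDerivAt (Len L0 W) (-mm W t * Len L0 W t) t := by
  have h1 := ((Sm.primt_hasDerivAt h.sm_mm ht 0).neg.exp).const_mul L0
  refine h1.congr_deriv ?_
  rw [Len]
  simp only [Pi.neg_apply]
  ring

theorem Len_pos {L0 : ℝ} (hL : 0 < L0) (W : ℝ → ℝ → ℝ) (t : ℝ) : 0 < Len L0 W t :=
  mul_pos hL (Real.exp_pos _)

theorem Len_zero (L0 : ℝ) (W : ℝ → ℝ → ℝ) : Len L0 W 0 = L0 := by
  simp [Len]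

theorem FSol.tt' (h : FSol S W P) (L0 : ℝ) {t : ℝ} (ht : t ∈ Ioo 0 S) :
    HasDerivAt (tt L0 W) (Len L0 W t ^ 4) t :=
  Sm.primt_hasDerivAt (En_pow (h.sm_Len L0) 4) ht 0

theorem FSol.ctt (h : FSol S W P) (L0 : ℝ) : ContinuousOn (tt L0 W) (Ico 0 S) :=
  (Sm.to_t (g := tt L0 W) (Sm.primt (En_pow (h.sm_Len L0) 4))).continuousOn

end

end Pool.Agent.helper22.FE
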