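import Pool.Agent.helper22.FE.Cv
import Pool.Agent.helper22.FE.Duh

/-!
# FE: the fixed point

The Banach space is `l¹(ℤ; C([0, S], ℂ))` (`lp (fun _ : ℤ => C(Icc 0 S, ℂ)) 1`), the unknown is
`y n = wt n • w n`.

Proof of `exists_fix`.  Let `E = C([0, S], ℂ)`, `‖y‖ = ∑ ‖y n‖`, `w n = (wt n)⁻¹ y n`.  Then
`∑ ‖w n‖ ≤ ‖y‖`, `∑ ‖dx w n‖ ≤ 2π ‖y‖ ≤ 7 ‖y‖`, and `‖ix f n‖ ≤ ‖f n‖` (`|mul n|⁻¹ ≤ 1`, also for
`n = 0`).  By `cv_norm_le`, for `‖y‖, ‖y'‖ ≤ 2 M`, `M ≥ 1`: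
  `∑ ‖Fl w n‖ ≤ 18 ‖y‖³ + 49 ‖y‖³ + ‖y‖⁵ ≤ 70 (2M)⁴ ‖y‖`,
  `∑ ‖Fl w n - Fl w' n‖ ≤ 400 (2M)⁴ ‖y - y'‖` (any explicit constant `C M⁴` will do).
The Duhamel term `n ↦ wt n • duh (lam n) (mul n • f n)` has norm
`≤ wt n |mul n| min(S, 1/lam n) ‖f n‖ ≤ 2 √S ‖f n‖`: for `n = 0` it is zero, for `n ≠ 0`
`wt n |mul n| ≤ 4π n²` and `min(S, 1/λ) ≤ √S / √λ = √S / (4π² n²)`.  With `S` so small that
`2 √S · 400 (2M)⁴ ≤ 1/2` the map `y ↦ (wt n • fre a n) + Duhamel` sends the closed ball of radius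
`2M` into itself (`‖wt • fre a‖ ≤ nrm1 a ≤ M`) and is a contraction there
(`ContractingWith.exists_fixedPoint'` on a complete set, or `exists_fixedPoint` on the subtype).
-/

set_option autoImplicit false

open scoped Real ComplexConjugate
open Set

namespace Pool.Agent.helper22.FE

/-- a mild solution on `[0, S]` with the initial coefficients `a` -/
def IsFix (S : ℝ) (hS : 0 ≤ S) (a : ℤ → ℂ) (w : ℤ → C(Icc (0 : ℝ) S, ℂ)) : Prop :=
  ∀ n, w n = fre S (lam n) (a n) + duh S hS (lam n) (dx (Fl w) n)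


/-! ### auxiliary lemmas -/

theorem fix_sum_le {u v : ℤ → ℝ} {c R : ℝ} (hc : 0 ≤ c) (hu : ∀ n, 0 ≤ u n)
    (h : ∀ n, u n ≤ c * v n) (hv : Summable v) (hr : ∑' n, v n ≤ R) :
    Summable u ∧ ∑' n, u n ≤ c * R := by
  have h1 : Summable fun n => c * v n := hv.mul_left c
  have h2 : Summable u := Summable.of_nonneg_of_le hu h h1
  refine ⟨h2, (Summable.tsum_le_tsum h h2 h1).trans ?_⟩
  rw [tsum_mul_left]
  exact mul_le_mul_of_nonneg_left hr hc

theorem fix_sum_add {u v v' : ℤ → ℝ} {R R' : ℝ} (hu : ∀ n, 0 ≤ u n)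
    (h : ∀ n, u n ≤ v n + v' n) (hv : Summable v) (hr : ∑' n, v n ≤ R)
    (hv' : Summable v') (hr' : ∑' n, v' n ≤ R') :
    Summable u ∧ ∑' n, u n ≤ R + R' := by
  have h1 : Summable fun n => v n + v' n := hv.add hv'
  have h2 : Summable u := Summable.of_nonneg_of_le hu h h1
  refine ⟨h2, (Summable.tsum_le_tsum h h2 h1).trans ?_⟩
  rw [hv.tsum_add hv']
  exact add_le_add hr hr'

section
variable {E : Type} [NormedCommRing E] [NormedAlgebra ℂ E] [CompleteSpace E]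

/-- two summable sequences of norm at most `R` at distance at most `d` -/
structure FixGd (f f' : ℤ → E) (R d : ℝ) : Prop where
  s : Summable fun n => ‖f n‖
  s' : Summable fun n => ‖f' n‖
  sd : Summable fun n => ‖f n - f' n‖
  r : ∑' n, ‖f n‖ ≤ R
  r' : ∑' n, ‖f' n‖ ≤ R
  rd : ∑' n, ‖f n - f' n‖ ≤ d

theorem FixGd.cv {f f' g g' : ℤ → E} {R d R' d' : ℝ} (h : FixGd f f' R d)
    (k : FixGd g g' R' d') : FixGd (cv f g) (cv f' g') (R * R') (d * R' + R * d') := by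
  have hR : 0 ≤ R := (tsum_nonneg fun n => norm_nonneg _).trans h.r
  have hR' : 0 ≤ R' := (tsum_nonneg fun n => norm_nonneg _).trans k.r
  have hd : 0 ≤ d := (tsum_nonneg fun n => norm_nonneg _).trans h.rd
  have e1 : ∑' n, ‖FE.cv (fun m => f m - f' m) g n‖ ≤ d * R' :=
    (cv_norm_le h.sd k.s).trans (mul_le_mul h.rd k.r (tsum_nonneg fun n => norm_nonneg _) hd)
  have e2 : ∑' n, ‖FE.cv f' (fun m => g m - g' m) n‖ ≤ R * d' :=
    (cv_norm_le h.s' k.sd).trans (mul_le_mul h.r' k.rd (tsum_nonneg fun n => norm_nonneg _) hR)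
  have e3 : ∀ n, ‖FE.cv f g n - FE.cv f' g' n‖ ≤
      ‖FE.cv (fun m => f m - f' m) g n‖ + ‖FE.cv f' (fun m => g m - g' m) n‖ := by
    intro n
    rw [cv_sub_left h.s h.s' k.s, cv_sub_right h.s' k.s k.s']
    refine (le_of_eq ?_).trans (norm_add_le _ _)
    congr 1
    ring
  obtain ⟨e4, e5⟩ := fix_sum_add (fun n => norm_nonneg _) e3 (cv_summable h.sd k.s) e1
    (cv_summable h.s' k.sd) e2
  exact ⟨cv_summable h.s k.s, cv_summable h.s' k.s', e4,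
    (cv_norm_le h.s k.s).trans (mul_le_mul h.r k.r (tsum_nonneg fun n => norm_nonneg _) hR),
    (cv_norm_le h.s' k.s').trans (mul_le_mul h.r' k.r' (tsum_nonneg fun n => norm_nonneg _) hR), e5⟩

theorem FixGd.add {f f' g g' : ℤ → E} {R d R' d' : ℝ} (h : FixGd f f' R d)
    (k : FixGd g g' R' d') :
    FixGd (fun n => f n + g n) (fun n => f' n + g' n) (R + R') (d + d') := by
  obtain ⟨a1, a2⟩ := fix_sum_add (fun n => norm_nonneg _) (fun n => norm_add_le (f n) (g n))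
    h.s h.r k.s k.r
  obtain ⟨b1, b2⟩ := fix_sum_add (fun n => norm_nonneg _) (fun n => norm_add_le (f' n) (g' n))
    h.s' h.r' k.s' k.r'
  obtain ⟨c1, c2⟩ := fix_sum_add (fun n => norm_nonneg _)
    (fun n => norm_add_le (f n - f' n) (g n - g' n)) h.sd h.rd k.sd k.rd
  have e : ∀ n, f n + g n - (f' n + g' n) = f n - f' n + (g n - g' n) := fun n => by ring
  refine ⟨a1, b1, ?_, a2, b2, ?_⟩
  · simpa only [e] using c1
  · simpa only [e] using c2

theorem FixGd.of_le {f f' g g' : ℤ → E} {R d c : ℝ} (h : FixGd f f' R d) (hc : 0 ≤ c)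
    (h1 : ∀ n, ‖g n‖ ≤ c * ‖f n‖) (h2 : ∀ n, ‖g' n‖ ≤ c * ‖f' n‖)
    (h3 : ∀ n, ‖g n - g' n‖ ≤ c * ‖f n - f' n‖) : FixGd g g' (c * R) (c * d) := by
  obtain ⟨a1, a2⟩ := fix_sum_le hc (fun n => norm_nonneg _) h1 h.s h.r
  obtain ⟨b1, b2⟩ := fix_sum_le hc (fun n => norm_nonneg _) h2 h.s' h.r'
  obtain ⟨c1, c2⟩ := fix_sum_le hc (fun n => norm_nonneg _) h3 h.sd h.rd
  exact ⟨a1, b1, c1, a2, b2, c2⟩

theorem FixGd.smul {f f' : ℤ → E} {R d : ℝ} (h : FixGd f f' R d) (c : ℂ) :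
    FixGd (fun n => c • f n) (fun n => c • f' n) (‖c‖ * R) (‖c‖ * d) :=
  h.of_le (norm_nonneg _) (fun n => norm_smul_le _ _) (fun n => norm_smul_le _ _)
    (fun n => by rw [← smul_sub]; exact norm_smul_le _ _)

theorem FixGd.mono {f f' : ℤ → E} {R d R' d' : ℝ} (h : FixGd f f' R d) (h1 : R ≤ R')
    (h2 : d ≤ d') : FixGd f f' R' d' :=
  ⟨h.s, h.s', h.sd, h.r.trans h1, h.r'.trans h1, h.rd.trans h2⟩

theorem fix_norm_mul (n : ℤ) : ‖mul n‖ = 2 * π * |(n : ℝ)| := by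
  unfold mul
  simp [abs_of_pos Real.pi_pos]

theorem fix_norm_inv_mul (n : ℤ) : ‖(mul n)⁻¹‖ ≤ 1 := by
  rw [norm_inv, fix_norm_mul]
  rcases eq_or_ne n 0 with rfl | hn
  · simp
  · apply inv_le_one_of_one_le₀
    have h1 : (1 : ℝ) ≤ |(n : ℝ)| := by
      rw [← Int.cast_abs]
      exact_mod_cast Int.one_le_abs hn
    nlinarith [Real.pi_gt_three]

theorem FixGd.ix {f f' : ℤ → E} {R d : ℝ} (h : FixGd f f' R d) :
    FixGd (ix f) (ix f') R d := by
  have h1 := h.of_le (g := FE.ix f) (g' := FE.ix f') (c := 1) zero_le_one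
    (fun n => (norm_smul_le _ _).trans (mul_le_mul_of_nonneg_right (fix_norm_inv_mul n)
      (norm_nonneg _)))
    (fun n => (norm_smul_le _ _).trans (mul_le_mul_of_nonneg_right (fix_norm_inv_mul n)
      (norm_nonneg _)))
    (fun n => by
      unfold FE.ix
      rw [← smul_sub]
      exact (norm_smul_le _ _).trans (mul_le_mul_of_nonneg_right (fix_norm_inv_mul n)
        (norm_nonneg _)))
  simpa using h1

/-- the weighted version of `FixGd` -/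
structure FixWd (f f' : ℤ → E) (R d : ℝ) : Prop where
  s : Summable fun n => wt n * ‖f n‖
  s' : Summable fun n => wt n * ‖f' n‖
  sd : Summable fun n => wt n * ‖f n - f' n‖
  r : ∑' n, wt n * ‖f n‖ ≤ R
  r' : ∑' n, wt n * ‖f' n‖ ≤ R
  rd : ∑' n, wt n * ‖f n - f' n‖ ≤ d

theorem FixWd.gd {f f' : ℤ → E} {R d : ℝ} (h : FixWd f f' R d) : FixGd f f' R d := by
  have e : ∀ (g : ℤ → E) (n : ℤ), ‖g n‖ ≤ 1 * (wt n * ‖g n‖) := fun g n => by
    rw [one_mul]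
    exact le_mul_of_one_le_left (norm_nonneg _) (one_le_wt n)
  obtain ⟨a1, a2⟩ := fix_sum_le zero_le_one (fun n => norm_nonneg _) (e f) h.s h.r
  obtain ⟨b1, b2⟩ := fix_sum_le zero_le_one (fun n => norm_nonneg _) (e f') h.s' h.r'
  obtain ⟨c1, c2⟩ := fix_sum_le zero_le_one (fun n => norm_nonneg _)
    (e (fun n => f n - f' n)) h.sd h.rd
  rw [one_mul] at a2 b2 c2
  exact ⟨a1, b1, c1, a2, b2, c2⟩

theorem FixWd.dx {f f' : ℤ → E} {R d : ℝ} (h : FixWd f f' R d) :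
    FixGd (dx f) (dx f') (7 * R) (7 * d) := by
  have e : ∀ (g : ℤ → E) (n : ℤ), ‖FE.dx g n‖ ≤ 7 * (wt n * ‖g n‖) := fun g n => by
    refine (norm_smul_le _ _).trans ?_
    rw [← mul_assoc]
    apply mul_le_mul_of_nonneg_right _ (norm_nonneg _)
    rw [fix_norm_mul]
    unfold wt
    nlinarith [Real.pi_lt_d2, abs_nonneg (n : ℝ), Real.pi_gt_three]
  obtain ⟨a1, a2⟩ := fix_sum_le (by norm_num) (fun n => norm_nonneg _) (e f) h.s h.r
  obtain ⟨b1, b2⟩ := fix_sum_le (by norm_num) (fun n => norm_nonneg _) (e f') h.s' h.r'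
  obtain ⟨c1, c2⟩ := fix_sum_le (by norm_num) (fun n => norm_nonneg _)
    (e (fun n => f n - f' n)) h.sd h.rd
  have e2 : ∀ n, FE.dx f n - FE.dx f' n = FE.dx (fun n => f n - f' n) n := fun n => by
    unfold FE.dx
    rw [smul_sub]
  refine ⟨a1, b1, ?_, a2, b2, ?_⟩
  · simpa only [e2] using c1
  · simpa only [e2] using c2

theorem FixWd.Fl {f f' : ℤ → E} {R d : ℝ} (h : FixWd f f' R d) (hR : 1 ≤ R) :
    FixGd (Fl f) (Fl f') (67 * R ^ 4 * R) (202 * R ^ 4 * d) := by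
  have hd : 0 ≤ d := (tsum_nonneg fun n => norm_nonneg _).trans h.gd.rd
  have k1 := (h.gd.cv h.gd).cv h.dx
  have k2 := k1.smul (-(5 / 2) : ℂ)
  have k3 := (h.gd.cv h.gd).cv (h.gd.cv h.gd)
  have k4 := k3.smul (-(1 / 2) : ℂ)
  have k5 := (h.dx.cv h.dx).add k4
  have k7 := k5.ix
  have e : ∀ g : ℤ → E, (fun n => FE.cv (FE.dx g) (FE.dx g) n +
      (-(1 / 2) : ℂ) • FE.cv (FE.cv g g) (FE.cv g g) n) = FE.Qn g := by
    intro g
    funext n
    unfold FE.Qn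
    rw [neg_smul, sub_eq_add_neg]
  rw [e, e] at k7
  have k8 := k2.add (h.gd.cv k7)
  have n1 : ‖(-(5 / 2) : ℂ)‖ = 5 / 2 := by
    rw [norm_neg]
    norm_num
  have n2 : ‖(-(1 / 2) : ℂ)‖ = 1 / 2 := by
    rw [norm_neg]
    norm_num
  have r1 : 1 ≤ R ^ 2 := one_le_pow₀ hR
  refine FixGd.mono (f := FE.Fl f) (f' := FE.Fl f') k8 ?_ ?_
  · rw [n1, n2]
    nlinarith [mul_nonneg (show (0 : ℝ) ≤ R ^ 3 by positivity) (sub_nonneg.mpr r1)]
  · rw [n1, n2]
    nlinarith [mul_nonneg (mul_nonneg (show (0 : ℝ) ≤ R ^ 2 by positivity) hd)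
      (sub_nonneg.mpr r1)]

end

/-- the Duhamel term -/
theorem fix_duh_le (ε : ℝ) (hε : 0 ≤ ε) (hS : 0 ≤ ε ^ 2) (f : ℤ → C(Icc (0 : ℝ) (ε ^ 2), ℂ))
    (n : ℤ) : wt n * ‖duh (ε ^ 2) hS (lam n) (dx f n)‖ ≤ ε * ‖f n‖ := by
  have hl : 0 ≤ lam n := by unfold lam; positivity
  have h1 := norm_duh_le (ε ^ 2) hS (lam n) hl (dx f n)
  have h2 := norm_duh_le' (ε ^ 2) hS (lam n) hl (dx f n)
  have h3 : ‖dx f n‖ = 2 * π * |(n : ℝ)| * ‖f n‖ := by
    unfold dx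
    rw [norm_smul, fix_norm_mul]
  rw [h3] at h1 h2
  set X := ‖duh (ε ^ 2) hS (lam n) (dx f n)‖ with hX
  have hX0 : 0 ≤ X := norm_nonneg _
  have hF0 : 0 ≤ ‖f n‖ := norm_nonneg _
  rcases eq_or_ne n 0 with rfl | hn
  · have h4 : X ≤ 0 := by simpa using h1
    have h5 : X = 0 := le_antisymm h4 hX0
    rw [h5, mul_zero]
    positivity
  · have h6 : (1 : ℝ) ≤ |(n : ℝ)| := by
      rw [← Int.cast_abs]
      exact_mod_cast Int.one_le_abs hn
    have h7 : lam n = (2 * π * |(n : ℝ)|) ^ 4 := by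
      unfold lam
      rw [mul_pow, mul_pow (2 * π) |(n : ℝ)| 4, Even.pow_abs (by decide)]
    rw [h7] at h2
    have hwt : wt n ≤ 2 * |(n : ℝ)| := by unfold wt; linarith
    set m := |(n : ℝ)| with hm
    have hpi := Real.pi_gt_three
    have hq : 0 < 2 * π * m := by positivity
    -- X² (2πm)^4 ≤ ε² (2πm)² F²
    have h8 : X * ((2 * π * m) ^ 4 * X) ≤ (ε ^ 2 * (2 * π * m * ‖f n‖)) * (2 * π * m * ‖f n‖) :=
      mul_le_mul h1 h2 (by positivity) (by positivity)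
    have h9 : (2 * π * m * X) ^ 2 ≤ (ε * ‖f n‖) ^ 2 := by
      have h10 : (2 * π * m) ^ 2 * (2 * π * m * X) ^ 2 ≤ (2 * π * m) ^ 2 * (ε * ‖f n‖) ^ 2 := by
        nlinarith
      exact le_of_mul_le_mul_left h10 (by positivity)
    have h11 : 2 * π * m * X ≤ ε * ‖f n‖ :=
      abs_le_of_sq_le_sq' h9 (by positivity) |>.2
    refine le_trans ?_ h11
    apply mul_le_mul_of_nonneg_right _ hX0
    refine hwt.trans ?_
    nlinarith

/-- the norm of `lp _ 1` -/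
theorem fix_lp_norm {E : Type} [NormedAddCommGroup E] (y : lp (fun _ : ℤ => E) 1) :
    (Summable fun n => ‖y n‖) ∧ ‖y‖ = ∑' n, ‖y n‖ := by
  have h1 := (lp.memℓp y).summable (by norm_num)
  have h2 := lp.norm_eq_tsum_rpow (p := 1) (by norm_num) y
  simp only [ENNReal.toReal_one, Real.rpow_one, div_one] at h1 h2
  exact ⟨h1, h2⟩

/-- the contraction principle in the weighted `l¹` space -/
theorem fix_contract {E : Type} [NormedAddCommGroup E] [NormedSpace ℝ E] [CompleteSpace E]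
    (R : ℝ) (hR : 0 ≤ R) (Φ : (ℤ → E) → (ℤ → E))
    (h1 : ∀ w, (Summable fun n => wt n * ‖w n‖) → ∑' n, wt n * ‖w n‖ ≤ R →
      (Summable fun n => wt n * ‖Φ w n‖) ∧ ∑' n, wt n * ‖Φ w n‖ ≤ R)
    (h2 : ∀ w w', (Summable fun n => wt n * ‖w n‖) → ∑' n, wt n * ‖w n‖ ≤ R →
      (Summable fun n => wt n * ‖w' n‖) → ∑' n, wt n * ‖w' n‖ ≤ R →
      ∑' n, wt n * ‖Φ w n - Φ w' n‖ ≤ 1 / 2 * ∑' n, wt n * ‖w n - w' n‖) :
    ∃ w, (Φ w = w ∧ (Summable fun n => wt n * ‖w n‖) ∧ ∑' n, wt n * ‖w n‖ ≤ R) ∧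
      ∀ w', (Φ w' = w' ∧ (Summable fun n => wt n * ‖w' n‖) ∧ ∑' n, wt n * ‖w' n‖ ≤ R) →
        w' = w := by
  have ex : ∃ w, (Φ w = w ∧ (Summable fun n => wt n * ‖w n‖) ∧ ∑' n, wt n * ‖w n‖ ≤ R) := by
    let X : Set (lp (fun _ : ℤ => E) 1) := Metric.closedBall 0 R
    have : CompleteSpace X := (Metric.isClosed_closedBall).completeSpace_coe
    have : Nonempty X := ⟨⟨0, Metric.mem_closedBall_self hR⟩⟩
    let W : lp (fun _ : ℤ => E) 1 → ℤ → E := fun y n => (wt n)⁻¹ • y n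
    have hn : ∀ (v : E) (n : ℤ), wt n * ‖(wt n)⁻¹ • v‖ = ‖v‖ := by
      intro v n
      rw [norm_smul, norm_inv, Real.norm_of_nonneg (wt_pos n).le,
        mul_inv_cancel_left₀ (wt_pos n).ne']
    have hW : ∀ y n, wt n * ‖W y n‖ = ‖y n‖ := fun y n => hn _ _
    have hWs : ∀ y, Summable fun n => wt n * ‖W y n‖ := fun y => by
      simp only [hW]
      exact (fix_lp_norm y).1
    have hWr : ∀ y : X, ∑' n, wt n * ‖W y.1 n‖ ≤ R := fun y => by
      simp only [hW]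
      rw [← (fix_lp_norm y.1).2]
      exact mem_closedBall_zero_iff.mp y.2
    have hΦn : ∀ (w : ℤ → E) (n : ℤ), ‖wt n • w n‖ = wt n * ‖w n‖ := by
      intro w n
      rw [norm_smul, Real.norm_of_nonneg (wt_pos n).le]
    have hmem : ∀ w : ℤ → E, (Summable fun n => wt n * ‖w n‖) →
        Memℓp (fun n => wt n • w n) 1 := by
      intro w hw
      apply memℓp_gen
      simp only [ENNReal.toReal_one, Real.rpow_one, hΦn]
      exact hw
    let T0 : X → lp (fun _ : ℤ => E) 1 := fun y =>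
      ⟨fun n => wt n • Φ (W y.1) n, hmem _ (h1 _ (hWs _) (hWr y)).1⟩
    have hT0 : ∀ y n, T0 y n = wt n • Φ (W y.1) n := fun y n => rfl
    have hT0r : ∀ y, T0 y ∈ X := by
      intro y
      apply mem_closedBall_zero_iff.mpr
      rw [(fix_lp_norm (T0 y)).2]
      simp only [hT0, hΦn]
      exact (h1 _ (hWs _) (hWr y)).2
    let T : X → X := fun y => ⟨T0 y, hT0r y⟩
    have hlip : LipschitzWith (1 / 2) T := by
      apply LipschitzWith.of_dist_le_mul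
      intro y y'
      have e1 : dist (T y) (T y') = ∑' n, wt n * ‖Φ (W y.1) n - Φ (W y'.1) n‖ := by
        change dist (T0 y) (T0 y') = _
        rw [dist_eq_norm, (fix_lp_norm _).2]
        apply tsum_congr
        intro n
        rw [lp.coeFn_sub, Pi.sub_apply, hT0, hT0, ← smul_sub, norm_smul,
          Real.norm_of_nonneg (wt_pos n).le]
      have e2 : dist y y' = ∑' n, wt n * ‖W y.1 n - W y'.1 n‖ := by
        change dist y.1 y'.1 = _
        rw [dist_eq_norm, (fix_lp_norm _).2]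
        apply tsum_congr
        intro n
        rw [lp.coeFn_sub, Pi.sub_apply]
        change _ = wt n * ‖(wt n)⁻¹ • y.1 n - (wt n)⁻¹ • y'.1 n‖
        rw [← smul_sub, hn]
      rw [e1, e2]
      have := h2 _ _ (hWs y.1) (hWr y) (hWs y'.1) (hWr y')
      simpa using this
    have hc : ContractingWith (1 / 2) T := ⟨by
      rw [← NNReal.coe_lt_coe]
      norm_num, hlip⟩
    set y := ContractingWith.fixedPoint T hc with hy
    have hfix : T y = y := ContractingWith.fixedPoint_isFixedPt hc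
    refine ⟨W y.1, ?_, hWs _, hWr y⟩
    funext n
    have e3 : T0 y = y.1 := congrArg Subtype.val hfix
    have e4 : wt n • Φ (W y.1) n = y.1 n := by
      rw [← hT0, e3]
    change _ = (wt n)⁻¹ • y.1 n
    rw [← e4, smul_smul, inv_mul_cancel₀ (wt_pos n).ne', one_smul]
  obtain ⟨w, hw1, hw2, hw3⟩ := ex
  refine ⟨w, ⟨hw1, hw2, hw3⟩, ?_⟩
  rintro w' ⟨k1, k2, k3⟩
  have e1 := h2 w' w k2 k3 hw2 hw3
  rw [k1, hw1] at e1
  have e2 : Summable fun n => wt n * ‖w' n - w n‖ := by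
    refine Summable.of_nonneg_of_le
      (fun n => mul_nonneg (wt_pos n).le (norm_nonneg _)) (fun n => ?_) (k2.add hw2)
    rw [← mul_add]
    exact mul_le_mul_of_nonneg_left (norm_sub_le _ _) (wt_pos n).le
  have e3 : 0 ≤ ∑' n, wt n * ‖w' n - w n‖ :=
    tsum_nonneg fun n => mul_nonneg (wt_pos n).le (norm_nonneg _)
  have e4 : ∑' n, wt n * ‖w' n - w n‖ ≤ 0 := by linarith
  funext n
  have e5 : wt n * ‖w' n - w n‖ ≤ 0 :=
    (e2.le_tsum n fun m _ => mul_nonneg (wt_pos m).le (norm_nonneg _)).trans e4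
  have e6 : ‖w' n - w n‖ ≤ 0 := by
    by_contra h
    push Not at h
    exact absurd e5 (not_le.mpr (mul_pos (wt_pos n) h))
  exact sub_eq_zero.mp (norm_le_zero_iff.mp e6)

/-- existence and uniqueness in the ball of radius `2 M` -/
theorem exists_fix (M : ℝ) (hM : 1 ≤ M) : ∃ (S : ℝ) (hS : 0 < S), ∀ a : ℤ → ℂ,
    (Summable fun n => wt n * ‖a n‖) → nrm1 a ≤ M →
    ∃ w : ℤ → C(Icc (0 : ℝ) S, ℂ),
      (IsFix S hS.le a w ∧ (Summable fun n => wt n * ‖w n‖) ∧ ∑' n, wt n * ‖w n‖ ≤ 2 * M) ∧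
      ∀ w' : ℤ → C(Icc (0 : ℝ) S, ℂ),
        (IsFix S hS.le a w' ∧ (Summable fun n => wt n * ‖w' n‖) ∧
          ∑' n, wt n * ‖w' n‖ ≤ 2 * M) → w' = w := by
  have hM0 : 0 < M := by linarith
  obtain ⟨ε, hε, hεM⟩ : ∃ ε : ℝ, 0 < ε ∧ ε * (404 * (2 * M) ^ 4) = 1 :=
    ⟨(404 * (2 * M) ^ 4)⁻¹, by positivity, inv_mul_cancel₀ (by positivity)⟩
  refine ⟨ε ^ 2, by positivity, ?_⟩
  intro a ha haM
  have hS : (0 : ℝ) ≤ ε ^ 2 := by positivity
  have hdiff : ∀ {w w' : ℤ → C(Icc (0 : ℝ) (ε ^ 2), ℂ)},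
      (Summable fun n => wt n * ‖w n‖) → ∑' n, wt n * ‖w n‖ ≤ 2 * M →
      (Summable fun n => wt n * ‖w' n‖) → ∑' n, wt n * ‖w' n‖ ≤ 2 * M →
      FixWd w w' (2 * M) (∑' n, wt n * ‖w n - w' n‖) := by
    intro w w' k1 k2 k3 k4
    refine ⟨k1, k3, ?_, k2, k4, le_rfl⟩
    refine Summable.of_nonneg_of_le
      (fun n => mul_nonneg (wt_pos n).le (norm_nonneg _)) (fun n => ?_) (k1.add k3)
    rw [← mul_add]
    exact mul_le_mul_of_nonneg_left (norm_sub_le _ _) (wt_pos n).le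
  have hmain := fix_contract (E := C(Icc (0 : ℝ) (ε ^ 2), ℂ)) (2 * M) (by positivity)
    (fun w n => fre (ε ^ 2) (lam n) (a n) + duh (ε ^ 2) hS (lam n) (dx (Fl w) n)) ?_ ?_
  · obtain ⟨w, ⟨hw1, hw2, hw3⟩, hw4⟩ := hmain
    refine ⟨w, ⟨fun n => (congrFun hw1 n).symm, hw2, hw3⟩, ?_⟩
    rintro w' ⟨k1, k2, k3⟩
    exact hw4 w' ⟨funext fun n => (k1 n).symm, k2, k3⟩
  · intro w hw hwr
    have g := (hdiff hw hwr hw hwr).Fl (by linarith)
    obtain ⟨a1, a2⟩ := fix_sum_le (u := fun n => wt n * ‖fre (ε ^ 2) (lam n) (a n)‖)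
      (v := fun n => wt n * ‖a n‖) (c := 1) (R := M) zero_le_one
      (fun n => mul_nonneg (wt_pos n).le (norm_nonneg _))
      (fun n => by
        rw [one_mul]
        exact mul_le_mul_of_nonneg_left (norm_fre_le _ _ hS (by unfold lam; positivity) _)
          (wt_pos n).le) ha haM
    obtain ⟨b1, b2⟩ := fix_sum_le (u := fun n => wt n * ‖duh (ε ^ 2) hS (lam n) (dx (Fl w) n)‖)
      (v := fun n => ‖Fl w n‖) hε.le
      (fun n => mul_nonneg (wt_pos n).le (norm_nonneg _))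
      (fun n => fix_duh_le ε hε.le hS (Fl w) n) g.s g.r
    obtain ⟨c1, c2⟩ := fix_sum_add
      (u := fun n => wt n * ‖fre (ε ^ 2) (lam n) (a n) + duh (ε ^ 2) hS (lam n) (dx (Fl w) n)‖)
      (fun n => mul_nonneg (wt_pos n).le (norm_nonneg _))
      (fun n => by
        rw [← mul_add]
        exact mul_le_mul_of_nonneg_left (norm_add_le _ _) (wt_pos n).le) a1 a2 b1 b2
    refine ⟨c1, c2.trans ?_⟩
    have e : ε * (67 * (2 * M) ^ 4 * (2 * M)) = 67 / 404 * (2 * M) := by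
      rw [show ε * (67 * (2 * M) ^ 4 * (2 * M)) =
        (ε * (404 * (2 * M) ^ 4)) * (67 / 404 * (2 * M)) by ring, hεM, one_mul]
    rw [e]
    linarith
  · intro w w' k1 k2 k3 k4
    have g := (hdiff k1 k2 k3 k4).Fl (by linarith)
    have e0 : ∀ n, fre (ε ^ 2) (lam n) (a n) + duh (ε ^ 2) hS (lam n) (dx (Fl w) n) -
        (fre (ε ^ 2) (lam n) (a n) + duh (ε ^ 2) hS (lam n) (dx (Fl w') n)) =
        duh (ε ^ 2) hS (lam n) (dx (fun m => Fl w m - Fl w' m) n) := by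
      intro n
      rw [add_sub_add_left_eq_sub, ← duh_sub]
      congr 1
      unfold dx
      rw [smul_sub]
    obtain ⟨b1, b2⟩ := fix_sum_le
      (u := fun n => wt n * ‖duh (ε ^ 2) hS (lam n) (dx (fun m => Fl w m - Fl w' m) n)‖)
      (v := fun n => ‖Fl w n - Fl w' n‖) hε.le
      (fun n => mul_nonneg (wt_pos n).le (norm_nonneg _))
      (fun n => fix_duh_le ε hε.le hS (fun m => Fl w m - Fl w' m) n) g.sd g.rd
    simp only [e0]
    refine b2.trans (le_of_eq ?_)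
    rw [show ε * (202 * (2 * M) ^ 4 * ∑' n, wt n * ‖w n - w' n‖) =
      (ε * (404 * (2 * M) ^ 4)) * (1 / 2 * ∑' n, wt n * ‖w n - w' n‖) by ring, hεM, one_mul]

end Pool.Agent.helper22.FE
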