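import Pool.Agent.helper22.FE.Syn

/-!
# FE: from coefficients to functions

* `CSol.fsol`: `Wf w`, `Pf w` form a smooth solution.  `syn w` is real (`h.real`, `cv_conj`, the
  multipliers `mul (-n) = conj (mul n)`), `pu` of the real part is the real part of
  `syn (dxt ..)` (`syn_hasDerivAt`; real part is a continuous linear map), the equation is
  `syn_hasDerivWithinAt` applied to the ODE, and `syn (fun n t => Fl (sq w t) n)` is
  `- (5/2) W² W_x + W P` by `syn_cv`.  `P_x`: `dx (ix f) n = f n` for `n ≠ 0` and `0` for `n = 0`,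
  hence `P_x = Q - (mean of Q)` with `Q = W_x² - W⁴/2` (`syn_int`).
* `nrm_le`: `(1 + |n|) |w n| ≤ 2 |n| |w n| ≤ n⁻² + n⁴ |w n|²` for `n ≠ 0` and Parseval for
  `W_xx` (coefficients `mul n ^ 2 * w n`, `|mul n ^ 2| = 4π² n²`).
-/

set_option autoImplicit false

open scoped Real ComplexConjugate ContDiff
open Set
open Pool.Agent.helper19.EL (Sm pu pt)

namespace Pool.Agent.helper22.FE

/-- the real part of a synthesis -/
noncomputable def Fs_re (f : ℤ → ℝ → ℂ) (x t : ℝ) : ℝ := (syn f x t).re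

theorem Fs_dxt {S : ℝ} {f : ℤ → ℝ → ℂ} (hf : RapOn S f) : RapOn S (dxt f) :=
  hf.mult norm_mul_le

theorem Fs_hasDerivAt {S : ℝ} {f : ℤ → ℝ → ℂ} (hf : RapOn S f) {t : ℝ} (ht : t ∈ Icc 0 S)
    (x : ℝ) : HasDerivAt (fun x => Fs_re f x t) (Fs_re (dxt f) x t) x := by
  have h := (Complex.reCLM.hasFDerivAt (x := syn f x t)).comp_hasDerivAt x
    (syn_hasDerivAt hf ht x)
  exact h

theorem Fs_pu_re {S : ℝ} {f : ℤ → ℝ → ℂ} (hf : RapOn S f) {t : ℝ} (ht : t ∈ Icc 0 S) (x : ℝ) :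
    pu (Fs_re f) x t = Fs_re (dxt f) x t :=
  (Fs_hasDerivAt hf ht x).deriv

theorem Fs_pu_congr {F G : ℝ → ℝ → ℝ} {t : ℝ} (h : ∀ x, F x t = G x t) (x : ℝ) :
    pu F x t = pu G x t := by
  unfold pu
  have h1 : (fun u' => F u' t) = fun u' => G u' t := funext h
  rw [h1]

theorem Fs_mul_neg (n : ℤ) : mul (-n) = conj (mul n) := by
  rw [mul, mul]
  simp only [map_mul, Complex.conj_ofReal, Complex.conj_I, map_intCast, map_ofNat,
    Int.cast_neg]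
  ring

theorem Fs_mul_pow (n : ℤ) : mul n ^ 4 = (lam n : ℂ) := by
  rw [mul, lam]
  push_cast
  rw [mul_pow, Complex.I_pow_four, mul_one]

theorem Fs_mul_sq_norm (n : ℤ) : ‖mul n ^ 2‖ = (2 * π) ^ 2 * (n : ℝ) ^ 2 := by
  rw [mul, norm_pow, norm_mul, norm_mul, norm_mul, Complex.norm_I, Complex.norm_real,
    Complex.norm_intCast, Real.norm_of_nonneg Real.pi_pos.le, Complex.norm_ofNat, mul_one,
    mul_pow, sq_abs]

theorem Fs_mul_ne {n : ℤ} (hn : n ≠ 0) : mul n ≠ 0 := by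
  rw [mul]
  have h1 : (n : ℂ) ≠ 0 := Int.cast_ne_zero.2 hn
  have hpi : (π : ℂ) ≠ 0 := Complex.ofReal_ne_zero.2 Real.pi_ne_zero
  exact mul_ne_zero (mul_ne_zero (mul_ne_zero two_ne_zero hpi) h1) Complex.I_ne_zero

/-! ## Reality of the coefficients -/

section
variable {a : ℤ → ℂ} (ha : ∀ n, a (-n) = conj (a n))

include ha

theorem Fs_dx_conj (n : ℤ) : dx a (-n) = conj (dx a n) := by
  rw [dx, dx, smul_eq_mul, smul_eq_mul, map_mul, ha, Fs_mul_neg]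

theorem Fs_Qn_conj (n : ℤ) : Qn a (-n) = conj (Qn a n) := by
  have h2 : conj (1 / 2 : ℂ) = 1 / 2 := by
    rw [map_div₀, map_one, map_ofNat]
  rw [Qn, Qn, map_sub, smul_eq_mul, smul_eq_mul, map_mul, h2,
    cv_conj (Fs_dx_conj ha) (Fs_dx_conj ha), cv_conj (cv_conj ha ha) (cv_conj ha ha)]

theorem Fs_Pn_conj (n : ℤ) : Pn a (-n) = conj (Pn a n) := by
  rw [Pn, ix, ix, smul_eq_mul, smul_eq_mul, map_mul, Fs_Qn_conj ha, Fs_mul_neg, map_inv₀]

end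

/-! ## The functions of a solution -/

section
variable {S : ℝ} {w : ℤ → ℝ → ℂ} (h : CSol S w)

/-- the coefficients of `W_x² - W⁴/2` -/
noncomputable def Fs_Q (w : ℤ → ℝ → ℂ) (n : ℤ) (t : ℝ) : ℂ := Qn (sq w t) n

/-- the coefficients of `P` -/
noncomputable def Fs_P (w : ℤ → ℝ → ℂ) (n : ℤ) (t : ℝ) : ℂ := Pn (sq w t) n

/-- the coefficients of the flux without the linear part -/
noncomputable def Fs_F (w : ℤ → ℝ → ℂ) (n : ℤ) (t : ℝ) : ℂ := Fl (sq w t) n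

theorem Fs_Wf (w : ℤ → ℝ → ℂ) : Wf w = Fs_re w := rfl

theorem Fs_Pf (w : ℤ → ℝ → ℂ) : Pf w = Fs_re (Fs_P w) := rfl

include h

theorem Fs_rapQ : RapOn S (Fs_Q w) := (TD.Qn (h.td 0)).rapOn

theorem Fs_rapP : RapOn S (Fs_P w) := (TD.Pn (h.td 0)).rapOn

theorem Fs_rapF : RapOn S (Fs_F w) := (TD.Fl (h.td 0)).rapOn

theorem Fs_W_real {t : ℝ} (ht : t ∈ Icc 0 S) (x : ℝ) : (Fs_re w x t : ℂ) = syn w x t :=
  syn_real (fun n => h.real n t ht) x

theorem Fs_Wx_real {t : ℝ} (ht : t ∈ Icc 0 S) (x : ℝ) :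
    (Fs_re (dxt w) x t : ℂ) = syn (dxt w) x t :=
  syn_real (f := dxt w) (fun n => Fs_dx_conj (a := sq w t) (fun n => h.real n t ht) n) x

theorem Fs_Wxx_real {t : ℝ} (ht : t ∈ Icc 0 S) (x : ℝ) :
    (Fs_re (dxt (dxt w)) x t : ℂ) = syn (dxt (dxt w)) x t :=
  syn_real (f := dxt (dxt w)) (fun n => Fs_dx_conj (a := sq (dxt w) t)
    (fun n => Fs_dx_conj (a := sq w t) (fun n => h.real n t ht) n) n) x

theorem Fs_P_real {t : ℝ} (ht : t ∈ Icc 0 S) (x : ℝ) :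
    (Fs_re (Fs_P w) x t : ℂ) = syn (Fs_P w) x t :=
  syn_real (f := Fs_P w) (fun n => Fs_Pn_conj (a := sq w t) (fun n => h.real n t ht) n) x

theorem Fs_synQ {t : ℝ} (ht : t ∈ Icc 0 S) (x : ℝ) :
    syn (Fs_Q w) x t = ((Fs_re (dxt w) x t ^ 2 - Fs_re w x t ^ 4 / 2 : ℝ) : ℂ) := by
  have hw := h.rap
  have hd := Fs_dxt hw
  have h1 : syn (Fs_Q w) x t =
      syn (fun n t => cvt (dxt w) (dxt w) n t + (-(1 / 2) : ℂ) * cvt (cvt w w) (cvt w w) n t) x t := by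
    congr 1
    funext n t
    rw [Fs_Q, Qn, smul_eq_mul, neg_mul, ← sub_eq_add_neg]
    rfl
  have h2 : RapOn S (fun n t => (-(1 / 2) : ℂ) * cvt (cvt w w) (cvt w w) n t) :=
    ((hw.cv hw).cv (hw.cv hw)).mult (c := fun _ => (-(1 / 2) : ℂ)) (C := ‖(-(1 / 2) : ℂ)‖) (r := 0)
      (fun n => by rw [pow_zero, mul_one])
  rw [h1, syn_add (hd.cv hd) h2 ht, syn_smul, syn_cv hd hd ht,
    syn_cv (hw.cv hw) (hw.cv hw) ht, syn_cv hw hw ht, ← Fs_W_real h ht, ← Fs_Wx_real h ht]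
  push_cast
  ring

theorem Fs_mm {t : ℝ} (ht : t ∈ Icc 0 S) : (mm (Wf w) t : ℂ) = Fs_Q w 0 t := by
  rw [← syn_int (Fs_rapQ h) ht, mm, ← intervalIntegral.integral_ofReal]
  apply intervalIntegral.integral_congr
  intro x _
  simp only
  rw [Fs_synQ h ht, Fs_Wf, Fs_pu_re h.rap ht]

theorem Fs_synPx {t : ℝ} (ht : t ∈ Icc 0 S) (x : ℝ) :
    syn (dxt (Fs_P w)) x t = syn (Fs_Q w) x t - Fs_Q w 0 t := by
  have hQ := syn_summable (Fs_rapQ h) ht x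
  have h0 : HasSum (fun n : ℤ => if n = 0 then Fs_Q w 0 t else 0) (Fs_Q w 0 t) :=
    hasSum_ite_eq 0 _
  have h1 := hQ.hasSum.sub h0
  have h2 : (fun n : ℤ => Fs_Q w n t * Complex.exp (mul n * x) -
      (if n = 0 then Fs_Q w 0 t else 0)) =
      fun n : ℤ => dxt (Fs_P w) n t * Complex.exp (mul n * x) := by
    funext n
    by_cases hn : n = 0
    · subst hn
      simp [dxt, mul]
    · rw [if_neg hn, sub_zero, dxt, Fs_P, Pn, ix, smul_eq_mul,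
        mul_inv_cancel_left₀ (Fs_mul_ne hn)]
      rfl
  rw [h2] at h1
  exact h1.tsum_eq

theorem Fs_fluxF {t : ℝ} (ht : t ∈ Icc 0 S) (x : ℝ) : syn (Fs_F w) x t =
    ((-(5 / 2) * Fs_re w x t ^ 2 * Fs_re (dxt w) x t +
      Fs_re w x t * Fs_re (Fs_P w) x t : ℝ) : ℂ) := by
  have hw := h.rap
  have hd := Fs_dxt hw
  have hP := Fs_rapP h
  have h1 : syn (Fs_F w) x t =
      syn (fun n t => (-(5 / 2) : ℂ) * cvt (cvt w w) (dxt w) n t + cvt w (Fs_P w) n t) x t := rfl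
  have h2 : RapOn S (fun n t => (-(5 / 2) : ℂ) * cvt (cvt w w) (dxt w) n t) :=
    ((hw.cv hw).cv hd).mult (c := fun _ => (-(5 / 2) : ℂ)) (C := ‖(-(5 / 2) : ℂ)‖) (r := 0)
      (fun n => by rw [pow_zero, mul_one])
  rw [h1, syn_add h2 (hw.cv hP) ht, syn_smul, syn_cv (hw.cv hw) hd ht, syn_cv hw hw ht,
    syn_cv hw hP ht, ← Fs_W_real h ht, ← Fs_Wx_real h ht, ← Fs_P_real h ht]
  push_cast
  ring

omit h in
/-- the coefficients of the flux -/
noncomputable def Fs_fl (w : ℤ → ℝ → ℂ) (n : ℤ) (t : ℝ) : ℂ :=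
  (-1 : ℂ) * dxt (dxt (dxt w)) n t + Fs_F w n t

theorem Fs_rap_fl : RapOn S (Fs_fl w) := by
  refine RapOn.add ?_ (Fs_rapF h)
  exact (Fs_dxt (Fs_dxt (Fs_dxt h.rap))).mult (c := fun _ => (-1 : ℂ)) (C := ‖(-1 : ℂ)‖) (r := 0)
      (fun n => by rw [pow_zero, mul_one])

theorem Fs_pu3 {t : ℝ} (ht : t ∈ Icc 0 S) (x : ℝ) :
    pu (pu (pu (Wf w))) x t = Fs_re (dxt (dxt (dxt w))) x t := by
  rw [Fs_Wf]
  rw [Fs_pu_congr (fun x => (Fs_pu_congr (fun x => Fs_pu_re h.rap ht x) x).trans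
    (Fs_pu_re (Fs_dxt h.rap) ht x)) x, Fs_pu_re (Fs_dxt (Fs_dxt h.rap)) ht]

theorem Fs_pu2 {t : ℝ} (ht : t ∈ Icc 0 S) (x : ℝ) :
    pu (pu (Wf w)) x t = Fs_re (dxt (dxt w)) x t := by
  rw [Fs_Wf]
  rw [Fs_pu_congr (fun x => Fs_pu_re h.rap ht x) x, Fs_pu_re (Fs_dxt h.rap) ht]

theorem Fs_flux {t : ℝ} (ht : t ∈ Icc 0 S) (x : ℝ) :
    flux (Wf w) (Pf w) x t = Fs_re (Fs_fl w) x t := by
  have h1 : syn (Fs_fl w) x t = (-1 : ℂ) * syn (dxt (dxt (dxt w))) x t + syn (Fs_F w) x t := by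
    unfold Fs_fl
    rw [syn_add (f := fun n t => (-1 : ℂ) * dxt (dxt (dxt w)) n t) ?_ (Fs_rapF h) ht, syn_smul]
    exact (Fs_dxt (Fs_dxt (Fs_dxt h.rap))).mult (c := fun _ => (-1 : ℂ)) (C := ‖(-1 : ℂ)‖)
      (r := 0) (fun n => by rw [pow_zero, mul_one])
  rw [flux, Fs_pu3 h ht, Fs_Wf, Fs_Pf, Fs_pu_re h.rap ht]
  have h2 : Fs_re (Fs_fl w) x t = (syn (Fs_fl w) x t).re := rfl
  rw [h2, h1, Fs_fluxF h ht, Complex.add_re, Complex.ofReal_re, neg_one_mul, Complex.neg_re]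
  unfold Fs_re
  ring

theorem Fs_fsol : FSol S (Wf w) (Pf w) := by
  have hre : ∀ {f : ℤ → ℝ → ℂ}, Sm S (syn f) → Sm S (Fs_re f) := fun {f} hf =>
    Complex.reCLM.contDiff.comp_contDiffOn hf
  refine ⟨hre (syn_sm h.td), hre (syn_sm fun k => (h.td k).Pn), ?_, ?_, ?_, ?_, ?_⟩
  · intro t _ x
    rw [Fs_Wf, Fs_re, Fs_re, syn_per]
  · intro t _ x
    rw [Fs_Pf, Fs_re, Fs_re, syn_per]
  · intro t ht
    have ht' := Ico_subset_Icc_self ht
    have h1 : ((∫ x in (0 : ℝ)..1, Pf w x t : ℝ) : ℂ) = Fs_P w 0 t := by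
      rw [← syn_int (Fs_rapP h) ht', ← intervalIntegral.integral_ofReal]
      apply intervalIntegral.integral_congr
      intro x _
      exact Fs_P_real h ht' x
    have h2 : Fs_P w 0 t = 0 := by
      simp [Fs_P, Pn, ix, mul]
    rw [h2] at h1
    exact_mod_cast h1
  · intro t ht x
    have ht' := Ico_subset_Icc_self ht
    rw [Fs_Pf, Fs_pu_re (Fs_rapP h) ht', Fs_re, Fs_synPx h ht', Fs_synQ h ht', ← Fs_mm h ht',
      ← Complex.ofReal_sub, Complex.ofReal_re, Fs_Wf, Fs_pu_re h.rap ht']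
  · intro t ht x
    have ht' : t ∈ Icc 0 S := Ioo_subset_Icc_self ht
    have h1 : HasDerivAt (fun t => syn w x t) (syn (fun n t => rhs (sq w t) n) x t) t :=
      (syn_hasDerivWithinAt h.rap (TD.rhs (h.td 0)).rapOn h.ode ht' x).hasDerivAt
        (Icc_mem_nhds ht.1 ht.2)
    have h2 : HasDerivAt (fun t => Wf w x t) ((syn (fun n t => rhs (sq w t) n) x t).re) t :=
      (Complex.reCLM.hasFDerivAt (x := syn w x t)).comp_hasDerivAt t h1
    have h3 : pt (Wf w) x t = (syn (fun n t => rhs (sq w t) n) x t).re := h2.deriv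
    have h4 : pu (flux (Wf w) (Pf w)) x t = Fs_re (dxt (Fs_fl w)) x t :=
      (Fs_pu_congr (Fs_flux h ht') x).trans (Fs_pu_re (Fs_rap_fl h) ht' x)
    rw [h3, h4, Fs_re]
    congr 2
    funext n s
    rw [dxt, Fs_fl, dxt, dxt, dxt, rhs, ← Fs_mul_pow, dx, smul_eq_mul, Fs_F, sq]
    ring

/-- Parseval for `W` -/
theorem Fs_GG {t : ℝ} (ht : t ∈ Icc 0 S) : GG (Wf w) t = ∑' n, ‖w n t‖ ^ 2 := by
  rw [← syn_parseval h.rap ht, GG]
  apply intervalIntegral.integral_congr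
  intro x _
  simp only
  rw [← Fs_W_real h ht, Complex.norm_real, Real.norm_eq_abs, sq_abs, Fs_Wf]

/-- Parseval for `W_xx` -/
theorem Fs_HH {t : ℝ} (ht : t ∈ Icc 0 S) : HH (Wf w) t = ∑' n, ‖mul n ^ 2 * w n t‖ ^ 2 := by
  have h1 : (fun n : ℤ => ‖mul n ^ 2 * w n t‖ ^ 2) = fun n => ‖dxt (dxt w) n t‖ ^ 2 := by
    funext n
    rw [dxt, dxt, pow_two (mul n), mul_assoc]
  rw [h1, ← syn_parseval (Fs_dxt (Fs_dxt h.rap)) ht, HH]
  apply intervalIntegral.integral_congr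
  intro x _
  simp only
  rw [← Fs_Wxx_real h ht, Complex.norm_real, Real.norm_eq_abs, sq_abs, Fs_pu2 h ht]

end

theorem CSol.fsol {S : ℝ} (hS : 0 < S) {w : ℤ → ℝ → ℂ} (h : CSol S w) :
    FSol S (Wf w) (Pf w) := by
  have _ := hS
  exact Fs_fsol h

theorem Fs_summable_sq {b : ℤ → ℝ} (hb : Summable b) (h0 : ∀ n, 0 ≤ b n) :
    Summable fun n => b n ^ 2 := by
  have h1 := (hb.mul_of_nonneg hb h0 h0).comp_injective (i := fun n : ℤ => (n, n))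
    (fun a b h => (Prod.mk.inj h).1)
  refine h1.congr fun n => ?_
  rw [Function.comp, pow_two]

/-- the majorant of the bound -/
noncomputable def Fs_c (n : ℤ) : ℝ := (if n = 0 then 1 else 0) + 1 / (n : ℝ) ^ 2

theorem Fs_c_nonneg (n : ℤ) : 0 ≤ Fs_c n := by
  unfold Fs_c
  positivity

theorem Fs_c_summable : Summable Fs_c := by
  unfold Fs_c
  exact (hasSum_ite_eq (0 : ℤ) (1 : ℝ)).summable.add (Real.summable_one_div_int_pow.2 one_lt_two)

/-- the `l¹` norm is bounded by the `H²` norm -/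
theorem nrm_le : ∃ C : ℝ, 0 ≤ C ∧ ∀ (S : ℝ) (w : ℤ → ℝ → ℂ), CSol S w → ∀ t ∈ Ico 0 S,
    nrm1 (sq w t) ≤ C * (1 + GG (Wf w) t + HH (Wf w) t) := by
  have hc0 : 0 ≤ ∑' n, Fs_c n := tsum_nonneg Fs_c_nonneg
  refine ⟨1 + ∑' n, Fs_c n, by positivity, ?_⟩
  intro S w h t ht
  have ht' := Ico_subset_Icc_self ht
  have hs1 : Summable fun n : ℤ => ‖w n t‖ := by
    have := h.rap.rap ht' 0
    simpa [sq] using this
  have hs2 : Summable fun n : ℤ => ‖mul n ^ 2 * w n t‖ := by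
    have h1 := (Fs_dxt (Fs_dxt h.rap)).rap ht' 0
    refine h1.congr fun n => ?_
    rw [pow_zero, one_mul, sq, dxt, dxt, pow_two (mul n), mul_assoc]
  have hq1 : Summable fun n : ℤ => ‖w n t‖ ^ 2 := Fs_summable_sq hs1 fun n => norm_nonneg _
  have hq2 : Summable fun n : ℤ => ‖mul n ^ 2 * w n t‖ ^ 2 :=
    Fs_summable_sq hs2 fun n => norm_nonneg _
  have hw1 : Summable fun n : ℤ => wt n * ‖sq w t n‖ := by
    have := h.rap.rap ht' 1
    simpa using this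
  have hle : ∀ n : ℤ, wt n * ‖sq w t n‖ ≤ Fs_c n + ‖w n t‖ ^ 2 + ‖mul n ^ 2 * w n t‖ ^ 2 := by
    intro n
    rw [norm_mul, Fs_mul_sq_norm, sq]
    set a := ‖w n t‖ with ha
    have ha0 : 0 ≤ a := norm_nonneg _
    by_cases hn : n = 0
    · subst hn
      simp only [wt, Fs_c, Int.cast_zero, abs_zero]
      norm_num
      nlinarith [sq_nonneg (a - 1)]
    · have hn1 : (1 : ℝ) ≤ |(n : ℝ)| := by
        rw [← Int.cast_abs]
        exact_mod_cast Int.one_le_abs hn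
      have hn2 : (1 : ℝ) ≤ (n : ℝ) ^ 2 := by
        rw [← sq_abs]
        nlinarith
      have h1 : wt n * a ≤ 2 * |(n : ℝ)| * a := by
        apply mul_le_mul_of_nonneg_right _ ha0
        unfold wt
        linarith
      have h2 : 2 * |(n : ℝ)| * a ≤ 1 / (n : ℝ) ^ 2 + ((n : ℝ) ^ 2 * a) ^ 2 := by
        have h3 : (n : ℝ) ^ 2 = |(n : ℝ)| ^ 2 := (sq_abs _).symm
        rw [h3]
        have hp : 0 < |(n : ℝ)| := by linarith
        have h4 : 2 * |(n : ℝ)| * a = 2 * (1 / |(n : ℝ)|) * (|(n : ℝ)| ^ 2 * a) := by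
          field_simp
        have h5 : 1 / |(n : ℝ)| ^ 2 = (1 / |(n : ℝ)|) ^ 2 := by
          rw [div_pow, one_pow]
        rw [h4, h5]
        nlinarith [sq_nonneg (1 / |(n : ℝ)| - |(n : ℝ)| ^ 2 * a)]
      have h6 : ((n : ℝ) ^ 2 * a) ^ 2 ≤ ((2 * π) ^ 2 * (n : ℝ) ^ 2 * a) ^ 2 := by
        apply pow_le_pow_left₀ (by positivity)
        apply mul_le_mul_of_nonneg_right _ ha0
        have : (1 : ℝ) ≤ (2 * π) ^ 2 := by nlinarith [Real.pi_gt_three]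
        nlinarith
      have h7 : Fs_c n = 1 / (n : ℝ) ^ 2 := by
        unfold Fs_c
        rw [if_neg hn, zero_add]
      rw [h7]
      have := sq_nonneg a
      linarith
  have hsum := Fs_c_summable.add hq1 |>.add hq2
  have h1 : nrm1 (sq w t) ≤ ∑' n, (Fs_c n + ‖w n t‖ ^ 2 + ‖mul n ^ 2 * w n t‖ ^ 2) :=
    hw1.tsum_le_tsum hle hsum
  rw [(Fs_c_summable.add hq1).tsum_add hq2, Fs_c_summable.tsum_add hq1, ← Fs_GG h ht',
    ← Fs_HH h ht'] at h1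
  have hG : 0 ≤ GG (Wf w) t := by
    rw [Fs_GG h ht']
    exact tsum_nonneg fun n => sq_nonneg _
  have hH : 0 ≤ HH (Wf w) t := by
    rw [Fs_HH h ht']
    exact tsum_nonneg fun n => sq_nonneg _
  nlinarith [mul_nonneg hc0 hG, mul_nonneg hc0 hH]

theorem CSol.sq_rap {S : ℝ} {w : ℤ → ℝ → ℂ} (h : CSol S w) {t : ℝ} (ht : t ∈ Icc 0 S) :
    Rap (sq w t) := h.rap.rap ht

/-- the functions depend only on the coefficients: `GG`, `HH`, `mm` at `t` depend only on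
`sq w t` -/
theorem Wf_congr {w v : ℤ → ℝ → ℂ} {s t : ℝ} (h : ∀ n, w n s = v n t) (x : ℝ) :
    Wf w x s = Wf v x t := by
  unfold Wf syn
  simp only [h]

end Pool.Agent.helper22.FE
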