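import Pool.Agent.helper22.FE.Defs

/-!
# FE: gluing of solutions in time

Elementary: `RapOn` with the bound `b n + b' n`; the one-sided derivatives at `s` agree since the
right-hand side depends only on the coefficients at time `s`
(`HasDerivWithinAt.union` on `Icc 0 s ∪ Icc s (s + d)`).
-/

set_option autoImplicit false

open scoped Real ComplexConjugate
open Set

namespace Pool.Agent.helper22.FE

/-- restriction to a shorter interval -/
theorem CSol.mono {S s : ℝ} {w : ℤ → ℝ → ℂ} (h : CSol S w) (hs : s ≤ S) : CSol s w := by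
  have hsub : Icc 0 s ⊆ Icc 0 S := Icc_subset_Icc_right hs
  obtain ⟨⟨hc, b, hb1, hb2⟩, hr, ho⟩ := h
  exact ⟨⟨fun n => (hc n).mono hsub, b, hb1, fun n t ht => hb2 n t (hsub ht)⟩,
    fun n t ht => hr n t (hsub ht), fun n t ht => (ho n t (hsub ht)).mono hsub⟩

/-- the glued family -/
noncomputable def glu (s : ℝ) (w v : ℤ → ℝ → ℂ) (n : ℤ) (t : ℝ) : ℂ :=
  if t ≤ s then w n t else v n (t - s)

lemma Glue_ge {s : ℝ} {w v : ℤ → ℝ → ℂ} (h : ∀ n, v n 0 = w n s) {t : ℝ} (ht : s ≤ t) (n : ℤ) :
    glu s w v n t = v n (t - s) := by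
  unfold glu
  split_ifs with h1
  · have h2 : t = s := le_antisymm h1 ht
    rw [h2, sub_self, h n]
  · rfl

theorem CSol.glue {s d : ℝ} (hs : 0 ≤ s) (hd : 0 ≤ d) {w v : ℤ → ℝ → ℂ} (hw : CSol s w)
    (hv : CSol d v) (h : ∀ n, v n 0 = w n s) : CSol (s + d) (glu s w v) := by
  have hode : ∀ n, ∀ t ∈ Icc 0 (s + d),
      HasDerivWithinAt (glu s w v n) (rhs (sq (glu s w v) t) n) (Icc 0 (s + d)) t := by
    intro n t ht
    have hU : Icc 0 (s + d) = Icc 0 s ∪ Icc s (s + d) :=
      (Icc_union_Icc_eq_Icc hs (by linarith)).symm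
    rw [hU]
    refine HasDerivWithinAt.union ?_ ?_
    · rcases le_or_gt t s with h1 | h1
      · have h2 : sq (glu s w v) t = sq w t := funext fun m => if_pos h1
        rw [h2]
        exact (hw.ode n t ⟨ht.1, h1⟩).congr (fun x hx => if_pos hx.2) (if_pos h1)
      · refine HasFDerivWithinAt.of_notMem_closure ?_
        rw [isClosed_Icc.closure_eq]
        exact fun h2 => absurd h2.2 (not_le_of_gt h1)
    · rcases le_or_gt s t with h1 | h1
      · have h2 : sq (glu s w v) t = sq v (t - s) := funext fun m => Glue_ge h h1 m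
        rw [h2]
        have h3 : t - s ∈ Icc 0 d := ⟨by linarith, by have := ht.2; linarith⟩
        have h4 : HasDerivWithinAt (fun x : ℝ => x - s) 1 (Icc s (s + d)) t :=
          ((hasDerivAt_id t).sub_const s).hasDerivWithinAt
        have hmap : MapsTo (fun x : ℝ => x - s) (Icc s (s + d)) (Icc 0 d) := fun x hx =>
          ⟨by have := hx.1; simp only; linarith, by have := hx.2; simp only; linarith⟩
        have h5 := HasDerivWithinAt.scomp t (hv.ode n (t - s) h3) h4 hmap
        rw [one_smul] at h5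
        exact h5.congr (fun x hx => Glue_ge h hx.1 n) (Glue_ge h h1 n)
      · refine HasFDerivWithinAt.of_notMem_closure ?_
        rw [isClosed_Icc.closure_eq]
        exact fun h2 => absurd h2.1 (not_le_of_gt h1)
  obtain ⟨b, hb1, hb2⟩ := hw.rap.2
  obtain ⟨b', hb1', hb2'⟩ := hv.rap.2
  refine ⟨⟨fun n t ht => (hode n t ht).continuousWithinAt, fun n => b n + b' n, fun r => ?_,
    fun n t ht => ?_⟩, fun n t ht => ?_, hode⟩
  · have := (hb1 r).add (hb1' r)
    refine this.congr fun n => ?_
    ring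
  · have hb0 : 0 ≤ b n := (norm_nonneg _).trans (hb2 n 0 ⟨le_refl _, hs⟩)
    have hb0' : 0 ≤ b' n := (norm_nonneg _).trans (hb2' n 0 ⟨le_refl _, hd⟩)
    rcases le_or_gt t s with h1 | h1
    · have h2 : glu s w v n t = w n t := if_pos h1
      rw [h2]
      have := hb2 n t ⟨ht.1, h1⟩
      linarith
    · rw [Glue_ge h h1.le]
      have := hb2' n (t - s) ⟨by linarith, by have := ht.2; linarith⟩
      linarith
  · rcases le_or_gt t s with h1 | h1
    · have h2 : ∀ m, glu s w v m t = w m t := fun m => if_pos h1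
      rw [h2, h2]
      exact hw.real n t ⟨ht.1, h1⟩
    · rw [Glue_ge h h1.le, Glue_ge h h1.le]
      exact hv.real n (t - s) ⟨by linarith, by have := ht.2; linarith⟩

theorem glu_eq {s : ℝ} {w v : ℤ → ℝ → ℂ} {t : ℝ} (ht : t ≤ s) (n : ℤ) :
    glu s w v n t = w n t := if_pos ht

end Pool.Agent.helper22.FE
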