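import Pool.Agent.helper22.FE.Boot
import Pool.Agent.helper22.FE.Glue
import Pool.Agent.helper22.FE.Fs
import Pool.Agent.helper22.FE.Apr
import Pool.Agent.helper22.FE.Coef

/-!
# FE: continuation

Let `M` be the constant of `apr_all` (with `G0, H0` of the initial function) and `C` of `nrm_le`,
`d` the existence time of `loc (C (1 + 2 M))`.
Step: let `CSol S w`, `S > 0`, `w n 0 = a n`.  If `tt (S - d/4 ...) ≤ T`: precisely, choose
`s = max (S/2) (S - d/2) ∈ (0, S)`; if `tt s ≤ T` then `nrm1 (sq w s) ≤ C (1 + 2M)`, so there is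
`v` on `[0, d]` with `v n 0 = w n s`, and `glu s w v` is a `CSol` on `[0, s + d]`, `s + d ≥ S + d/2`,
with the same initial coefficients.
Iterating from a first local solution (`loc (nrm1 a)`), after `j` steps either some solution has
`T < tt s`, or there is a `CSol` on `[0, S]` with `S ≥ j d / 2` and `tt s ≤ T`, `s ≥ S - d/2`;
but then `s ≤ M` (`apr_all`), impossible for large `j`.
-/

set_option autoImplicit false

open scoped Real ComplexConjugate ContDiff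
open Set
open Pool.Agent.helper19.EL (Sm pu pt)

namespace Pool.Agent.helper22.FE

/-- the function at time `0` depends only on the initial coefficients -/
lemma Glob_zero {w : ℤ → ℝ → ℂ} {a : ℤ → ℂ} (h : ∀ n, w n 0 = a n) :
    (fun x => Wf w x 0) = fun x : ℝ => (∑' n : ℤ, a n * Complex.exp (mul n * x)).re := by
  funext x
  unfold Wf syn
  simp only [h]

/-- GLOBAL EXISTENCE on the level of coefficients: the flow time `tt` exceeds any given `T` -/
theorem glob (a : ℤ → ℂ) (ha : Rap a) (hr : ∀ n, a (-n) = conj (a n))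
    (hc : Closed fun x => (∑' n : ℤ, a n * Complex.exp (mul n * x)).re)
    (L0 : ℝ) (hL : 0 < L0) (T : ℝ) :
    ∃ (S : ℝ) (w : ℤ → ℝ → ℂ), 0 < S ∧ CSol S w ∧ (∀ n, w n 0 = a n) ∧
      ∃ τ ∈ Ioo 0 S, T < tt L0 (Wf w) τ := by
  by_contra hcon
  have H : ∀ (S : ℝ) (w : ℤ → ℝ → ℂ), 0 < S → CSol S w → (∀ n, w n 0 = a n) →
      ∀ τ ∈ Ioo 0 S, tt L0 (Wf w) τ ≤ T := by
    intro S w hS hw h0 τ hτ
    by_contra h1
    exact hcon ⟨S, w, hS, hw, h0, τ, hτ, not_le.mp h1⟩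
  set A : ℝ → ℝ := fun x => (∑' n : ℤ, a n * Complex.exp (mul n * x)).re with hA
  obtain ⟨M, hM⟩ := apr_all L0 (GG (fun x _ => A x) 0) (HH (fun x _ => A x) 0) T hL
  obtain ⟨C, hC, hn⟩ := nrm_le
  obtain ⟨d, hd, hloc⟩ := loc (max (C * (1 + 2 * M)) (nrm1 a))
  -- the a priori bound
  have hapr : ∀ (S : ℝ) (w : ℤ → ℝ → ℂ), 0 < S → CSol S w → (∀ n, w n 0 = a n) →
      ∀ τ ∈ Ioo 0 S, GG (Wf w) τ ≤ M ∧ HH (Wf w) τ ≤ M ∧ τ ≤ M := by
    intro S w hS hw h0 τ hτ
    have e0 := Glob_zero h0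
    refine hM S (Wf w) (Pf w) (hw.fsol hS) ?_ ?_ ?_ τ ⟨hτ.1.le, hτ.2⟩ (H S w hS hw h0 τ hτ)
    · rw [e0]; exact hc
    · unfold GG
      have e1 : ∀ x, Wf w x 0 = A x := fun x => congrFun e0 x
      simp only [e1]
    · unfold HH pu
      have e1 : ∀ x, Wf w x 0 = A x := fun x => congrFun e0 x
      simp only [e1]
  have key : ∀ j : ℕ, ∃ (S : ℝ) (w : ℤ → ℝ → ℂ), 0 < S ∧ ((j : ℝ) + 1) * (d / 2) ≤ S ∧ CSol S w ∧
      ∀ n, w n 0 = a n := by
    intro j
    induction j with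
    | zero =>
      obtain ⟨w, hw, h0⟩ := hloc a ha hr (le_max_right _ _)
      exact ⟨d, w, hd, by push_cast; linarith, hw, h0⟩
    | succ j ih =>
      obtain ⟨S, w, hS, hjS, hw, h0⟩ := ih
      set s := max (S / 2) (S - d / 2) with hs
      have hs0 : 0 < s := lt_of_lt_of_le (by linarith) (le_max_left _ _)
      have hsS : s < S := max_lt (by linarith) (by linarith)
      have hsd : S - d / 2 ≤ s := le_max_right _ _
      obtain ⟨h1, h2, -⟩ := hapr S w hS hw h0 s ⟨hs0, hsS⟩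
      have h3 := hn S w hw s ⟨hs0.le, hsS⟩
      have h4 : nrm1 (sq w s) ≤ max (C * (1 + 2 * M)) (nrm1 a) := by
        refine h3.trans (le_trans ?_ (le_max_left _ _))
        apply mul_le_mul_of_nonneg_left _ hC
        linarith
      obtain ⟨v, hv, hv0⟩ := hloc (sq w s) (hw.sq_rap ⟨hs0.le, hsS.le⟩)
        (fun n => hw.real n s ⟨hs0.le, hsS.le⟩) h4
      refine ⟨s + d, glu s w v, by linarith, ?_, (hw.mono hsS.le).glue hs0.le hd.le hv hv0, ?_⟩
      · push_cast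
        linarith
      · intro n
        rw [glu_eq hs0.le, h0]
  obtain ⟨j, hj⟩ := exists_nat_gt (max M 0 / (d / 2))
  obtain ⟨S, w, hS, hjS, hw, h0⟩ := key j
  have hd2 : 0 < d / 2 := by linarith
  rw [div_lt_iff₀ hd2] at hj
  have h1 : max M 0 < S := by nlinarith
  have h2 : 0 ≤ max M 0 := le_max_right _ _
  obtain ⟨-, -, h3⟩ := hapr S w hS hw h0 ((max M 0 + S) / 2) ⟨by linarith, by linarith⟩
  have h4 : M ≤ max M 0 := le_max_left _ _
  linarith

/-- the same for functions -/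
theorem glob' (W0 : ℝ → ℝ) (h : ContDiff ℝ ∞ W0) (hp : ∀ x, W0 (x + 1) = W0 x)
    (hc : Closed W0) (L0 : ℝ) (hL : 0 < L0) (T : ℝ) :
    ∃ (S : ℝ) (W P : ℝ → ℝ → ℝ), 0 < S ∧ FSol S W P ∧ (∀ x, W x 0 = W0 x) ∧
      ∃ τ ∈ Ioo 0 S, T < tt L0 W τ := by
  obtain ⟨a, ha, hr, hs⟩ := coef W0 h hp
  have e : (fun x : ℝ => (∑' n : ℤ, a n * Complex.exp (mul n * x)).re) = W0 := by
    funext x
    rw [hs x, Complex.ofReal_re]
  obtain ⟨S, w, hS, hw, h0, hτ⟩ := glob a ha hr (by rw [e]; exact hc) L0 hL T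
  refine ⟨S, Wf w, Pf w, hS, hw.fsol hS, fun x => ?_, hτ⟩
  have h1 := congrFun (Glob_zero h0) x
  rw [h1]
  exact congrFun e x

end Pool.Agent.helper22.FE
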