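import Pool.Agent.helper22.FE.Defs
import Pool.Agent.helper69.EM.PrimX

/-!
# FE: primitives of smooth functions on the slab `ℝ × [0, S)`

`Sm S f` is smoothness of `f` on `ℝ × [0, S)` (helper19).  Tools:
`Pool.Agent.helper69.EM.contDiffOn_succ_of_partial`, `contDiffOn_prim`, `continuousOn_prim`,
`hasDerivWithinAt_prim`.
For `primx`: `F x t = ∫₀ˣ f y t dy` has `∂_x F = f` and `∂_t F = ∫₀ˣ (∂_t f)(y, t) dy` (one-sided
at `t = 0`; differentiation under the integral), so induction on `n` as in `contDiffOn_prim`.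
-/

set_option autoImplicit false

open scoped Real ContDiff
open Set
open Pool.Agent.helper19.EL (Sm pu pt)
open Pool.Agent.helper69.EM (D gτ gτ_hasDerivWithinAt contDiffOn_prim contDiffOn_primX
  contDiffOn_int hasDerivWithinAt_prim hasDerivWithinAt_primX)

namespace Pool.Agent.helper22.FE

variable {E : Type} [NormedAddCommGroup E] [NormedSpace ℝ E] [CompleteSpace E]

omit [CompleteSpace E] in
private lemma Pri_nat {S : ℝ} {f : ℝ → ℝ → E} (hf : Sm S f) (n : ℕ) :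
    ContDiffOn ℝ n (fun p : ℝ × ℝ => f p.1 p.2) (D S) :=
  contDiffOn_infty.1 hf n

theorem Sm.primx {S : ℝ} {f : ℝ → ℝ → E} (hf : Sm S f) :
    Sm S (fun x t => ∫ y in (0 : ℝ)..x, f y t) :=
  contDiffOn_infty.2 fun n => contDiffOn_primX n f (Pri_nat hf n)

theorem Sm.primt {S : ℝ} {f : ℝ → ℝ → E} (hf : Sm S f) :
    Sm S (fun x t => ∫ s in (0 : ℝ)..t, f x s) :=
  contDiffOn_infty.2 fun n => contDiffOn_prim n f (Pri_nat hf n)

/-- integrals over the period (`primx` at `x = 1`) -/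
theorem Sm.mean {S : ℝ} {f : ℝ → ℝ → E} (hf : Sm S f) :
    Sm S (fun _ t => ∫ y in (0 : ℝ)..1, f y t) := by
  have h1 : ContDiffOn ℝ ∞ (fun t : ℝ => ∫ y in (0 : ℝ)..1, f y t) (Ico 0 S) :=
    contDiffOn_infty.2 fun n => contDiffOn_int n f (Pri_nat hf n)
  exact h1.comp contDiffOn_snd fun _ hp => hp.2

/-- freezing `x` -/
theorem Sm.frz {S : ℝ} {f : ℝ → ℝ → E} (hf : Sm S f) (x : ℝ) : Sm S (fun _ t => f x t) := by
  have h1 : ContDiffOn ℝ ∞ (fun p : ℝ × ℝ => ((x, p.2) : ℝ × ℝ)) (Set.univ ×ˢ Ico 0 S) :=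
    (contDiff_const.prodMk contDiff_snd).contDiffOn
  have h2 : ContDiffOn ℝ ∞ (fun p : ℝ × ℝ => f p.1 p.2) (Set.univ ×ˢ Ico 0 S) := hf
  exact h2.comp h1 fun p hp => ⟨Set.mem_univ _, hp.2⟩

theorem Sm.of_t {S : ℝ} {g : ℝ → E} (hg : ContDiffOn ℝ ∞ g (Ico 0 S)) :
    Sm S (fun _ t => g t) :=
  hg.comp contDiffOn_snd fun _ hp => hp.2

theorem Sm.to_t {S : ℝ} {g : ℝ → E} (hg : Sm S (fun _ t => g t)) :
    ContDiffOn ℝ ∞ g (Ico 0 S) := by
  have h1 : ContDiffOn ℝ ∞ (fun t : ℝ => ((0, t) : ℝ × ℝ)) (Ico 0 S) :=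
    (contDiff_const.prodMk contDiff_id).contDiffOn
  have h2 : ContDiffOn ℝ ∞ (fun p : ℝ × ℝ => g p.2) (Set.univ ×ˢ Ico 0 S) := hg
  exact h2.comp h1 fun t ht => ⟨Set.mem_univ _, ht⟩

/-- composition with a smooth function of one variable -/
theorem Sm.comp1 {F : Type} [NormedAddCommGroup F] [NormedSpace ℝ F] {S : ℝ} {f : ℝ → ℝ → E}
    (hf : Sm S f) {g : E → F} (hg : ContDiff ℝ ∞ g) : Sm S (fun x t => g (f x t)) :=
  hg.comp_contDiffOn hf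

theorem Sm.const {S : ℝ} (c : E) : Sm S (fun _ _ => c) :=
  contDiffOn_const

theorem Sm.primx_hasDerivAt {S : ℝ} {f : ℝ → ℝ → E} (hf : Sm S f) {t : ℝ} (ht : t ∈ Ico 0 S)
    (x : ℝ) : HasDerivAt (fun x => ∫ y in (0 : ℝ)..x, f y t) (f x t) x :=
  ((hf.cont_u ht).integral_hasStrictDerivAt 0 x).hasDerivAt

theorem Sm.primt_hasDerivAt {S : ℝ} {f : ℝ → ℝ → E} (hf : Sm S f) {t : ℝ} (ht : t ∈ Ioo 0 S)
    (x : ℝ) : HasDerivAt (fun t => ∫ s in (0 : ℝ)..t, f x s) (f x t) t :=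
  (hasDerivWithinAt_prim hf.continuousOn ⟨ht.1.le, ht.2⟩ x).hasDerivAt
    (Ico_mem_nhds ht.1 ht.2)

/-- differentiation under `∫₀ˣ` -/
theorem Sm.primx_hasDerivAt_t {S : ℝ} {f : ℝ → ℝ → E} (hf : Sm S f) {t : ℝ}
    (ht : t ∈ Ioo 0 S) (x : ℝ) :
    HasDerivAt (fun t => ∫ y in (0 : ℝ)..x, f y t) (∫ y in (0 : ℝ)..x, pt f y t) t := by
  have ht' : t ∈ Ico 0 S := ⟨ht.1.le, ht.2⟩
  have hn : Ico 0 S ∈ nhds t := Ico_mem_nhds ht.1 ht.2
  have h1 := (hasDerivWithinAt_primX (n := 0) (Pri_nat hf (0 + 1)) ht' x).hasDerivAt hn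
  have h2 : ∀ y, pt f y t = gτ S f y t := fun y =>
    ((gτ_hasDerivWithinAt (n := 0) (Pri_nat hf (0 + 1)) ht' y).hasDerivAt hn).deriv
  simp only [h2]
  exact h1

end Pool.Agent.helper22.FE
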