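import Pool.Agent.helper22.FE.Tder

/-!
# FE: Fourier synthesis

`syn f x t = ∑' n, f n t * exp (2π i n x)` for families `f` which are smooth in time and rapidly
decreasing.
-/

set_option autoImplicit false

open scoped Real ComplexConjugate ContDiff
open Set
open Pool.Agent.helper19.EL (Sm pu pt)

namespace Pool.Agent.helper22.FE

/-- `d/dx` on families -/
noncomputable def dxt (f : ℤ → ℝ → ℂ) (n : ℤ) (t : ℝ) : ℂ := mul n * f n t

theorem norm_mul_le (n : ℤ) : ‖mul n‖ ≤ 7 * wt n ^ 1 := by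
  have h1 : ‖mul n‖ = 2 * π * |(n : ℝ)| := by
    rw [mul, norm_mul, norm_mul, norm_mul, Complex.norm_I, Complex.norm_real, Complex.norm_intCast,
      Real.norm_of_nonneg Real.pi_pos.le, Complex.norm_ofNat, mul_one]
  rw [h1, pow_one, wt]
  have h2 := Real.pi_lt_d2
  have h3 := abs_nonneg (n : ℝ)
  nlinarith

private theorem Syn_mul_eq (n : ℤ) (x : ℝ) :
    mul n * (x : ℂ) = ((2 * π * n * x : ℝ) : ℂ) * Complex.I := by
  rw [mul]
  push_cast
  ring

private theorem Syn_norm_exp (n : ℤ) (x : ℝ) : ‖Complex.exp (mul n * (x : ℂ))‖ = 1 := by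
  rw [Syn_mul_eq, Complex.norm_exp_ofReal_mul_I]

private theorem Syn_exp_one (n : ℤ) : Complex.exp (mul n) = 1 := by
  have h : mul n = (n : ℂ) * (2 * π * Complex.I) := by
    rw [mul]; ring
  rw [h, Complex.exp_int_mul_two_pi_mul_I]

private theorem Syn_bd {S : ℝ} {f : ℤ → ℝ → ℂ} (hf : RapOn S f) :
    ∃ b : ℤ → ℝ, Summable b ∧ (Summable fun n => wt n ^ 1 * b n) ∧
      ∀ n, ∀ t ∈ Icc 0 S, ‖f n t‖ ≤ b n := by
  obtain ⟨_, b, hb, hfb⟩ := hf
  refine ⟨b, ?_, hb 1, hfb⟩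
  simpa using hb 0

private theorem Syn_sum {S : ℝ} {f : ℤ → ℝ → ℂ} (hf : RapOn S f) {t : ℝ} (ht : t ∈ Icc 0 S) :
    Summable fun n : ℤ => ‖sq f t n‖ := by
  obtain ⟨b, hb, _, hfb⟩ := Syn_bd hf
  exact Summable.of_nonneg_of_le (fun n => norm_nonneg _) (fun n => hfb n t ht) hb

theorem syn_summable {S : ℝ} {f : ℤ → ℝ → ℂ} (hf : RapOn S f) {t : ℝ} (ht : t ∈ Icc 0 S)
    (x : ℝ) : Summable fun n : ℤ => f n t * Complex.exp (mul n * x) := by
  refine Summable.of_norm_bounded (Syn_sum hf ht) fun n => ?_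
  rw [norm_mul, Syn_norm_exp, mul_one]
  exact le_refl _

theorem syn_per (f : ℤ → ℝ → ℂ) (x t : ℝ) : syn f (x + 1) t = syn f x t := by
  unfold syn
  congr 1
  funext n
  rw [Complex.ofReal_add, mul_add, Complex.exp_add, Complex.ofReal_one, mul_one, Syn_exp_one,
    mul_one]

private theorem Syn_exp_deriv (n : ℤ) (x : ℝ) :
    HasDerivAt (fun y : ℝ => Complex.exp (mul n * (y : ℂ)))
      (Complex.exp (mul n * (x : ℂ)) * mul n) x := by
  have h := ((hasDerivAt_id' (x : ℂ)).const_mul (mul n)).cexp.comp_ofReal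
  rw [mul_one] at h
  exact h

theorem syn_hasDerivAt {S : ℝ} {f : ℤ → ℝ → ℂ} (hf : RapOn S f) {t : ℝ} (ht : t ∈ Icc 0 S)
    (x : ℝ) : HasDerivAt (fun x => syn f x t) (syn (dxt f) x t) x := by
  obtain ⟨b, _, hb1, hfb⟩ := Syn_bd hf
  have h := hasDerivAt_tsum (𝕜 := ℝ) (u := fun n => 7 * (wt n ^ 1 * b n))
    (g := fun (n : ℤ) (y : ℝ) => f n t * Complex.exp (mul n * (y : ℂ)))
    (g' := fun (n : ℤ) (y : ℝ) => dxt f n t * Complex.exp (mul n * (y : ℂ)))
    (hb1.mul_left 7) ?_ ?_ (syn_summable hf ht x) x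
  · exact h
  · intro n y
    have h1 := (Syn_exp_deriv n y).const_mul (f n t)
    have h2 : f n t * (Complex.exp (mul n * (y : ℂ)) * mul n) =
        dxt f n t * Complex.exp (mul n * (y : ℂ)) := by
      rw [dxt]; ring
    rw [h2] at h1
    exact h1
  · intro n y
    rw [norm_mul, Syn_norm_exp, mul_one, dxt, norm_mul]
    calc ‖mul n‖ * ‖f n t‖ ≤ (7 * wt n ^ 1) * b n :=
          mul_le_mul (norm_mul_le n) (hfb n t ht) (norm_nonneg _)
            (by have := wt_pos n; positivity)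
      _ = _ := by ring

theorem syn_hasDerivWithinAt {S : ℝ} {f g : ℤ → ℝ → ℂ} (hf : RapOn S f) (hg : RapOn S g)
    (h : ∀ n, ∀ t ∈ Icc 0 S, HasDerivWithinAt (f n) (g n t) (Icc 0 S) t)
    {t : ℝ} (ht : t ∈ Icc 0 S) (x : ℝ) :
    HasDerivWithinAt (fun t => syn f x t) (syn g x t) (Icc 0 S) t := by
  obtain ⟨b, hb, _, hgb⟩ := Syn_bd hg
  refine hasDerivWithinAt_tsum' (f := fun (n : ℤ) t => f n t * Complex.exp (mul n * (x : ℂ)))
    (f' := fun (n : ℤ) t => g n t * Complex.exp (mul n * (x : ℂ))) hb ?_ ?_ ?_ t ht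
  · intro n t ht
    exact (h n t ht).mul_const _
  · intro n t ht
    rw [norm_mul, Syn_norm_exp, mul_one]
    exact hgb n t ht
  · intro t ht
    exact syn_summable hf ht x

/-- joint continuity -/
theorem syn_continuousOn {S : ℝ} {f : ℤ → ℝ → ℂ} (hf : RapOn S f) :
    ContinuousOn (fun p : ℝ × ℝ => syn f p.1 p.2) (univ ×ˢ Icc 0 S) := by
  obtain ⟨b, hb, _, hfb⟩ := Syn_bd hf
  refine continuousOn_tsum (f := fun (n : ℤ) (p : ℝ × ℝ) =>
    f n p.2 * Complex.exp (mul n * (p.1 : ℂ))) ?_ hb ?_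
  · intro n
    refine ContinuousOn.mul ?_ ?_
    · exact (hf.1 n).comp continuousOn_snd (fun p hp => hp.2)
    · refine Continuous.continuousOn ?_
      fun_prop
  · intro n p hp
    rw [norm_mul, Syn_norm_exp, mul_one]
    exact hfb n p.2 hp.2

/-- `TD S k f` gives a `C^k` function on `ℝ × [0, S)`: induction on `k` with
`Pool.Agent.helper69.EM.contDiffOn_succ_of_partial` -/
theorem syn_contDiffOn {S : ℝ} {k : ℕ} {f : ℤ → ℝ → ℂ} (hf : TD S k f) :
    ContDiffOn ℝ k (fun p : ℝ × ℝ => syn f p.1 p.2) (univ ×ˢ Ico 0 S) := by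
  induction k generalizing f with
  | zero =>
    rw [Nat.cast_zero, contDiffOn_zero]
    exact (syn_continuousOn hf.rapOn).mono (prod_mono (subset_refl _) Ico_subset_Icc_self)
  | succ k ih =>
    obtain ⟨h1, g, hg, hd⟩ := hf
    have hT : TD S (k + 1) f := ⟨h1, g, hg, hd⟩
    refine Pool.Agent.helper69.EM.contDiffOn_succ_of_partial (F := syn f) (A := syn (dxt f))
      (B := syn g) ?_ ?_ ?_ (ih hg)
    · intro t ht u
      exact syn_hasDerivAt h1 (Ico_subset_Icc_self ht) u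
    · intro t ht u
      exact (syn_hasDerivWithinAt h1 hg.rapOn hd (Ico_subset_Icc_self ht) u).mono
        Ico_subset_Icc_self
    · exact ih (hT.of_succ.mult (c := mul) norm_mul_le)

theorem syn_sm {S : ℝ} {f : ℤ → ℝ → ℂ} (hf : ∀ k, TD S k f) : Sm S (syn f) :=
  contDiffOn_infty.2 fun k => syn_contDiffOn (hf k)

/-- products -/
theorem syn_cv {S : ℝ} {f g : ℤ → ℝ → ℂ} (hf : RapOn S f) (hg : RapOn S g) {t : ℝ}
    (ht : t ∈ Icc 0 S) (x : ℝ) : syn (cvt f g) x t = syn f x t * syn g x t := by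
  refine cv_char (f := sq f t) (g := sq g t) (χ := fun n => Complex.exp (mul n * (x : ℂ)))
    (Syn_sum hf ht) (Syn_sum hg ht) (fun n => (Syn_norm_exp n x).le) ?_
  intro m n
  rw [← Complex.exp_add, ← add_mul]
  congr 2
  rw [mul, mul, mul]
  push_cast
  ring

theorem syn_add {S : ℝ} {f g : ℤ → ℝ → ℂ} (hf : RapOn S f) (hg : RapOn S g) {t : ℝ}
    (ht : t ∈ Icc 0 S) (x : ℝ) :
    syn (fun n t => f n t + g n t) x t = syn f x t + syn g x t := by
  unfold syn
  rw [← (syn_summable hf ht x).tsum_add (syn_summable hg ht x)]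
  congr 1
  funext n
  rw [add_mul]

theorem syn_smul (c : ℂ) (f : ℤ → ℝ → ℂ) (x t : ℝ) :
    syn (fun n t => c * f n t) x t = c * syn f x t := by
  unfold syn
  rw [← tsum_mul_left]
  congr 1
  funext n
  rw [mul_assoc]

private theorem Syn_conj (f : ℤ → ℝ → ℂ) (x t : ℝ) :
    conj (syn f x t) = syn (fun n t => conj (f (-n) t)) x t := by
  unfold syn
  rw [Complex.conj_tsum, ← (Equiv.neg ℤ).tsum_eq]
  congr 1
  funext n
  rw [Equiv.neg_apply, map_mul, ← Complex.exp_conj]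
  congr 2
  rw [mul, mul]
  simp only [map_mul, map_neg, Complex.conj_ofReal, Complex.conj_I, map_intCast, map_ofNat,
    Int.cast_neg]
  ring

/-- real functions -/
theorem syn_real {f : ℤ → ℝ → ℂ} {t : ℝ} (hf : ∀ n, f (-n) t = conj (f n t)) (x : ℝ) :
    ((syn f x t).re : ℂ) = syn f x t := by
  rw [← Complex.conj_eq_iff_re, Syn_conj]
  unfold syn
  congr 1
  funext n
  simp only
  rw [hf n, Complex.conj_conj]

private theorem Syn_int_exp (n : ℤ) :
    ∫ x in (0 : ℝ)..1, Complex.exp (mul n * (x : ℂ)) = if n = 0 then 1 else 0 := by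
  by_cases hn : n = 0
  · subst hn
    simp [mul]
  · rw [if_neg hn]
    have h0 : mul n ≠ 0 := by
      rw [mul]
      have : (n : ℂ) ≠ 0 := Int.cast_ne_zero.2 hn
      have hpi : (π : ℂ) ≠ 0 := Complex.ofReal_ne_zero.2 Real.pi_ne_zero
      exact mul_ne_zero (mul_ne_zero (mul_ne_zero two_ne_zero hpi) this) Complex.I_ne_zero
    rw [integral_exp_mul_complex h0, Complex.ofReal_one, mul_one, Syn_exp_one, Complex.ofReal_zero,
      mul_zero, Complex.exp_zero, sub_self, zero_div]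

/-- the mean is the coefficient `0` -/
theorem syn_int {S : ℝ} {f : ℤ → ℝ → ℂ} (hf : RapOn S f) {t : ℝ} (ht : t ∈ Icc 0 S) :
    ∫ x in (0 : ℝ)..1, syn f x t = f 0 t := by
  have h := intervalIntegral.hasSum_integral_of_dominated_convergence (a := (0 : ℝ)) (b := 1)
    (μ := MeasureTheory.volume) (f := fun x : ℝ => syn f x t)
    (F := fun (n : ℤ) (x : ℝ) => f n t * Complex.exp (mul n * (x : ℂ)))
    (fun n _ => ‖f n t‖) ?_ ?_ ?_ ?_ ?_
  · have h2 : (fun n : ℤ => ∫ x in (0 : ℝ)..1, f n t * Complex.exp (mul n * (x : ℂ))) =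
        fun n : ℤ => if n = 0 then f 0 t else 0 := by
      funext n
      rw [intervalIntegral.integral_const_mul, Syn_int_exp]
      split_ifs with hn
      · subst hn; rw [mul_one]
      · rw [mul_zero]
    rw [h2] at h
    exact h.unique (hasSum_ite_eq 0 (f 0 t))
  · intro n
    refine Continuous.aestronglyMeasurable ?_
    fun_prop
  · intro n
    refine Filter.Eventually.of_forall fun x _ => ?_
    rw [norm_mul, Syn_norm_exp, mul_one]
  · exact Filter.Eventually.of_forall fun x _ => Syn_sum hf ht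
  · exact intervalIntegrable_const
  · exact Filter.Eventually.of_forall fun x _ => (syn_summable hf ht x).hasSum

private theorem Syn_rap_conj {S : ℝ} {f : ℤ → ℝ → ℂ} (hf : RapOn S f) :
    RapOn S (fun n t => conj (f (-n) t)) := by
  obtain ⟨hc, b, hb, hfb⟩ := hf
  refine ⟨fun n => Complex.continuous_conj.comp_continuousOn (hc (-n)), fun n => b (-n), ?_, ?_⟩
  · intro r
    have h := (Equiv.neg ℤ).summable_iff.2 (hb r)
    refine h.congr fun n => ?_
    rw [Function.comp, Equiv.neg_apply, wt_neg]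
  · intro n t ht
    rw [RCLike.norm_conj]
    exact hfb (-n) t ht

/-- Parseval -/
theorem syn_parseval {S : ℝ} {f : ℤ → ℝ → ℂ} (hf : RapOn S f) {t : ℝ} (ht : t ∈ Icc 0 S) :
    ∫ x in (0 : ℝ)..1, ‖syn f x t‖ ^ 2 = ∑' n, ‖f n t‖ ^ 2 := by
  have hg := Syn_rap_conj hf
  have h1 : ∀ x : ℝ, ((‖syn f x t‖ ^ 2 : ℝ) : ℂ) =
      syn (cvt f (fun n t => conj (f (-n) t))) x t := by
    intro x
    rw [syn_cv hf hg ht x, ← Syn_conj, Complex.mul_conj, Complex.normSq_eq_norm_sq]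
  have h2 := syn_int (hf.cv hg) ht
  have h3 : ((∫ x in (0 : ℝ)..1, ‖syn f x t‖ ^ 2 : ℝ) : ℂ) =
      cvt f (fun n t => conj (f (-n) t)) 0 t := by
    rw [← h2, ← intervalIntegral.integral_ofReal]
    apply intervalIntegral.integral_congr
    intro x _
    exact h1 x
  have h4 : cvt f (fun n t => conj (f (-n) t)) 0 t = ((∑' n, ‖f n t‖ ^ 2 : ℝ) : ℂ) := by
    rw [Complex.ofReal_tsum]
    unfold cvt cv sq
    congr 1
    funext m
    simp only [zero_sub, neg_neg]
    rw [Complex.mul_conj, Complex.normSq_eq_norm_sq]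
  exact Complex.ofReal_injective (h3.trans h4)

end Pool.Agent.helper22.FE
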