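import Pool.Agent.helper22.FE.Cv

/-!
# FE: families of coefficients which are smooth in time

`TD S k f`: `f` is `k` times differentiable in time on `[0, S]` with all derivatives (up to order
`k`) rapidly decreasing uniformly in time.  It is stable under sums, multipliers of polynomial
growth and convolution (`cv`), and every `CSol` has it for all `k` (induction on `k` with the
equation).
-/

set_option autoImplicit false

open scoped Real ComplexConjugate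
open Set

namespace Pool.Agent.helper22.FE

/-- `k` times differentiable in time, with rapidly decreasing derivatives -/
def TD (S : ℝ) : ℕ → (ℤ → ℝ → ℂ) → Prop
  | 0, f => RapOn S f
  | k + 1, f => RapOn S f ∧ ∃ g : ℤ → ℝ → ℂ, TD S k g ∧
      ∀ n, ∀ t ∈ Icc 0 S, HasDerivWithinAt (f n) (g n t) (Icc 0 S) t

/-- convolution at each time -/
noncomputable def cvt (f g : ℤ → ℝ → ℂ) (n : ℤ) (t : ℝ) : ℂ := cv (sq f t) (sq g t) n

/-- term by term differentiation of a series (tool) -/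
theorem hasDerivWithinAt_tsum' {ι : Type} {S : ℝ} {f f' : ι → ℝ → ℂ} {b : ι → ℝ}
    (hb : Summable b) (hf : ∀ i, ∀ t ∈ Icc 0 S, HasDerivWithinAt (f i) (f' i t) (Icc 0 S) t)
    (hf' : ∀ i, ∀ t ∈ Icc 0 S, ‖f' i t‖ ≤ b i) (hs : ∀ t ∈ Icc 0 S, Summable fun i => f i t)
    (t : ℝ) (ht : t ∈ Icc 0 S) :
    HasDerivWithinAt (fun s => ∑' i, f i s) (∑' i, f' i t) (Icc 0 S) t := by
  rw [hasDerivWithinAt_iff_tendsto_slope]
  have h1 : Filter.Tendsto (fun y => ∑' i, slope (f i) t y) (nhdsWithin t (Icc 0 S \ {t}))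
      (nhds (∑' i, f' i t)) := by
    apply tendsto_tsum_of_dominated_convergence hb
    · intro i
      exact hasDerivWithinAt_iff_tendsto_slope.mp (hf i t ht)
    · filter_upwards [self_mem_nhdsWithin] with y hy i
      have hyt : y - t ≠ 0 := sub_ne_zero.mpr fun h => hy.2 h
      have h2 := Convex.norm_image_sub_le_of_norm_hasDerivWithin_le (hf i) (hf' i)
        (convex_Icc 0 S) ht hy.1
      rw [slope_def_module, norm_smul, norm_inv]
      rw [inv_mul_le_iff₀ (norm_pos_iff.mpr hyt), mul_comm]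
      exact h2
  refine h1.congr' ?_
  filter_upwards [self_mem_nhdsWithin] with y hy
  rw [slope_def_module, ← (hs y hy.1).tsum_sub (hs t ht),
    ← tsum_const_smul'' (y - t)⁻¹]
  rfl

theorem Tder_abs {b : ℤ → ℝ} (hb : ∀ r : ℕ, Summable fun n => wt n ^ r * b n) (r : ℕ) :
    Summable fun n => wt n ^ r * |b n| := by
  refine (hb r).abs.congr fun n => ?_
  rw [abs_mul, abs_of_nonneg (pow_nonneg (wt_pos n).le r)]

/-- a bound which is non-negative -/
theorem Tder_bound {S : ℝ} {f : ℤ → ℝ → ℂ} (hf : RapOn S f) : ∃ b : ℤ → ℝ,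
    (∀ r : ℕ, Summable fun n => wt n ^ r * b n) ∧ (∀ n, 0 ≤ b n) ∧
      ∀ n, ∀ t ∈ Icc 0 S, ‖f n t‖ ≤ b n := by
  obtain ⟨b, hb, hb'⟩ := hf.2
  exact ⟨fun n => |b n|, Tder_abs hb, fun n => abs_nonneg _, fun n t ht =>
    (hb' n t ht).trans (le_abs_self _)⟩

theorem Tder_summable {b : ℤ → ℝ} (hb : ∀ r : ℕ, Summable fun n => wt n ^ r * b n) :
    Summable b := by
  simpa using hb 0

theorem RapOn.congr {S : ℝ} {f g : ℤ → ℝ → ℂ} (hf : RapOn S f)
    (h : ∀ n, ∀ t ∈ Icc 0 S, g n t = f n t) : RapOn S g := by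
  obtain ⟨hc, b, hb, hb'⟩ := hf
  refine ⟨fun n => (hc n).congr (h n), b, hb, fun n t ht => ?_⟩
  rw [h n t ht]
  exact hb' n t ht

theorem RapOn.add {S : ℝ} {f g : ℤ → ℝ → ℂ} (hf : RapOn S f) (hg : RapOn S g) :
    RapOn S (fun n t => f n t + g n t) := by
  obtain ⟨hc, b, hb, hb'⟩ := hf
  obtain ⟨hc2, b2, hb2, hb2'⟩ := hg
  refine ⟨fun n => (hc n).add (hc2 n), fun n => b n + b2 n, fun r => ?_, fun n t ht => ?_⟩
  · exact ((hb r).add (hb2 r)).congr fun n => by ring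
  · exact (norm_add_le _ _).trans (add_le_add (hb' n t ht) (hb2' n t ht))

/-- multipliers of polynomial growth -/
theorem RapOn.mult {S : ℝ} {f : ℤ → ℝ → ℂ} (hf : RapOn S f) {c : ℤ → ℂ} {C : ℝ} {r : ℕ}
    (hc : ∀ n, ‖c n‖ ≤ C * wt n ^ r) : RapOn S (fun n t => c n * f n t) := by
  obtain ⟨hc1, b, hb, hb'⟩ := hf
  refine ⟨fun n => continuousOn_const.mul (hc1 n), fun n => C * wt n ^ r * b n, fun s => ?_,
    fun n t ht => ?_⟩
  · refine ((hb (s + r)).mul_left C).congr fun n => ?_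
    rw [pow_add]
    ring
  · rw [norm_mul]
    exact mul_le_mul (hc n) (hb' n t ht) (norm_nonneg _) ((norm_nonneg _).trans (hc n))

theorem RapOn.rap {S : ℝ} {f : ℤ → ℝ → ℂ} (hf : RapOn S f) {t : ℝ} (ht : t ∈ Icc 0 S) :
    Rap (sq f t) := by
  obtain ⟨hc1, b, hb, hb'⟩ := hf
  intro r
  refine Summable.of_nonneg_of_le (fun n => ?_) (fun n => ?_) (hb r)
  · exact mul_nonneg (pow_nonneg (wt_pos n).le r) (norm_nonneg _)
  · exact mul_le_mul_of_nonneg_left (hb' n t ht) (pow_nonneg (wt_pos n).le r)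

theorem Tder_sum_prod {b c : ℤ → ℝ} (hb : ∀ r : ℕ, Summable fun n => wt n ^ r * b n)
    (hc : ∀ r : ℕ, Summable fun n => wt n ^ r * c n) (n : ℤ) :
    Summable fun m => b m * c (n - m) :=
  cv_summable_aux (Tder_summable hb).norm (Tder_summable hc).norm n

theorem RapOn.cv {S : ℝ} {f g : ℤ → ℝ → ℂ} (hf : RapOn S f) (hg : RapOn S g) :
    RapOn S (cvt f g) := by
  obtain ⟨b, hb, hb0, hb'⟩ := Tder_bound hf
  obtain ⟨c, hc, hc0, hc'⟩ := Tder_bound hg
  refine ⟨fun n => ?_, FE.cv b c, fun r => cv_wt_real r (hb r) (hc r) hb0 hc0, fun n t ht => ?_⟩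
  · refine continuousOn_tsum (fun m => (hf.1 m).mul (hg.1 (n - m))) (Tder_sum_prod hb hc n) ?_
    intro m t ht
    rw [norm_mul]
    exact mul_le_mul (hb' m t ht) (hc' _ t ht) (norm_nonneg _) (hb0 m)
  · exact cv_dom (Tder_summable hb) (Tder_summable hc) (fun m => hb' m t ht)
      (fun m => hc' m t ht) n

theorem TD.rapOn {S : ℝ} {k : ℕ} {f : ℤ → ℝ → ℂ} (hf : TD S k f) : RapOn S f := by
  cases k with
  | zero => exact hf
  | succ k => exact hf.1

theorem TD.of_succ {S : ℝ} {k : ℕ} {f : ℤ → ℝ → ℂ} (hf : TD S (k + 1) f) : TD S k f := by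
  induction k generalizing f with
  | zero => exact hf.1
  | succ k ih =>
    obtain ⟨h1, g, hg, h2⟩ := hf
    exact ⟨h1, g, ih hg, h2⟩

theorem TD.congr {S : ℝ} {k : ℕ} {f g : ℤ → ℝ → ℂ} (hf : TD S k f)
    (h : ∀ n, ∀ t ∈ Icc 0 S, g n t = f n t) : TD S k g := by
  cases k with
  | zero => exact RapOn.congr hf h
  | succ k =>
    obtain ⟨h1, g', hg, h2⟩ := hf
    exact ⟨h1.congr h, g', hg, fun n t ht => (h2 n t ht).congr (h n) (h n t ht)⟩

theorem TD.add {S : ℝ} {k : ℕ} {f g : ℤ → ℝ → ℂ} (hf : TD S k f) (hg : TD S k g) :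
    TD S k (fun n t => f n t + g n t) := by
  induction k generalizing f g with
  | zero => exact RapOn.add hf hg
  | succ k ih =>
    obtain ⟨h1, f', hf', h2⟩ := hf
    obtain ⟨h3, g', hg', h4⟩ := hg
    exact ⟨h1.add h3, _, ih hf' hg', fun n t ht => (h2 n t ht).add (h4 n t ht)⟩

theorem TD.mult {S : ℝ} {k : ℕ} {f : ℤ → ℝ → ℂ} (hf : TD S k f) {c : ℤ → ℂ} {C : ℝ} {r : ℕ}
    (hc : ∀ n, ‖c n‖ ≤ C * wt n ^ r) : TD S k (fun n t => c n * f n t) := by
  induction k generalizing f with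
  | zero => exact RapOn.mult hf hc
  | succ k ih =>
    obtain ⟨h1, f', hf', h2⟩ := hf
    exact ⟨h1.mult hc, _, ih hf', fun n t ht => (h2 n t ht).const_mul (c n)⟩

theorem Tder_cvt_deriv {S : ℝ} {f g f' g' : ℤ → ℝ → ℂ} (hf : RapOn S f) (hg : RapOn S g)
    (hf' : RapOn S f') (hg' : RapOn S g')
    (h1 : ∀ n, ∀ t ∈ Icc 0 S, HasDerivWithinAt (f n) (f' n t) (Icc 0 S) t)
    (h2 : ∀ n, ∀ t ∈ Icc 0 S, HasDerivWithinAt (g n) (g' n t) (Icc 0 S) t)
    (n : ℤ) (t : ℝ) (ht : t ∈ Icc 0 S) :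
    HasDerivWithinAt (cvt f g n) (cvt f' g n t + cvt f g' n t) (Icc 0 S) t := by
  obtain ⟨b, hb, hb0, hb1⟩ := Tder_bound hf
  obtain ⟨c, hc, hc0, hc1⟩ := Tder_bound hg
  obtain ⟨b', hb', hb0', hb1'⟩ := Tder_bound hf'
  obtain ⟨c', hc', hc0', hc1'⟩ := Tder_bound hg'
  have hsum : ∀ (p q : ℤ → ℝ → ℂ) (β γ : ℤ → ℝ), (∀ r : ℕ, Summable fun n => wt n ^ r * β n) →
      (∀ r : ℕ, Summable fun n => wt n ^ r * γ n) → (∀ n, 0 ≤ β n) →
      (∀ n, ∀ t ∈ Icc 0 S, ‖p n t‖ ≤ β n) → (∀ n, ∀ t ∈ Icc 0 S, ‖q n t‖ ≤ γ n) →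
      ∀ t ∈ Icc 0 S, Summable fun m => p m t * q (n - m) t := by
    intro p q β γ hβ hγ hβ0 hp hq t ht
    refine Summable.of_norm_bounded (Tder_sum_prod hβ hγ n) fun m => ?_
    rw [norm_mul]
    exact mul_le_mul (hp m t ht) (hq _ t ht) (norm_nonneg _) (hβ0 m)
  have hd := hasDerivWithinAt_tsum' (S := S) (ι := ℤ)
    (f := fun m t => f m t * g (n - m) t)
    (f' := fun m t => f' m t * g (n - m) t + f m t * g' (n - m) t)
    (b := fun m => b' m * c (n - m) + b m * c' (n - m))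
    ((Tder_sum_prod hb' hc n).add (Tder_sum_prod hb hc' n))
    (fun m t ht => (h1 m t ht).mul (h2 (n - m) t ht))
    (fun m t ht => by
      refine (norm_add_le _ _).trans (add_le_add ?_ ?_)
      · rw [norm_mul]
        exact mul_le_mul (hb1' m t ht) (hc1 _ t ht) (norm_nonneg _) (hb0' m)
      · rw [norm_mul]
        exact mul_le_mul (hb1 m t ht) (hc1' _ t ht) (norm_nonneg _) (hb0 m))
    (hsum f g b c hb hc hb0 hb1 hc1) t ht
  rw [Summable.tsum_add (hsum f' g b' c hb' hc hb0' hb1' hc1 t ht)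
    (hsum f g' b c' hb hc' hb0 hb1 hc1' t ht)] at hd
  exact hd

theorem TD.cv {S : ℝ} {k : ℕ} {f g : ℤ → ℝ → ℂ} (hf : TD S k f) (hg : TD S k g) :
    TD S k (cvt f g) := by
  induction k generalizing f g with
  | zero => exact RapOn.cv hf hg
  | succ k ih =>
    have hfk := hf.of_succ
    have hgk := hg.of_succ
    obtain ⟨h1, f', hf', h2⟩ := hf
    obtain ⟨h3, g', hg', h4⟩ := hg
    exact ⟨h1.cv h3, _, (ih hf' hgk).add (ih hfk hg'), fun n t ht =>
      Tder_cvt_deriv h1 h3 hf'.rapOn hg'.rapOn h2 h4 n t ht⟩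

theorem Tder_mul_le (n : ℤ) : ‖mul n‖ ≤ 2 * π * wt n ^ 1 := by
  have h : ‖mul n‖ = 2 * π * |(n : ℝ)| := by
    unfold mul
    rw [norm_mul, norm_mul, norm_mul, Complex.norm_I, Complex.norm_intCast, Complex.norm_real,
      Complex.norm_ofNat, Real.norm_of_nonneg Real.pi_pos.le, mul_one]
  rw [h, pow_one]
  apply mul_le_mul_of_nonneg_left _ (by positivity)
  unfold wt
  linarith

theorem Tder_mul_inv_le (n : ℤ) : ‖(mul n)⁻¹‖ ≤ 1 * wt n ^ 0 := by
  rw [pow_zero, mul_one, norm_inv]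
  rcases eq_or_ne n 0 with rfl | hn
  · simp [mul]
  · have h : ‖mul n‖ = 2 * π * |(n : ℝ)| := by
      unfold mul
      rw [norm_mul, norm_mul, norm_mul, Complex.norm_I, Complex.norm_intCast, Complex.norm_real,
        Complex.norm_ofNat, Real.norm_of_nonneg Real.pi_pos.le, mul_one]
    rw [h]
    apply inv_le_one_of_one_le₀
    have h1 : (1 : ℝ) ≤ |(n : ℝ)| := by
      rw [← Int.cast_abs]
      exact_mod_cast Int.one_le_abs hn
    nlinarith [Real.pi_gt_three]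

theorem Tder_lam_le (n : ℤ) : ‖-(lam n : ℂ)‖ ≤ (2 * π) ^ 4 * wt n ^ 4 := by
  rw [norm_neg, Complex.norm_real]
  unfold lam
  rw [norm_pow, norm_mul, Real.norm_of_nonneg (by positivity : (0 : ℝ) ≤ 2 * π), mul_pow]
  apply mul_le_mul_of_nonneg_left _ (by positivity)
  apply pow_le_pow_left₀ (norm_nonneg _)
  unfold wt
  rw [Real.norm_eq_abs]
  linarith

/-- `Qn`, `Pn`, `Fl` and `rhs` preserve `TD` -/
theorem TD.Qn {S : ℝ} {k : ℕ} {w : ℤ → ℝ → ℂ} (hw : TD S k w) :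
    TD S k (fun n t => Qn (sq w t) n) := by
  have h1 : TD S k (fun n t => mul n * w n t) := hw.mult Tder_mul_le
  have h2 := h1.cv h1
  have h3 := hw.cv hw
  have h4 := h3.cv h3
  have h5 := h4.mult (c := fun _ => -(1 / 2 : ℂ)) (C := ‖-(1 / 2 : ℂ)‖) (r := 0)
    (fun n => by rw [pow_zero, mul_one])
  refine (h2.add h5).congr fun n t ht => ?_
  rw [neg_mul, ← sub_eq_add_neg]
  rfl

theorem TD.Pn {S : ℝ} {k : ℕ} {w : ℤ → ℝ → ℂ} (hw : TD S k w) :
    TD S k (fun n t => Pn (sq w t) n) :=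
  hw.Qn.mult Tder_mul_inv_le

theorem TD.Fl {S : ℝ} {k : ℕ} {w : ℤ → ℝ → ℂ} (hw : TD S k w) :
    TD S k (fun n t => Fl (sq w t) n) := by
  have h1 : TD S k (fun n t => mul n * w n t) := hw.mult Tder_mul_le
  have h2 := (hw.cv hw).cv h1
  have h3 := h2.mult (c := fun _ => (-(5 / 2) : ℂ)) (C := ‖(-(5 / 2) : ℂ)‖) (r := 0)
    (fun n => by rw [pow_zero, mul_one])
  exact h3.add (hw.cv hw.Pn)

theorem TD.rhs {S : ℝ} {k : ℕ} {w : ℤ → ℝ → ℂ} (hw : TD S k w) :
    TD S k (fun n t => rhs (sq w t) n) := by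
  have h1 : TD S k (fun n t => -(lam n : ℂ) * w n t) := hw.mult Tder_lam_le
  exact h1.add (hw.Fl.mult Tder_mul_le)

/-- every solution is smooth in time -/
theorem CSol.td {S : ℝ} {w : ℤ → ℝ → ℂ} (h : CSol S w) (k : ℕ) : TD S k w := by
  induction k with
  | zero => exact h.rap
  | succ k ih => exact ⟨h.rap, _, ih.rhs, h.ode⟩

end Pool.Agent.helper22.FE
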